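import Pool.Agent.LibQC8.Defs

open scoped Classical IntermediateField.algebraAdjoinAdjoin
open Pool.Agent.LibBH2 Pool.Agent.LibQC8 IsDedekindDomain Polynomial

namespace Pool.Agent.LibEnd77.Val8

variable {k H : Type} [Field k] [Field H] [Algebra k H]

theorem essFinite (hF : IsFunctionField k H) : Algebra.EssFiniteType k H := by
  obtain ⟨s, hs, hfin⟩ := hF
  haveI : Algebra.EssFiniteType k (IntermediateField.adjoin k {s}) := by
    rw [IntermediateField.essFiniteType_iff]
    exact ⟨{s}, by simp⟩
  exact Algebra.EssFiniteType.comp k (IntermediateField.adjoin k {s}) H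

theorem basis_of_algebraic {s : H} (hs : Transcendental k s)
    (h : Algebra.IsAlgebraic (IntermediateField.adjoin k {s}) H) :
    IsTranscendenceBasis k (fun _ : Unit => s) := by
  rw [isTranscendenceBasis_iff_algebraicIndependent_isAlgebraic]
  refine ⟨algebraicIndependent_unique_type_iff.2 hs, ?_⟩
  have h1 : Set.range (fun _ : Unit => s) = {s} := by simp
  rw [h1]
  haveI : Algebra.IsAlgebraic (Algebra.adjoin k {s}) (IntermediateField.adjoin k {s}) := inferInstance
  exact Algebra.IsAlgebraic.trans (Algebra.adjoin k {s}) (IntermediateField.adjoin k {s}) H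

theorem trdeg_one (hF : IsFunctionField k H) : Algebra.trdeg k H = 1 := by
  obtain ⟨s, hs, hfin⟩ := hF
  have := (basis_of_algebraic hs inferInstance).cardinalMk_eq_trdeg
  rw [← this]
  simp

theorem finite_adjoin (hF : IsFunctionField k H) {φ : H} (hφ : Transcendental k φ) :
    FiniteDimensional (IntermediateField.adjoin k {φ}) H := by
  have h1 : IsTranscendenceBasis k (fun _ : Unit => φ) := by
    apply AlgebraicIndependent.isTranscendenceBasis_of_trdeg_le_of_finite (algebraicIndependent_unique_type_iff.2 hφ)
    rw [trdeg_one hF]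
    simp
  have h2 := h1.isAlgebraic_field
  have h3 : Set.range (fun _ : Unit => φ) = {φ} := by simp
  rw [h3] at h2
  haveI := essFinite hF
  haveI : Algebra.EssFiniteType (IntermediateField.adjoin k {φ}) H :=
    Algebra.EssFiniteType.of_comp k _ H
  exact Algebra.finite_of_essFiniteType_of_isAlgebraic


section hos

variable {R : Type} [CommRing R] [IsDedekindDomain R] [Algebra R H] [IsFractionRing R H]
  [Algebra k R] [IsScalarTower k R H]

theorem hos_const (P : HeightOneSpectrum R) (c : k) (hc : c ≠ 0) :
    P.valuation H (algebraMap k H c) = 1 := by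
  have h1 : ∀ c : k, P.valuation H (algebraMap k H c) ≤ 1 := by
    intro c
    rw [IsScalarTower.algebraMap_apply k R H]
    exact P.valuation_le_one _
  refine le_antisymm (h1 c) ?_
  have h2 := h1 c⁻¹
  rw [map_inv₀, map_inv₀] at h2
  have h3 : P.valuation H (algebraMap k H c) ≠ 0 := by simpa using hc
  by_contra h
  push Not at h
  have h4 : 1 < (P.valuation H (algebraMap k H c))⁻¹ := (one_lt_inv₀ (zero_lt_iff.2 h3)).2 h
  exact absurd h2 (not_le.2 h4)

/-- The place of a height one prime. -/
noncomputable def ofHOS (P : HeightOneSpectrum R) : Place k H where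
  ord x := if x = 0 then 0 else - WithZero.log (P.valuation H x)
  ord_zero := by simp
  ord_mul f g hf hg := by
    rw [if_neg (mul_ne_zero hf hg), if_neg hf, if_neg hg, map_mul,
      WithZero.log_mul (by simpa using hf) (by simpa using hg)]
    ring
  ord_add f g hf hg hfg := by
    rw [if_neg hfg, if_neg hf, if_neg hg]
    have h := (P.valuation H).map_add f g
    have hf' : P.valuation H f ≠ 0 := by simpa using hf
    have hg' : P.valuation H g ≠ 0 := by simpa using hg
    have hfg' : P.valuation H (f + g) ≠ 0 := by simpa using hfg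
    rcases le_max_iff.1 h with h | h
    · have := (WithZero.log_le_log hfg' hf').2 h
      exact le_trans (min_le_left _ _) (by linarith)
    · have := (WithZero.log_le_log hfg' hg').2 h
      exact le_trans (min_le_right _ _) (by linarith)
  ord_const c hc := by
    rw [if_neg (by simpa using hc), hos_const P c hc]
    simp
  exists_uniformizer := by
    obtain ⟨π, hπ⟩ := P.valuation_exists_uniformizer H
    refine ⟨π, ?_⟩
    have h0 : π ≠ 0 := by
      rintro rfl
      rw [map_zero] at hπ
      exact WithZero.exp_ne_zero hπ.symm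
    rw [if_neg h0, hπ]
    simp

theorem ofHOS_ord (P : HeightOneSpectrum R) {x : H} (hx : x ≠ 0) :
    P.valuation H x = WithZero.exp (-((ofHOS (k := k) P).ord x)) := by
  have hx' : P.valuation H x ≠ 0 := by simpa using hx
  change _ = WithZero.exp (-(if x = 0 then 0 else - WithZero.log (P.valuation H x)))
  rw [if_neg hx, neg_neg, WithZero.exp_log hx']

theorem ofHOS_zer (P : HeightOneSpectrum R) (r : R) :
    (ofHOS (k := k) P).Zer (algebraMap R H r) ↔ r ∈ P.asIdeal := by
  rw [← P.valuation_lt_one_iff_mem (K := H)]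
  by_cases h0 : algebraMap R H r = 0
  · constructor
    · intro _
      change P.valuation H (algebraMap R H r) < 1
      rw [h0, map_zero]
      exact zero_lt_one
    · intro _
      exact Or.inl h0
  · change _ ↔ P.valuation H (algebraMap R H r) < 1
    rw [ofHOS_ord (k := k) P h0, ← WithZero.exp_zero, WithZero.exp_lt_exp]
    constructor
    · rintro (h | h)
      · exact absurd h h0
      · omega
    · intro h
      exact Or.inr (by omega)

/-- a unit for the valuation is a quotient of elements outside the prime -/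
theorem exists_quot (P : HeightOneSpectrum R) {x : H} (hx : P.valuation H x = 1) :
    ∃ a s : R, a ∉ P.asIdeal ∧ s ∉ P.asIdeal ∧ x = algebraMap R H a / algebraMap R H s := by
  have h1 : x ∈ (P.valuation H).valuationSubring := by
    rw [Valuation.mem_valuationSubring_iff, hx]
  rw [← HeightOneSpectrum.valuationSubringAtPrime_eq_valuationSubring] at h1
  obtain ⟨a, s, hs, rfl⟩ := h1
  have hs' : s ∉ P.asIdeal := hs
  have hs1 : P.valuation H (algebraMap R H s) = 1 := by
    refine le_antisymm (P.valuation_le_one _) ?_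
    by_contra h
    push Not at h
    exact hs' ((P.valuation_lt_one_iff_mem s).1 h)
  refine ⟨a, s, ?_, hs', (div_eq_mul_inv _ _).symm⟩
  intro ha
  have h2 := (P.valuation_lt_one_iff_mem (K := H) a).2 ha
  change P.valuation H (algebraMap R H a * (algebraMap R H s)⁻¹) = 1 at hx
  rw [map_mul, map_inv₀, hs1, inv_one, mul_one] at hx
  rw [hx] at h2
  exact lt_irrefl _ h2

theorem eq_ofHOS (v : Place k H) (hR : ∀ r : R, v.Reg (algebraMap R H r))
    (P : HeightOneSpectrum R) (hP : ∀ r : R, r ∈ P.asIdeal ↔ v.Zer (algebraMap R H r)) :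
    v = ofHOS P := by
  have hu : ∀ x : H, P.valuation H x = 1 → v.ord x = 0 := by
    intro x hx
    obtain ⟨a, s, ha, hs, rfl⟩ := exists_quot P hx
    rw [hP] at ha hs
    have ha0 : algebraMap R H a ≠ 0 := fun h => ha (Or.inl h)
    have hs0 : algebraMap R H s ≠ 0 := fun h => hs (Or.inl h)
    rw [v.ord_div _ _ ha0 hs0, Place.ord_eq_zero_of_reg (hR a) ha,
      Place.ord_eq_zero_of_reg (hR s) hs, sub_zero]
  obtain ⟨π, hπ⟩ := P.valuation_exists_uniformizer H
  have hπ0 : π ≠ 0 := by
    rintro rfl
    rw [map_zero] at hπ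
    exact WithZero.exp_ne_zero hπ.symm
  have h1 : ∀ x : H, x ≠ 0 → v.ord x = (ofHOS (k := k) P).ord x * v.ord π := by
    intro x hx
    have h2 : P.valuation H (x * π ^ (-((ofHOS (k := k) P).ord x))) = 1 := by
      rw [map_mul, map_zpow₀, hπ, ofHOS_ord (k := k) P hx, ← WithZero.exp_zsmul,
        ← WithZero.exp_add]
      simp
    have h3 := hu _ h2
    rw [v.ord_mul _ _ hx (zpow_ne_zero _ hπ0), v.ord_zpow] at h3
    linarith
  obtain ⟨t, ht⟩ := v.exists_uniformizer
  have ht0 : t ≠ 0 := by
    rintro rfl
    rw [v.ord_zero] at ht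
    omega
  have h4 := h1 t ht0
  rw [ht] at h4
  have h5 : v.ord π = 1 := by
    have h6 : v.ord π = 1 ∨ v.ord π = -1 :=
      Int.isUnit_iff.1 (IsUnit.of_mul_eq_one _ (by rw [mul_comm]; exact h4.symm))
    rcases h6 with h6 | h6
    · exact h6
    · exfalso
      -- some element of the prime has positive order for both
      obtain ⟨r, hr, hr0⟩ := Submodule.exists_mem_ne_zero_of_ne_bot P.ne_bot
      have hr1 : algebraMap R H r ≠ 0 := by
        rw [Ne, FaithfulSMul.algebraMap_eq_zero_iff]
        exact hr0
      have h7 := ((hP r).1 hr).resolve_left hr1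
      have h8 := ((ofHOS_zer (k := k) (H := H) P r).2 hr).resolve_left hr1
      rw [h1 _ hr1, h6] at h7
      omega
  apply Place.ext'
  intro x
  by_cases hx : x = 0
  · rw [hx, v.ord_zero, Place.ord_zero]
  · rw [h1 x hx, h5, mul_one]

end hos

/-! ### Elements integral over a ring of regular elements -/

theorem reg_of_integral {A : Type} [CommRing A] [Algebra A H] (v : Place k H)
    (hA : ∀ a : A, v.Reg (algebraMap A H a)) {x : H} (hx : IsIntegral A x) : v.Reg x := by
  by_contra hcon
  have hx0 : x ≠ 0 := fun h => hcon (Or.inl h)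
  have hneg : v.ord x < 0 := by
    by_contra h
    exact hcon (Or.inr (not_lt.1 h))
  obtain ⟨p, hp, hpx⟩ := hx
  have h1 : Polynomial.eval₂ (algebraMap A H) x p =
      x ^ p.natDegree + ∑ i ∈ Finset.range p.natDegree, algebraMap A H (p.coeff i) * x ^ i := by
    rw [Polynomial.eval₂_eq_sum_range, Finset.sum_range_succ, hp.coeff_natDegree, map_one, one_mul,
      add_comm]
  rw [h1] at hpx
  -- multiply by x^(1-n)
  have hreg : ∀ s : Finset ℕ, (∀ i ∈ s, i < p.natDegree) →
      v.Reg ((∑ i ∈ s, algebraMap A H (p.coeff i) * x ^ i) * (x⁻¹) ^ (p.natDegree - 1)) := by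
    intro s
    induction s using Finset.induction_on with
    | empty => intro _; simp [Place.reg_zero]
    | insert a s ha ih =>
      intro hs
      rw [Finset.sum_insert ha, add_mul]
      apply Place.Reg.add _ (ih fun i hi => hs i (Finset.mem_insert_of_mem hi))
      rw [mul_assoc]
      apply (hA _).mul
      have ha' := hs a (Finset.mem_insert_self _ _)
      have h2 : x ^ a * x⁻¹ ^ (p.natDegree - 1) = x⁻¹ ^ (p.natDegree - 1 - a) := by
        rw [show p.natDegree - 1 = (p.natDegree - 1 - a) + a from by omega, pow_add,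
          show p.natDegree - 1 - a + a - a = p.natDegree - 1 - a from by omega]
        rw [mul_comm, mul_assoc, ← mul_pow, inv_mul_cancel₀ hx0, one_pow, mul_one]
      rw [h2]
      apply Place.Reg.pow
      exact Or.inr (by rw [v.ord_inv]; omega)
  have h3 := hreg (Finset.range p.natDegree) fun i hi => Finset.mem_range.1 hi
  rcases Nat.eq_zero_or_pos p.natDegree with hn | hn
  · rw [hn] at hpx
    simp at hpx
  · have h4 : (∑ i ∈ Finset.range p.natDegree, algebraMap A H (p.coeff i) * x ^ i) =
        - x ^ p.natDegree := by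
      rw [eq_neg_iff_add_eq_zero, add_comm]
      exact hpx
    rw [h4] at h3
    have h5 : -x ^ p.natDegree * x⁻¹ ^ (p.natDegree - 1) = -x := by
      obtain ⟨n, hn'⟩ := Nat.exists_eq_succ_of_ne_zero hn.ne'
      rw [hn', Nat.succ_sub_one, pow_succ, neg_mul, mul_comm (x ^ n) x, mul_assoc, ← mul_pow,
        mul_inv_cancel₀ hx0, one_pow, mul_one]
    rw [h5] at h3
    have h6 := h3.neg
    rw [neg_neg] at h6
    exact hcon h6

end Pool.Agent.LibEnd77.Val8
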