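import Pool.Agent.LibEnd77.ValB

open scoped Classical IntermediateField.algebraAdjoinAdjoin
open Pool.Agent.LibBH2 Pool.Agent.LibQC8 IsDedekindDomain Polynomial

namespace Pool.Agent.LibEnd77.Val8

variable {k H : Type} [Field k] [Field H] [Algebra k H]

theorem transcendental_inv {φ : H} (hφ : Transcendental k φ) : Transcendental k φ⁻¹ := by
  intro h
  exact hφ (by simpa using h.inv)

theorem adjoin_inv (φ : H) :
    IntermediateField.adjoin k {φ⁻¹} = IntermediateField.adjoin k {φ} := by
  apply le_antisymm
  · rw [IntermediateField.adjoin_simple_le_iff]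
    exact inv_mem (IntermediateField.mem_adjoin_simple_self k φ)
  · rw [IntermediateField.adjoin_simple_le_iff]
    have := inv_mem (IntermediateField.mem_adjoin_simple_self k φ⁻¹)
    rwa [inv_inv] at this

theorem sum_sep [IsAlgClosed k] (hF : IsFunctionField k H) {φ : H} (hφ : Transcendental k φ)
    (hs : Algebra.IsSeparable (IntermediateField.adjoin k {φ}) H) :
    {v : Place k H | v.ord φ ≠ 0}.Finite ∧ ∑ᶠ v : Place k H, v.ord φ = 0 ∧
      ∃ v : Place k H, 0 < v.ord φ := by
  haveI := finite_adjoin hF hφ
  obtain ⟨S, hS, h1⟩ := sum_zeros hφ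
  have hφ' := transcendental_inv hφ
  haveI := finite_adjoin hF hφ'
  haveI : Algebra.IsSeparable (IntermediateField.adjoin k {φ⁻¹}) H := by
    rw [adjoin_inv]
    exact hs
  obtain ⟨T, hT, h2⟩ := sum_zeros hφ'
  have h3 : Module.finrank (IntermediateField.adjoin k {φ⁻¹}) H =
      Module.finrank (IntermediateField.adjoin k {φ}) H := by
    rw [adjoin_inv]
  rw [h3, ← h1] at h2
  have hT' : ∀ v, v ∈ T ↔ v.ord φ < 0 := by
    intro v
    rw [hT, v.ord_inv]
    constructor <;> intro h <;> linarith
  have hset : {v : Place k H | v.ord φ ≠ 0} = ((S ∪ T : Finset (Place k H)) : Set _) := by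
    ext v
    rw [Finset.coe_union, Set.mem_union, Finset.mem_coe, Finset.mem_coe, hS, hT']
    change v.ord φ ≠ 0 ↔ _
    constructor
    · intro h
      rcases lt_or_gt_of_ne h with h | h
      · exact Or.inr h
      · exact Or.inl h
    · rintro (h | h)
      · exact h.ne'
      · exact h.ne
  have hfin : {v : Place k H | v.ord φ ≠ 0}.Finite := by
    rw [hset]
    exact Finset.finite_toSet _
  refine ⟨hfin, ?_, ?_⟩
  · rw [finsum_eq_sum_of_support_subset (s := S ∪ T) _ (by
      intro v hv
      rw [← hset]
      exact hv)]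
    rw [Finset.sum_union (by
      rw [Finset.disjoint_left]
      intro v hv hv'
      rw [hS] at hv
      rw [hT'] at hv'
      linarith)]
    rw [← h2, ← Finset.sum_add_distrib]
    apply Finset.sum_eq_zero
    intro v _
    rw [v.ord_inv]
    ring
  · have hpos : 0 < Module.finrank (IntermediateField.adjoin k {φ}) H := Module.finrank_pos
    by_contra hcon
    push Not at hcon
    have : S = ∅ := by
      apply Finset.eq_empty_of_forall_notMem
      intro v hv
      rw [hS] at hv
      exact absurd hv (not_lt.2 (hcon v))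
    rw [this, Finset.sum_empty] at h1
    have h4 : Module.finrank (IntermediateField.adjoin k {φ}) H = 0 := by exact_mod_cast h1.symm
    omega

/-! ### Derivations and separability -/

theorem alg_const [IsAlgClosed k] {x : H} (hx : IsAlgebraic k x) : ∃ c, algebraMap k H c = x := by
  have h1 := IsAlgClosed.degree_eq_one_of_irreducible k (minpoly.irreducible hx.isIntegral)
  exact minpoly.mem_range_of_degree_eq_one k x h1

theorem der_zero {t : H} (ht : Algebra.IsSeparable (IntermediateField.adjoin k {t}) H)
    (D : Derivation k H H) (hD : D t = 0) : D = 0 := by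
  have h1 : ∀ x ∈ IntermediateField.adjoin k {t}, D x = 0 := by
    intro x hx
    induction hx using IntermediateField.adjoin_induction with
    | mem x hx =>
      rw [Set.mem_singleton_iff] at hx
      rw [hx, hD]
    | algebraMap c => exact D.map_algebraMap c
    | add x y _ _ hx hy => rw [map_add, hx, hy, add_zero]
    | inv x _ hx =>
      by_cases h0 : x = 0
      · rw [h0, inv_zero, map_zero]
      · have h2 : D (x * x⁻¹) = 0 := by
          rw [mul_inv_cancel₀ h0]
          exact D.map_one_eq_zero
        rw [D.leibniz, hx, smul_zero, add_zero, smul_eq_mul] at h2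
        exact (mul_eq_zero.1 h2).resolve_left h0
    | mul x y _ _ hx hy => rw [D.leibniz, hx, hy, smul_zero, smul_zero, add_zero]
  let D' : Derivation (IntermediateField.adjoin k {t}) H H :=
    Derivation.mk'
      { toFun := D
        map_add' := D.map_add
        map_smul' := by
          intro c x
          change D ((c : H) * x) = (c : H) * D x
          rw [D.leibniz, h1 c c.2, smul_zero, add_zero, smul_eq_mul] }
      (fun a b => D.leibniz a b)
  haveI : Algebra.FormallyUnramified (IntermediateField.adjoin k {t}) H :=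
    Algebra.FormallyUnramified.of_isSeparable _ _
  ext x
  have h2 : D' x = 0 := by
    rw [← D'.liftKaehlerDifferential_comp_D x, Subsingleton.elim (KaehlerDifferential.D _ _ x) 0,
      map_zero]
  exact h2

theorem exists_der (hF : IsFunctionField k H) {φ : H}
    (hs : ¬ Algebra.IsSeparable (IntermediateField.adjoin k {φ}) H) :
    ∃ D : Derivation k H H, D ≠ 0 ∧ D φ = 0 := by
  haveI := essFinite hF
  haveI : Algebra.EssFiniteType (IntermediateField.adjoin k {φ}) H :=
    Algebra.EssFiniteType.of_comp k _ H
  rw [← Algebra.FormallyUnramified.iff_isSeparable] at hs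
  have h1 : ¬ Subsingleton (KaehlerDifferential (IntermediateField.adjoin k {φ}) H) := by
    intro h
    exact hs ⟨h⟩
  rw [not_subsingleton_iff_nontrivial] at h1
  obtain ⟨ω, hω⟩ := exists_ne (0 : KaehlerDifferential (IntermediateField.adjoin k {φ}) H)
  have h2 : ¬ ∀ ℓ : Module.Dual H (KaehlerDifferential (IntermediateField.adjoin k {φ}) H),
      ℓ ω = 0 := fun h => hω ((Module.forall_dual_apply_eq_zero_iff H ω).1 h)
  push Not at h2
  obtain ⟨ℓ, hℓ⟩ := h2
  let D' : Derivation (IntermediateField.adjoin k {φ}) H H :=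
    ℓ.compDer (KaehlerDifferential.D (IntermediateField.adjoin k {φ}) H)
  refine ⟨D'.restrictScalars k, ?_, ?_⟩
  · intro h
    apply hℓ
    have h3 : ℓ = 0 := by
      apply Derivation.liftKaehlerDifferential_unique
      ext x
      have := congrArg (fun E : Derivation k H H => E x) h
      exact this
    rw [h3]
    rfl
  · change D' (algebraMap (IntermediateField.adjoin k {φ}) H
      ⟨φ, IntermediateField.mem_adjoin_simple_self k φ⟩) = 0
    exact D'.map_algebraMap _

theorem exists_sep [IsAlgClosed k] (hF : IsFunctionField k H) : ∃ t : H, Transcendental k t ∧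
    Algebra.IsSeparable (IntermediateField.adjoin k {t}) H := by
  haveI := essFinite hF
  obtain ⟨s, hs, hsep⟩ := exists_isTranscendenceBasis_and_isSeparable_of_perfectField k H
  have h1 := hs.cardinalMk_eq_trdeg
  rw [trdeg_one hF] at h1
  have h2 : s.card = 1 := by
    have : (Cardinal.mk s) = (s.card : Cardinal) := by simp
    rw [this] at h1
    exact_mod_cast h1
  obtain ⟨t, rfl⟩ := Finset.card_eq_one.1 h2
  refine ⟨t, ?_, ?_⟩
  · have := hs.1.transcendental ⟨t, Finset.mem_singleton_self t⟩
    exact this
  · rwa [Finset.coe_singleton] at hsep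

/-- if `H` is not separable over `k(φ)` then it is separable over `k(φ t)` -/
theorem sep_mul [IsAlgClosed k] (hF : IsFunctionField k H) {t φ : H}
    (ht : Algebra.IsSeparable (IntermediateField.adjoin k {t}) H)
    (hφ : ¬ Algebra.IsSeparable (IntermediateField.adjoin k {φ}) H) (h0 : φ ≠ 0) :
    Transcendental k (φ * t) ∧ Algebra.IsSeparable (IntermediateField.adjoin k {φ * t}) H := by
  obtain ⟨D, hD, hDφ⟩ := exists_der hF hφ
  have hDt : D t ≠ 0 := fun h => hD (der_zero ht D h)
  have hDφt : D (φ * t) ≠ 0 := by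
    rw [D.leibniz, hDφ, smul_zero, add_zero, smul_eq_mul]
    exact mul_ne_zero h0 hDt
  constructor
  · intro h
    obtain ⟨c, hc⟩ := alg_const h
    rw [← hc] at hDφt
    exact hDφt (D.map_algebraMap c)
  · by_contra hcon
    obtain ⟨E, hE, hEφ⟩ := exists_der hF hcon
    have hEt : E t ≠ 0 := fun h => hE (der_zero ht E h)
    have h1 : E t • D - D t • E = 0 := by
      apply der_zero ht
      simp [mul_comm]
    have h2 := congrArg (fun Q : Derivation k H H => Q (φ * t)) h1
    simp only [Derivation.sub_apply, Derivation.smul_apply, hEφ, 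
      Derivation.coe_zero, Pi.zero_apply, smul_eq_mul, mul_zero, sub_zero] at h2
    exact mul_ne_zero hEt hDφt h2

/-! ### The sum formula -/

theorem ord_const_eq (v : Place k H) (c : k) : v.ord (algebraMap k H c) = 0 := by
  by_cases hc : c = 0
  · rw [hc, map_zero, v.ord_zero]
  · exact v.ord_const c hc

/-- A function has finitely many zeros and poles, and as many zeros as poles. -/
theorem sum_formula [IsAlgClosed k] (hF : IsFunctionField k H) (φ : H) :
    {v : Place k H | v.ord φ ≠ 0}.Finite ∧ ∑ᶠ v : Place k H, v.ord φ = 0 := by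
  by_cases ha : IsAlgebraic k φ
  · obtain ⟨c, rfl⟩ := alg_const ha
    constructor
    · convert Set.finite_empty
      ext v
      simp [ord_const_eq]
    · simp [ord_const_eq]
  by_cases hs : Algebra.IsSeparable (IntermediateField.adjoin k {φ}) H
  · obtain ⟨h1, h2, -⟩ := sum_sep hF ha hs
    exact ⟨h1, h2⟩
  · obtain ⟨t, ht, hts⟩ := exists_sep hF
    have h0 : φ ≠ 0 := ne_zero_of_transcendental ha
    have ht0 : t ≠ 0 := ne_zero_of_transcendental ht
    obtain ⟨h1, h2⟩ := sep_mul hF hts hs h0
    obtain ⟨h3, h4, -⟩ := sum_sep hF h1 h2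
    obtain ⟨h5, h6, -⟩ := sum_sep hF ht hts
    have h7 : ∀ v : Place k H, v.ord φ = v.ord (φ * t) - v.ord t := by
      intro v
      rw [v.ord_mul φ t h0 ht0]
      ring
    constructor
    · refine (h3.union h5).subset ?_
      intro v hv
      change v.ord φ ≠ 0 at hv
      rw [h7] at hv
      by_contra hcon
      have h8 : v.ord (φ * t) = 0 := by
        by_contra h; exact hcon (Or.inl h)
      have h9 : v.ord t = 0 := by
        by_contra h; exact hcon (Or.inr h)
      rw [h8, h9] at hv
      exact hv rfl
    · rw [finsum_congr h7, finsum_sub_distrib h3 h5, h4, h6, sub_zero]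

/-! ### Values -/

theorem ord_aeval_zero [IsAlgClosed k] (v : Place k H) {f : H} (hf : v.Reg f)
    (h : ∀ c : k, ¬ v.Zer (f - algebraMap k H c)) (P : k[X]) (hP : P ≠ 0) :
    aeval f P ≠ 0 ∧ v.ord (aeval f P) = 0 := by
  have hsp := IsAlgClosed.splits P
  rw [hsp.eq_prod_roots, map_mul, aeval_C]
  have h1 : ∀ m : Multiset k, (aeval f (m.map fun a => X - C a).prod) ≠ 0 ∧
      v.ord (aeval f (m.map fun a => X - C a).prod) = 0 := by
    intro m
    induction m using Multiset.induction_on with
    | empty => simp
    | cons a m ih =>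
      have h2 : f - algebraMap k H a ≠ 0 := fun h' => h a (Or.inl h')
      rw [Multiset.map_cons, Multiset.prod_cons, map_mul, map_sub, aeval_X, aeval_C]
      refine ⟨mul_ne_zero h2 ih.1, ?_⟩
      rw [v.ord_mul _ _ h2 ih.1, ih.2, add_zero]
      exact Place.ord_eq_zero_of_reg (hf.sub (v.reg_const a)) (h a)
  obtain ⟨h2, h3⟩ := h1 P.roots
  have h4 : algebraMap k H P.leadingCoeff ≠ 0 := by
    simpa using hP
  refine ⟨mul_ne_zero h4 h2, ?_⟩
  rw [v.ord_mul _ _ h4 h2, h3, ord_const_eq]
  rfl

/-- A function regular at `v` has a value at `v`. -/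
theorem exists_val [IsAlgClosed k] (hF : IsFunctionField k H) (v : Place k H) {f : H}
    (hf : v.Reg f) : ∃ c : k, v.Zer (f - algebraMap k H c) := by
  by_contra hcon
  push Not at hcon
  have htr : Transcendental k f := by
    intro h
    obtain ⟨c, hc⟩ := alg_const h
    exact hcon c (Or.inl (by rw [hc, sub_self]))
  haveI := finite_adjoin hF htr
  have h1 : ∀ x : IntermediateField.adjoin k {f}, v.ord (x : H) = 0 := by
    rintro ⟨x, hx⟩
    rw [IntermediateField.mem_adjoin_simple_iff] at hx
    obtain ⟨P, Q, rfl⟩ := hx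
    change v.ord (aeval f P / aeval f Q) = 0
    by_cases hP : P = 0
    · rw [hP, map_zero, zero_div, v.ord_zero]
    by_cases hQ : Q = 0
    · rw [hQ, map_zero, div_zero, v.ord_zero]
    obtain ⟨h2, h3⟩ := ord_aeval_zero v hf hcon P hP
    obtain ⟨h4, h5⟩ := ord_aeval_zero v hf hcon Q hQ
    rw [v.ord_div _ _ h2 h4, h3, h5, sub_zero]
  have h2 : ∀ x : H, v.Reg x := fun x =>
    reg_of_integral (A := IntermediateField.adjoin k {f}) v (fun a => Or.inr (h1 a).ge)
      (Algebra.IsIntegral.isIntegral x)
  obtain ⟨t, ht⟩ := v.exists_uniformizer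
  have ht0 : t ≠ 0 := by
    rintro rfl
    rw [v.ord_zero] at ht
    omega
  have h3 := (h2 t⁻¹).resolve_left (inv_ne_zero ht0)
  rw [v.ord_inv, ht] at h3
  omega

/-- A non-constant function has a pole. -/
theorem exists_pole [IsAlgClosed k] (hF : IsFunctionField k H) {φ : H}
    (hφ : Transcendental k φ) : ∃ v : Place k H, v.ord φ < 0 := by
  -- if there is a zero then there is a pole
  have key : ∀ ψ : H, (∃ v : Place k H, 0 < v.ord ψ) → ∃ v : Place k H, v.ord ψ < 0 := by
    rintro ψ ⟨v, hv⟩
    by_contra hcon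
    push Not at hcon
    obtain ⟨h1, h2⟩ := sum_formula hF ψ
    have h3 : 0 < ∑ᶠ v : Place k H, v.ord ψ :=
      finsum_pos' (fun w => hcon w) ⟨v, hv⟩ h1
    omega
  obtain ⟨t, ht, hts⟩ := exists_sep hF
  obtain ⟨-, -, v, -⟩ := sum_sep hF ht hts
  by_cases h : v.ord φ < 0
  · exact ⟨v, h⟩
  · obtain ⟨c, hc⟩ := exists_val hF v (f := φ) (Or.inr (not_lt.1 h))
    have hne : φ - algebraMap k H c ≠ 0 := by
      intro h0
      rw [sub_eq_zero] at h0
      exact hφ (h0 ▸ isAlgebraic_algebraMap c)
    obtain ⟨w, hw⟩ := key _ ⟨v, hc.resolve_left hne⟩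
    refine ⟨w, ?_⟩
    by_contra hcon
    have hreg : w.Reg (φ - algebraMap k H c) :=
      Place.Reg.sub (Or.inr (not_lt.1 hcon)) (w.reg_const c)
    have := hreg.resolve_left hne
    omega

/-- A non-constant function has a zero. -/
theorem exists_zero [IsAlgClosed k] (hF : IsFunctionField k H) {φ : H}
    (hφ : Transcendental k φ) : ∃ v : Place k H, 0 < v.ord φ := by
  obtain ⟨v, hv⟩ := exists_pole hF (transcendental_inv hφ)
  refine ⟨v, ?_⟩
  rw [v.ord_inv] at hv
  omega

end Pool.Agent.LibEnd77.Val8
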