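import Pool.Agent.LibQC8.Defs

/-!
Pointed curves, zero-cycles on products of symmetric powers of curves, correspondences between curves
and maps from curves to the product of the Jacobians; conditions on a group of points of this product.
-/

open scoped Classical

namespace Pool.Agent.LibEnd77

open Pool.Agent.LibBH2 Pool.Agent.LibQC8

/-- A smooth projective curve over the algebraically closed field `k`, given by its function field
`K`, with a point `w`. -/
structure Curve (k : Type) [Field k] where
  K : Type
  [field : Field K]
  [algebra : Algebra k K]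
  ff : IsFunctionField k K
  w : Place k K

attribute [instance] Curve.field Curve.algebra

variable {k : Type} [Field k]

/-- A correspondence from the curve `A` to the curve `B`: a curve, given by its function field `H`, with
non-constant maps to `A` and to `B`, given by the embeddings `i` of `A.K` and `j` of `B.K` in `H`; the
first one is a Galois covering, with Galois group `G`: the elements of `G` are the automorphisms of `H`
fixing the elements of `i(A.K)`, and these are the only elements fixed by `G`. -/
structure Corr (A B : Curve k) where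
  H : Type
  [field : Field H]
  [algebra : Algebra k H]
  i : A.K →ₐ[k] H
  j : B.K →ₐ[k] H
  G : Finset (H ≃ₐ[k] H)
  mem_G : ∀ σ, σ ∈ G ↔ ∀ f, σ (i f) = i f
  galois : ∀ x, (∀ σ ∈ G, σ x = x) → ∃ f, x = i f

attribute [instance] Corr.field Corr.algebra

/-- The `H`-point `σ ∘ j` of the curve `B` has the value `b` at the point `u` of the curve of `H`. -/
def Corr.Value {A B : Curve k} (T : Corr A B) (u : Place k T.H) (σ : T.H ≃ₐ[k] T.H)
    (b : Place k B.K) : Prop := ∀ f, 0 < b.ord f → 0 < u.ord (σ (T.j f))

/-- The effective divisor `D` on `B` is the image `T(a)` of the point `a` of `A` under the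
correspondence `T`: for some point `u` of the curve of `H` above `a`, `D` is the sum over the elements
`σ` of the Galois group of the values `b σ` at `u` of the `H`-points `σ ∘ j` of `B`. -/
def Corr.Image {A B : Curve k} (T : Corr A B) (a : Place k A.K) (D : Multiset (Place k B.K)) :
    Prop :=
  ∃ (u : Place k T.H) (b : (T.H ≃ₐ[k] T.H) → Place k B.K), Spec u (.inr T.i) a ∧
    (∀ σ ∈ T.G, T.Value u σ (b σ)) ∧ D = T.G.val.map b

variable {I : Type}

/-- The points of the disjoint union of the curves `C i`. -/
abbrev Pt (C : I → Curve k) : Type := Σ i, Place k (C i).K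

/-- The product `J` of the Jacobians of the curves `C i`. -/
def Jac (C : I → Curve k) : Type := ∀ i, Pic0 k (C i).K

noncomputable instance (C : I → Curve k) : AddCommGroup (Jac C) := Pi.addCommGroup

/-- The inclusion of the Jacobian of `C i` in `J`. -/
noncomputable def Jac.of (C : I → Curve k) (i : I) (x : Pic0 k (C i).K) : Jac C :=
  Pi.single (M := fun i => Pic0 k (C i).K) i x

/-- The class of `D - ∑ N_i w_i` in `J` for a point `D` of the product of the symmetric powers
`C_i^(N_i)`; here `D` is given as a multiset of points of the disjoint union of the curves, `N_i` of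
them on `C_i`. -/
noncomputable def jac (C : I → Curve k) (D : Multiset (Pt C)) : Jac C :=
  (D.map fun a => Jac.of C a.1 (cl (C a.1).w {a.2})).sum

/-- The `H`-point `T` of one of the curves `C i` has the value `a` at the point `v` of the curve of
`H`. -/
def Val {C : I → Curve k} {H : Type} [Field H] [Algebra k H] (v : Place k H)
    (T : Σ i, Place k (C i).K ⊕ ((C i).K →ₐ[k] H)) (a : Pt C) : Prop :=
  ∃ b, a = ⟨T.1, b⟩ ∧ Spec v T.2 b

/-- Let `N` be a multiset of indices and `X_N` the product of the symmetric powers `C_i^(N_i)`, `N_i`
the multiplicity of `i` in `N`. The zero-cycle `c` on `X_N` is the push-forward of the divisor of a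
function `φ` on a curve: `H` is a function field of one variable over `k`, `T 0, ..., T (n-1)` are
`H`-points of the curves `C_i`, with indices forming `N`, and `c` is the sum over the places `v` of `H`
of `ord_v φ` times the point `T 0 (v) + ... + T (n-1) (v)` of `X_N`. -/
def IsPush {C : I → Curve k} (N : Multiset I) (c : Multiset (Pt C) →₀ ℤ) : Prop :=
  ∃ (H : Type) (_ : Field H) (_ : Algebra k H) (n : ℕ)
    (T : Fin n → Σ i, Place k (C i).K ⊕ ((C i).K →ₐ[k] H)) (φ : H) (S : Finset (Place k H))
    (p : Place k H → Fin n → Pt C),
    IsFunctionField k H ∧ φ ≠ 0 ∧ (∀ v, v.ord φ ≠ 0 → v ∈ S) ∧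
    (∀ v ∈ S, ∀ s, Val v (T s) (p v s)) ∧ N = Finset.univ.val.map (fun s => (T s).1) ∧
    c = ∑ v ∈ S, Finsupp.single (Finset.univ.val.map (p v)) (v.ord φ)

/-- The zero-cycle `c` on `X_N` is torsion in the Chow group of zero-cycles. -/
def IsTorsionCycle {C : I → Curve k} (N : Multiset I) (c : Multiset (Pt C) →₀ ℤ) : Prop :=
  ∃ n : ℕ, 0 < n ∧ n • c ∈ AddSubgroup.closure {c' | IsPush N c'}

/-- The group of maps from the curve `A` to `J` generated by the constant maps and the maps
`p ↦ T(p) - (deg T) w_i` for the correspondences `T` from `A` to the curves `C i`. -/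
noncomputable def Mor (A : Curve k) (C : I → Curve k) : AddSubgroup (Place k A.K → Jac C) :=
  AddSubgroup.closure ({g | ∃ v, ∀ p, g p = v} ∪
    {g | ∃ (i : I) (T : Corr A (C i)), ∀ p, ∃ D, T.Image p D ∧ g p = Jac.of C i (cl (C i).w D)})

/-- Some non-zero multiple of each element of `M` lies in `M₀`. -/
def InHull {G : Type} [AddCommGroup G] (M M₀ : AddSubgroup G) : Prop :=
  ∀ u ∈ M, ∃ q : ℤ, q ≠ 0 ∧ q • u ∈ M₀

/-- The iterated difference of the function `f` along the elements of a list. -/
def delta {G : Type} [AddCommGroup G] : List G → (G → ℚ) → G → ℚ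
  | [], f => f
  | v :: l, f => delta l fun u => f (u + v) - f u

/-- The sum of the `n_p f(p)` for a divisor `D = ∑ n_p p`. -/
noncomputable def wsum {X : Type} (D : X →₀ ℤ) (f : X → ℚ) : ℚ := D.sum fun p n => n * f p

/-- The `(d + 1)`-st differences of the function `f` on `M₀` at `0` (which form a symmetric
`(d + 1)`-additive form `B` on `M₀` if `f` is a polynomial function of degree `≤ d + 1`) are compatible
with linear equivalence: the sum of the `n_p B(g_0(p), ..., g_d(p))` is `0` for all curves `A`, all
principal divisors `∑ n_p p` on `A` and all maps `g_0, ..., g_d` in `Mor` from `A` to `J` with values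
`g_t(p) = x p t` in `M₀` at the `p` with `n_p ≠ 0`. -/
def Compatible {C : I → Curve k} (M₀ : AddSubgroup (Jac C)) (d : ℕ) (f : M₀ → ℚ) : Prop :=
  ∀ (A : Curve k) (g : Fin (d + 1) → Place k A.K → Jac C) (D : Div k A.K)
    (x : Place k A.K → Fin (d + 1) → M₀), (∀ t, g t ∈ Mor A C) → IsPrincipal k A.K D →
    (∀ p t, D p ≠ 0 → g t p = x p t) → wsum D (fun p => delta (List.ofFn (x p)) f 0) = 0

/-- `M` lies in the division hull of a group `M₀` with the following property: every polynomial
function of degree `≤ d + 1` on `M₀` which vanishes at all points of `M₀` of the form `D - ∑ N_i w_i`, `D`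
effective of degree `d = ∑ N_i`, and whose `(d + 1)`-st differences are compatible with linear
equivalence has degree `≤ d`. -/
def NoForm {C : I → Curve k} (M : AddSubgroup (Jac C)) (d : ℕ) : Prop :=
  ∃ M₀ : AddSubgroup (Jac C), InHull M M₀ ∧ ∀ f : M₀ → ℚ, IsPoly (d + 1) f →
    (∀ (D : Multiset (Pt C)) (u : M₀), D.card = d → u = jac C D → f u = 0) →
    Compatible M₀ d f → IsPoly d f

/-- `M` has rank one and there are `d + 2` effective divisors `E i` of degree `d` with classes `x i` in
`M`, distinct modulo torsion. -/
def RankOnePoints {C : I → Curve k} (M : AddSubgroup (Jac C)) (d : ℕ) : Prop :=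
  RankOne M ∧ ∃ (E : Fin (d + 2) → Multiset (Pt C)) (x : Fin (d + 2) → M),
    (∀ i, (E i).card = d) ∧ (∀ i, x i = jac C (E i)) ∧ DistinctModTorsion x

/-- The elements `x_1, ..., x_n` of `J` are linked: there are a curve `A`, maps `g_1, ..., g_n` in `Mor`
from `A` to `J`, a principal divisor `∑ n_p p` on `A` and integers `a_{tp}` with
`g_t(p) = a_{tp} x_t` for all `t` and all `p` with `n_p ≠ 0` such that `∑ n_p a_{1p} ... a_{np}` is not
`0`. -/
def Linked {C : I → Curve k} (n : ℕ) (x : Fin n → Jac C) : Prop :=
  ∃ (A : Curve k) (g : Fin n → Place k A.K → Jac C) (D : Div k A.K)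
    (a : Fin n → Place k A.K → ℤ), (∀ t, g t ∈ Mor A C) ∧ IsPrincipal k A.K D ∧
    (∀ t p, D p ≠ 0 → g t p = a t p • x t) ∧ wsum D (fun p => ∏ t, (a t p : ℚ)) ≠ 0

/-- The divisor given by a multiset of points. -/
noncomputable def dv {K : Type} [Field K] [Algebra k K] (E : Multiset (Place k K)) : Div k K :=
  (E.map fun a => Finsupp.single a 1).sum

/-- The elements `x_1, ..., x_n` of `J` are the values `g_t(P)` at a point `P` of a curve `A` of maps
`g_1, ..., g_n` in `Mor` from `A` to `J`, and there are effective divisors `E`, `F` on `A` with `E - F`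
principal (for instance two fibres of a map from `A` to the projective line) such that `P` lies in the
support of `E`, the degree of `E` is at most `n` and all `g_t` vanish at the points of `F`. -/
def FibreValues {C : I → Curve k} (n : ℕ) (x : Fin n → Jac C) : Prop :=
  ∃ (A : Curve k) (g : Fin n → Place k A.K → Jac C) (P : Place k A.K)
    (E F : Multiset (Place k A.K)), (∀ t, g t ∈ Mor A C) ∧ P ∈ E ∧ E.card ≤ n ∧
    IsPrincipal k A.K (dv E - dv F) ∧ ∀ t, g t P = x t ∧ ∀ Q ∈ F, g t Q = 0

/-- `M` lies in the division hull of the group generated by a set `S` such that among any `d + 1`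
elements of `S`, repetitions allowed, some are linked or values at a point of a fibre as above. For
instance `S` is the set of all `g(P)` for the maps `g` in `Mor` from a curve `A` to `J` which vanish at
the points of `F`, where `E` and `F` are fibres of a map of degree `d + 1` from `A` to the projective
line and `P` is a point of `E`. -/
def LinkedSpan {C : I → Curve k} (M : AddSubgroup (Jac C)) (d : ℕ) : Prop :=
  ∃ S : Set (Jac C), InHull M (AddSubgroup.closure S) ∧
    ∀ x : Fin (d + 1) → Jac C, (∀ t, x t ∈ S) → ∃ (n : ℕ) (c : Fin n → Fin (d + 1)),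
      Function.Injective c ∧ (Linked n (fun t => x (c t)) ∨ FibreValues n fun t => x (c t))

end Pool.Agent.LibEnd77
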