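import Pool.Agent.LibEnd77.S6
import Mathlib.RingTheory.MvPolynomial.Symmetric.NewtonIdentities
import Mathlib.RingTheory.Polynomial.Vieta

/-!
Nilpotency of the logarithms of the values at a point of a fibre of a map to the projective line.
-/

open scoped Classical Nat

namespace Pool.Agent.LibEnd77

open Pool.Agent.LibBH2

/-- elements of an algebra over the rationals whose power sums vanish are nilpotent -/
theorem pow_eq_zero_of_psum {R κ : Type} [CommRing R] [Algebra ℚ R] [Fintype κ] (L : κ → R)
    (h : ∀ r, 0 < r → ∑ i, L i ^ r = 0) (i : κ) : L i ^ Fintype.card κ = 0 := by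
  have he : ∀ j, 0 < j → (Finset.univ.val.map L).esymm j = 0 := by
    intro j hj
    have h1 := congrArg (MvPolynomial.aeval L) (MvPolynomial.mul_esymm_eq_sum κ ℚ j)
    rw [map_mul, map_mul, map_sum, Finset.sum_eq_zero, mul_zero, map_natCast,
      MvPolynomial.aeval_esymm_eq_multiset_esymm] at h1
    · have h2 : (j : ℚ) • (Finset.univ.val.map L).esymm j = 0 := by
        rw [Algebra.smul_def, map_natCast]
        exact h1
      rcases smul_eq_zero.1 h2 with h3 | h3
      · exact absurd h3 (by positivity)
      · exact h3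
    · intro a ha
      rw [Finset.mem_filter, Finset.HasAntidiagonal.mem_antidiagonal] at ha
      rw [map_mul, MvPolynomial.psum, map_sum]
      simp only [map_pow, MvPolynomial.aeval_X]
      rw [h _ (by omega), mul_zero]
  have h1 := congrArg (Polynomial.eval (L i))
    (Multiset.prod_X_sub_X_eq_sum_esymm (Finset.univ.val.map L))
  have h2 : Polynomial.eval (L i)
      (Multiset.map (fun t => Polynomial.X - Polynomial.C t) (Finset.univ.val.map L)).prod = 0 := by
    rw [Polynomial.eval_multiset_prod, Multiset.map_map, Multiset.map_map]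
    refine Multiset.prod_eq_zero ?_
    rw [Multiset.mem_map]
    exact ⟨i, Finset.mem_univ i, by simp⟩
  rw [h2, Polynomial.eval_finset_sum, Finset.sum_eq_single 0] at h1
  · have h3 : (Finset.univ.val.map L).esymm 0 = 1 := by simp [Multiset.esymm]
    rw [h3] at h1
    simpa using h1.symm
  · intro j _ hj
    rw [he j (Nat.pos_of_ne_zero hj)]
    simp
  · intro h3
    simp at h3

theorem pow_eq_zero_of_psum' {R : Type} [CommRing R] [Algebra ℚ R] (s : Multiset R)
    (h : ∀ r, 0 < r → (s.map fun x => x ^ r).sum = 0) {x : R} (hx : x ∈ s) : x ^ s.card = 0 := by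
  have h1 := pow_eq_zero_of_psum (fun z : s => (z : R)) (fun r hr => by
    have h2 : ∑ z : s, (z : R) ^ r =
      ((Finset.univ : Finset s).val.map fun z : s => (z : R) ^ r).sum := rfl
    rw [h2, Multiset.map_univ s fun x => x ^ r]
    exact h r hr) ⟨x, ⟨0, Multiset.count_pos.2 hx⟩⟩
  rw [Multiset.card_coe] at h1
  exact h1

variable {k : Type} [Field k] {I : Type} {C : I → Curve k}

/-- polarisation -/
theorem prod_eq_zero_of_pow {G : Type} [AddCommGroup G] (V : G →+ PowerSeries (ChM C)) (n : ℕ)
    (h : ∀ u, V u ^ n = 0) (l : List G) (hl : l.length = n) : (l.map V).prod = 0 := by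
  ext J
  rw [map_zero]
  refine eq_zero_of_dualM _ fun ℓ => ?_
  have h1 := delta_pow V l n (frm ℓ 1 J 1 1) 0 hl.ge
  rw [if_pos hl.symm] at h1
  simp only [h, map_zero] at h1
  rw [delta_zero, frm_apply, one_mul, mul_one, one_smul] at h1
  rcases mul_eq_zero.1 h1.symm with h2 | h2
  · exact absurd h2 (by positivity)
  · exact h2

theorem sum_dv {K R : Type} [Field K] [Algebra k K] [AddCommGroup R] (E F : Multiset (Place k K))
    (f : Place k K → R) :
    ((dv E - dv F).sum fun p n => n • f p) = (E.map f).sum - (F.map f).sum := by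
  let Φ : (Place k K →₀ ℤ) →+ R := Finsupp.liftAddHom fun p => (smulAddHom ℤ R).flip (f p)
  have h1 : ∀ D, Φ D = D.sum fun p n => n • f p := fun D => rfl
  have h2 : ∀ E : Multiset (Place k K), Φ (dv E) = (E.map f).sum := by
    intro E
    rw [dv, map_multiset_sum, Multiset.map_map]
    congr 1
    refine Multiset.map_congr rfl fun a _ => ?_
    rw [Function.comp_apply, h1,
      Finsupp.sum_single_index (h := fun p n => n • f p) (zero_smul ℤ (f a)), one_smul]
  rw [← h1, map_sub, h2, h2]

variable [Fintype I]

/-- the logarithms of the values at a point of `E` of maps which vanish on `F` are nilpotent if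
`E - F` is principal -/
theorem pow_LLM [IsAlgClosed k] (lam : I → ℚ) {A : Curve k} {P : Place k A.K}
    {E F : Multiset (Place k A.K)} (hP : P ∈ E)
    (hD : Pool.Agent.LibQC8.IsPrincipal k A.K (dv E - dv F)) (g : Place k A.K → Jac C)
    (hg : g ∈ Mor A C) (hF : ∀ Q ∈ F, g Q = 0) : LLM C lam (g P) ^ E.card = 0 := by
  rw [← Multiset.card_map (fun Q => LLM C lam (g Q)) E]
  refine pow_eq_zero_of_psum' _ (fun r hr => ?_) (Multiset.mem_map_of_mem _ hP)
  have h1 := rel_LLM lam (fun _ : Fin r => g) (fun _ => hg) _ hD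
  rw [sum_dv E F fun p => ∏ _t : Fin r, LLM C lam (g p)] at h1
  simp only [Finset.prod_const, Finset.card_univ, Fintype.card_fin] at h1
  have h2 : (F.map fun p => LLM C lam (g p) ^ r).sum = 0 := by
    refine Multiset.sum_eq_zero fun x hx => ?_
    rw [Multiset.mem_map] at hx
    obtain ⟨Q, hQ, rfl⟩ := hx
    rw [hF Q hQ, map_zero, zero_pow hr.ne']
  rw [h2, sub_zero] at h1
  rw [Multiset.map_map]
  exact h1

end Pool.Agent.LibEnd77
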