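import Pool.Agent.LibEnd77.R1

/-!
The maps from the Chow rings of the curves; push-forwards of divisors of functions.
-/

open scoped Classical
open MvPolynomial

namespace Pool.Agent.LibEnd77

open Pool.Agent.LibBH2
open Pool.Agent.LibQC8 (IsFunctionField Spec mono ι mono_cons mono_zero mono_eq ι_single
  clear_denominators ι_injective)

variable {k : Type} [Field k] {I : Type} {C : I → Curve k}

theorem rename_mono {σ τ : Type} (f : σ → τ) (D : Multiset σ) :
    rename f (mono D) = mono (D.map f) := by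
  rw [mono_eq, mono_eq, map_multiset_prod, Multiset.map_map, Multiset.map_map]
  congr 1
  refine Multiset.map_congr rfl fun a _ => ?_
  rw [Function.comp_apply, Function.comp_apply, rename_X]

/-- a point of `C_i` as a point of the disjoint union -/
def mkI (i : I) (a : Place k (C i).K) : Pt C := ⟨i, a⟩

theorem rename_mem (i : I) (x : MvPolynomial (Place k (C i).K) ℚ)
    (hx : x ∈ Pool.Agent.LibQC8.relIdeal k (C i).K) :
    rename (mkI (C := C) i) x ∈ relIdeal C := by
  change x ∈ Pool.Agent.LibQC8.relSpan k (C i).K at hx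
  change rename (mkI (C := C) i) x ∈ relSpan C
  induction hx using Submodule.span_induction with
  | mem x hx =>
    obtain ⟨c, ⟨n, H, _, _, T, φ, S, p, hH, hφ, hS, hp, rfl⟩, rfl⟩ := hx
    refine Submodule.subset_span ⟨∑ v ∈ S, Finsupp.single
      (Finset.univ.val.map (fun s : Fin n => (⟨i, p v s⟩ : Pt C))) (v.ord φ),
      ⟨_, H, _, _, n, fun s => ⟨i, T s⟩, φ, S, fun v s => ⟨i, p v s⟩, hH, hφ, hS,
        fun v hv s => ⟨p v s, rfl, hp v hv s⟩, rfl, rfl⟩, ?_⟩
    rw [map_sum, map_sum, map_sum]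
    refine Finset.sum_congr rfl fun v _ => ?_
    rw [ι_single, ι_single, map_smul, rename_mono, Multiset.map_map]
    rfl
  | zero => rw [map_zero]; exact zero_mem _
  | add x y _ _ hx hy => rw [map_add]; exact add_mem hx hy
  | smul q x _ hx => rw [map_smul]; exact Submodule.smul_mem _ _ hx

variable (C) in
/-- the homomorphism from the Chow ring of the curve `C_i` -/
noncomputable def renameI (i : I) :
    MvPolynomial (Place k (C i).K) ℚ →+* MvPolynomial (Pt C) ℚ :=
  (rename (R := ℚ) (mkI (C := C) i)).toRingHom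

theorem renameI_apply (i : I) (x : MvPolynomial (Place k (C i).K) ℚ) :
    renameI C i x = rename (mkI (C := C) i) x := rfl

theorem renameI_mem (i : I) (x : MvPolynomial (Place k (C i).K) ℚ)
    (hx : x ∈ Pool.Agent.LibQC8.relIdeal k (C i).K) :
    ((Ideal.Quotient.mk (relIdeal C)).comp (renameI C i)) x = 0 := by
  rw [RingHom.comp_apply, renameI_apply]
  exact Ideal.Quotient.eq_zero_iff_mem.2 (rename_mem i x hx)

variable (C) in
/-- the homomorphism from the Chow ring of the curve `C_i` -/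
noncomputable def ρ (i : I) : Pool.Agent.LibQC8.Ch k (C i).K →+* ChM C :=
  Ideal.Quotient.lift (Pool.Agent.LibQC8.relIdeal k (C i).K)
    ((Ideal.Quotient.mk (relIdeal C)).comp (renameI C i)) (renameI_mem i)

theorem ρ_y (i : I) (a : Place k (C i).K) : ρ C i (Pool.Agent.LibQC8.y a) = yM ⟨i, a⟩ := by
  rw [ρ, Pool.Agent.LibQC8.y, Ideal.Quotient.lift_mk, yM, RingHom.comp_apply, renameI_apply,
    rename_X]
  rfl

theorem mk_monoM (D : Multiset (Pt C)) :
    Ideal.Quotient.mk (relIdeal C) (mono D) = (D.map yM).prod := by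
  rw [mono_eq, map_multiset_prod, Multiset.map_map]
  rfl

theorem mk_smulM (q : ℚ) (x : MvPolynomial (Pt C) ℚ) :
    Ideal.Quotient.mk (relIdeal C) (q • x) = q • Ideal.Quotient.mk (relIdeal C) x := rfl

/-- the push-forward of the divisor of a function, in the Chow ring -/
theorem push_rel {M : Type} [Field M] [Algebra k M] (hM : IsFunctionField k M) (φ : M)
    (hφ : φ ≠ 0) (S : Finset (Place k M)) (hS : ∀ v : Place k M, v.ord φ ≠ 0 → v ∈ S) {κ : Type}
    [Fintype κ] (c : κ → I) (τ : ∀ t, (C (c t)).K →ₐ[k] M) (e : κ → ℕ)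
    (p : Place k M → ∀ t, Place k (C (c t)).K) (hp : ∀ v ∈ S, ∀ t, Spec v (.inr (τ t)) (p v t)) :
    ∑ v ∈ S, v.ord φ • ∏ t, (yM ⟨c t, p v t⟩ : ChM C) ^ e t = 0 := by
  let eqv := Fintype.equivFin (Σ t, Fin (e t))
  set n := Fintype.card (Σ t, Fin (e t)) with hn
  set z : Multiset (Pt C) →₀ ℤ := ∑ v ∈ S, Finsupp.single
    (Finset.univ.val.map (fun i : Fin n => (⟨c (eqv.symm i).1, p v (eqv.symm i).1⟩ : Pt C)))
      (v.ord φ) with hz
  have hpush : IsPush (Finset.univ.val.map fun i : Fin n => c (eqv.symm i).1) z :=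
    ⟨M, _, _, n, fun i => ⟨c (eqv.symm i).1, .inr (τ (eqv.symm i).1)⟩, φ, S,
      fun v i => ⟨c (eqv.symm i).1, p v (eqv.symm i).1⟩, hM, hφ, hS,
      fun v hv i => ⟨_, rfl, hp v hv _⟩, rfl, rfl⟩
  have hmem : ι z ∈ relIdeal C := Submodule.subset_span ⟨z, ⟨_, hpush⟩, rfl⟩
  have h0 : Ideal.Quotient.mk (relIdeal C) (ι z) = 0 := Ideal.Quotient.eq_zero_iff_mem.2 hmem
  rw [hz, map_sum, map_sum] at h0
  rw [← h0]
  refine Finset.sum_congr rfl fun v _ => ?_
  rw [ι_single, mk_smulM, mk_monoM, Multiset.map_map, Int.cast_smul_eq_zsmul]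
  congr 1
  have h1 : ((Finset.univ : Finset (Fin n)).val.map
      ((yM : Pt C → ChM C) ∘ fun i => ⟨c (eqv.symm i).1, p v (eqv.symm i).1⟩)).prod =
      ∏ i : Fin n, (yM ⟨c (eqv.symm i).1, p v (eqv.symm i).1⟩ : ChM C) := rfl
  rw [h1, Equiv.prod_comp eqv.symm
    (fun x : (Σ t, Fin (e t)) => (yM ⟨c x.1, p v x.1⟩ : ChM C)), Fintype.prod_sigma]
  refine Finset.prod_congr rfl fun t _ => ?_
  simp

end Pool.Agent.LibEnd77
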