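import Pool.Agent.LibEnd77.V5
import Pool.Agent.LibEnd77.R2

/-!
Images of points under correspondences, common extensions.
-/

open scoped Classical

namespace Pool.Agent.LibEnd77

open Pool.Agent.LibBH2
open Pool.Agent.LibQC8 (IsFunctionField Spec)

section

variable {k : Type} [Field k] {A : Curve k}

/-- a common extension -/
theorem exists_compositum {κ : Type} [Finite κ] {B : κ → Curve k} (T : ∀ t, Corr A (B t)) :
    ∃ (M : Type) (_ : Field M) (_ : Algebra k M) (_ : Algebra A.K M) (_ : IsScalarTower k A.K M),
      FiniteDimensional A.K M ∧ Algebra.IsSeparable A.K M ∧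
      ∃ hh : ∀ t, (T t).H →ₐ[k] M, ∀ t x, hh t ((T t).i x) = algebraMap A.K M x := by
  let e : ∀ t, (T t).H →ₐ[A.K] AlgebraicClosure A.K := fun t => IsAlgClosed.lift
  let M : IntermediateField A.K (AlgebraicClosure A.K) := ⨆ t, (e t).fieldRange
  have h1 : ∀ t, FiniteDimensional A.K (e t).fieldRange := fun t =>
    (AlgEquiv.ofInjectiveField (e t)).toLinearEquiv.finiteDimensional
  have h2 : ∀ t, Algebra.IsSeparable A.K (e t).fieldRange := fun t =>
    AlgEquiv.Algebra.isSeparable (AlgEquiv.ofInjectiveField (e t))
  have h3 : FiniteDimensional A.K M := IntermediateField.finiteDimensional_iSup_of_finite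
  have h4 : Algebra.IsSeparable A.K M := inferInstance
  refine ⟨M, inferInstance, inferInstance, inferInstance, inferInstance, h3, h4,
    fun t => ((IntermediateField.inclusion
      (le_iSup (fun t => (e t).fieldRange) t)).comp (e t).rangeRestrict).restrictScalars k,
    fun t x => ?_⟩
  apply Subtype.ext
  show e t ((T t).i x) = algebraMap A.K (AlgebraicClosure A.K) x
  exact (e t).commutes x

variable {B : Curve k}

/-- the image of a point -/
noncomputable def Corr.img (T : Corr A B) (a : Place k A.K) : Multiset (Place k B.K) :=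
  if h : ∃ D, T.Image a D then h.choose else 0

theorem Corr.img_spec [IsAlgClosed k] (T : Corr A B) (a : Place k A.K) :
    T.Image a (T.img a) := by
  have h1 := T.exists_image a
  rw [Corr.img, dif_pos h1]
  exact h1.choose_spec

theorem Corr.img_unique [IsAlgClosed k] (T : Corr A B) {a : Place k A.K}
    {D : Multiset (Place k B.K)} (hD : T.Image a D) : D = T.img a := by
  obtain ⟨u, b, hu, hb, hE⟩ := T.img_spec a
  rw [hE]
  exact T.image_eq hD u hu b hb

/-- the power sums of the image of a point in the Chow ring of the curve -/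
noncomputable def Corr.pw (T : Corr A B) (e : ℕ) (a : Place k A.K) :
    Pool.Agent.LibQC8.Ch k B.K := ((T.img a).map fun b => Pool.Agent.LibQC8.y b ^ e).sum

end

end Pool.Agent.LibEnd77
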