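import Pool.Agent.LibEnd77.K1

/-!
The relations between the images of points under several correspondences.
-/

open scoped Classical

namespace Pool.Agent.LibEnd77

open Pool.Agent.LibBH2
open Pool.Agent.LibQC8 (IsFunctionField Spec Div IsPrincipal y)

variable {k : Type} [Field k] [IsAlgClosed k] {A : Curve k} {I : Type} {C : I → Curve k}

omit [IsAlgClosed k] in
theorem eq_zero_of_nsmulM (n : ℕ) (hn : 0 < n) (x : ChM C) (h : n • x = 0) : x = 0 := by
  rw [← Nat.cast_smul_eq_nsmul ℚ n] at h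
  rcases smul_eq_zero.1 h with h | h
  · exact absurd h (by positivity)
  · exact h

/-- the product relations: for a principal divisor `∑ n_a a` on the curve `C'` and correspondences
`T_t`, the sum of the `n_a` times the products of the power sums of the `T_t(a)` vanishes -/
theorem product_rel {κ : Type} [Fintype κ] (c : κ → I) (T : ∀ t, Corr A (C (c t))) (e : κ → ℕ)
    (D : Div k A.K) (hD : IsPrincipal k A.K D) :
    (D.sum fun a n => n • ∏ t, ρ C (c t) ((T t).pw (e t) a)) = 0 := by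
  obtain ⟨φ, hφ, hDφ⟩ := hD
  obtain ⟨M, _, _, _, _, hfin, hsep, hh, hhi⟩ := exists_compositum T
  have hM : IsFunctionField k M :=
    isFunctionField_of_finite (IsScalarTower.toAlgHom k A.K M) (RingHom.finite_algebraMap.2 hfin) A.ff
  set J : A.K →+* M := algebraMap A.K M with hJ
  have hJφ : J φ ≠ 0 := (map_ne_zero (algebraMap A.K M)).2 hφ
  choose S hSne hS hsum using fun a : Place k A.K => sum_formula A.ff hM a
  -- the place below
  have hbelow : ∀ w : Place k M, ∃ a : Place k A.K, w ∈ S a := by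
    intro w
    obtain ⟨a, ha⟩ := exists_spec A.ff hM (IsScalarTower.toAlgHom k A.K M) w
    exact ⟨a, (hS a w).2 ha⟩
  -- the values of the conjugates
  have hval : ∀ (w : Place k M) (t : κ) (σ : (T t).H ≃ₐ[k] (T t).H),
      ∃ b : Place k (C (c t)).K, ∀ f : (C (c t)).K, 0 < b.ord f →
        0 < w.ord (hh t (σ ((T t).j f))) := fun w t σ =>
    exists_spec (C (c t)).ff hM ((hh t).comp (σ.toAlgHom.comp (T t).j)) w
  choose b hb using hval
  have himg : ∀ (a : Place k A.K) (w : Place k M), w ∈ S a → ∀ t,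
      (T t).img a = (T t).G.val.map (b w t) := by
    intro a w hw t
    obtain ⟨u, hu⟩ := exists_spec (T t).isFunctionField hM (hh t) w
    obtain ⟨eu, heu, hu'⟩ := spec_ord hu
    refine (T t).image_eq ((T t).img_spec a) u ?_ (b w t) ?_
    · intro f hf
      have h1 := (hS a w).1 hw f hf
      rw [← hhi t f, hu'] at h1
      exact (mul_pos_iff_of_pos_left heu).1 h1
    · intro σ _ f hf
      have h1 := hb w t σ f hf
      rw [hu'] at h1
      exact (mul_pos_iff_of_pos_left heu).1 h1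
  have hpw : ∀ (a : Place k A.K) (w : Place k M), w ∈ S a → ∀ t,
      ρ C (c t) ((T t).pw (e t) a) = ∑ σ ∈ (T t).G, (yM ⟨c t, b w t σ⟩ : ChM C) ^ e t := by
    intro a w hw t
    have h1 : (T t).pw (e t) a = ∑ σ ∈ (T t).G, (y (b w t σ) : Pool.Agent.LibQC8.Ch k (C (c t)).K) ^ e t := by
      rw [Corr.pw, himg a w hw t, Multiset.map_map]
      rfl
    rw [h1, map_sum]
    exact Finset.sum_congr rfl fun σ _ => by rw [map_pow, ρ_y]
  -- the places above the support
  let SS : Finset (Place k M) := D.support.biUnion S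
  have hSS : ∀ w : Place k M, w.ord (J φ) ≠ 0 → w ∈ SS := by
    intro w hw
    obtain ⟨a, ha⟩ := hbelow w
    refine Finset.mem_biUnion.2 ⟨a, ?_, ha⟩
    rw [Finsupp.mem_support_iff, hDφ a]
    intro h0
    obtain ⟨e', -, he'⟩ := spec_ord (i := IsScalarTower.toAlgHom k A.K M) ((hS a w).1 ha)
    have h1 := he' φ
    rw [h0, mul_zero] at h1
    exact hw h1
  have hpush : ∑ w ∈ SS, w.ord (J φ) • ∏ t, ∑ σ ∈ (T t).G, (yM ⟨c t, b w t σ⟩ : ChM C) ^ e t = 0 := by
    have h1 : ∀ w ∈ SS, w.ord (J φ) • ∏ t, ∑ σ ∈ (T t).G, (yM ⟨c t, b w t σ⟩ : ChM C) ^ e t =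
        ∑ s ∈ Fintype.piFinset fun t => (T t).G,
          w.ord (J φ) • ∏ t, (yM ⟨c t, b w t (s t)⟩ : ChM C) ^ e t := by
      intro w _
      rw [← Finset.smul_sum, Finset.prod_univ_sum]
    rw [Finset.sum_congr rfl h1, Finset.sum_comm]
    refine Finset.sum_eq_zero fun s _ => ?_
    exact push_rel hM (J φ) hJφ SS hSS c
      (fun t => (hh t).comp ((s t).toAlgHom.comp (T t).j)) e
      (fun w t => b w t (s t)) (fun w _ t => hb w t (s t))
  have hdisj : ∀ a ∈ D.support, ∀ a' ∈ D.support, a ≠ a' → Disjoint (S a) (S a') := by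
    intro a _ a' _ hne
    rw [Finset.disjoint_left]
    intro w hw hw'
    exact hne (spec_unique (i := IsScalarTower.toAlgHom k A.K M) ((hS a w).1 hw) ((hS a' w).1 hw'))
  rw [Finset.sum_biUnion (fun a ha a' ha' hne => hdisj a ha a' ha' hne)] at hpush
  have h2 : ∀ a ∈ D.support,
      ∑ w ∈ S a, w.ord (J φ) • ∏ t, ∑ σ ∈ (T t).G, (yM ⟨c t, b w t σ⟩ : ChM C) ^ e t =
        (Module.finrank A.K M : ℕ) • (D a • ∏ t, ρ C (c t) ((T t).pw (e t) a)) := by
    intro a _
    have h3 : ∀ w ∈ S a, w.ord (J φ) • ∏ t, ∑ σ ∈ (T t).G, (yM ⟨c t, b w t σ⟩ : ChM C) ^ e t =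
        w.ord (J φ) • ∏ t, ρ C (c t) ((T t).pw (e t) a) := by
      intro w hw
      congr 1
      exact Finset.prod_congr rfl fun t _ => (hpw a w hw t).symm
    rw [Finset.sum_congr rfl h3, ← Finset.sum_smul, hsum a φ, hDφ a, mul_smul, natCast_zsmul]
  rw [Finset.sum_congr rfl h2, ← Finset.smul_sum] at hpush
  exact eq_zero_of_nsmulM _ Module.finrank_pos _ hpush

end Pool.Agent.LibEnd77
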