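import Pool.Agent.LibEnd77.Defs
import Pool.Agent.LibQC8.Main

/-!
The ring of zero-cycles on the products of symmetric powers of several curves.
-/

open scoped Classical
open MvPolynomial

namespace Pool.Agent.LibEnd77

open Pool.Agent.LibBH2
open Pool.Agent.LibQC8 (IsFunctionField Spec mono ι mono_cons mono_zero mono_eq ι_single
  clear_denominators ι_injective)

variable {k : Type} [Field k] {I : Type} (C : I → Curve k)

/-- the cycles rationally equivalent to zero -/
noncomputable def relSpan : Submodule ℚ (MvPolynomial (Pt C) ℚ) :=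
  Submodule.span ℚ (ι '' {c | ∃ N, IsPush N c})

variable {C}

theorem isPush_cons {N : Multiset I} {c : Multiset (Pt C) →₀ ℤ} (h : IsPush N c) (a : Pt C) :
    ∃ c', IsPush (a.1 ::ₘ N) c' ∧ ι c' = X a * ι c := by
  obtain ⟨H, _, _, n, T, φ, S, p, hH, hφ, hS, hp, hN, rfl⟩ := h
  refine ⟨∑ v ∈ S, Finsupp.single (Finset.univ.val.map (Fin.cons a (p v) : Fin (n + 1) → _))
    (v.ord φ), ⟨H, _, _, n + 1,
      Fin.cons (⟨a.1, .inl a.2⟩ : Σ i, Place k (C i).K ⊕ ((C i).K →ₐ[k] H)) T, φ, S,
      fun v => Fin.cons a (p v), hH, hφ, hS, ?_, ?_, rfl⟩, ?_⟩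
  · intro v hv i
    refine Fin.cases ?_ (fun i => ?_) i
    · exact ⟨a.2, rfl, rfl⟩
    · simpa using hp v hv i
  · rw [hN, Fin.univ_succ]
    simp only [Finset.cons_val, Multiset.map_cons, Fin.cons_zero, Finset.map_val, Multiset.map_map]
    rfl
  · rw [map_sum, map_sum, Finset.mul_sum]
    refine Finset.sum_congr rfl fun v _ => ?_
    rw [ι_single, ι_single, mul_smul_comm, ← mono_cons]
    congr 2
    rw [Fin.univ_succ]
    simp

theorem X_mul_mem (a : Pt C) (x : MvPolynomial (Pt C) ℚ) (hx : x ∈ relSpan C) :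
    X a * x ∈ relSpan C := by
  induction hx using Submodule.span_induction with
  | mem x hx =>
    obtain ⟨c, ⟨N, hc⟩, rfl⟩ := hx
    obtain ⟨c', hc', e⟩ := isPush_cons hc a
    rw [← e]
    exact Submodule.subset_span ⟨c', ⟨_, hc'⟩, rfl⟩
  | zero => simp
  | add x y _ _ hx hy => rw [mul_add]; exact add_mem hx hy
  | smul q x _ hx => rw [mul_smul_comm]; exact Submodule.smul_mem _ _ hx

theorem mul_mem_relSpan (r x : MvPolynomial (Pt C) ℚ) (hx : x ∈ relSpan C) :
    r * x ∈ relSpan C := by
  induction r using MvPolynomial.induction_on with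
  | C q => rw [← smul_eq_C_mul]; exact Submodule.smul_mem _ _ hx
  | add p q hp hq => rw [add_mul]; exact add_mem hp hq
  | mul_X p a hp =>
    rw [mul_comm p, mul_assoc]
    exact X_mul_mem a _ hp

variable (C) in
/-- the ideal of cycles rationally equivalent to zero -/
noncomputable def relIdeal : Ideal (MvPolynomial (Pt C) ℚ) where
  carrier := relSpan C
  zero_mem' := zero_mem _
  add_mem' := fun h h' => add_mem h h'
  smul_mem' := fun r x hx => mul_mem_relSpan r x hx

variable (C) in
/-- the Chow ring of zero-cycles -/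
abbrev ChM : Type := MvPolynomial (Pt C) ℚ ⧸ relIdeal C

/-- the class of a point -/
noncomputable def yM (a : Pt C) : ChM C := Ideal.Quotient.mk (relIdeal C) (X a)

theorem type_of_isPush {N : Multiset I} {c : Multiset (Pt C) →₀ ℤ} (h : IsPush N c) :
    ∀ D ∈ c.support, D.map Sigma.fst = N := by
  obtain ⟨H, _, _, n, T, φ, S, p, hH, hφ, hS, hp, rfl, rfl⟩ := h
  intro D hD
  have := Finsupp.support_finsetSum hD
  rw [Finset.mem_biUnion] at this
  obtain ⟨v, hv, hvD⟩ := this
  have := Finsupp.support_single_subset hvD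
  rw [Finset.mem_singleton] at this
  rw [this, Multiset.map_map]
  refine Multiset.map_congr rfl fun s _ => ?_
  obtain ⟨b, hb, -⟩ := hp v hv s
  rw [Function.comp_apply, hb]

/-- a cycle on `X_N` in the ideal is torsion -/
theorem torsion_of_mem {N : Multiset I} {c : Multiset (Pt C) →₀ ℤ}
    (hN : ∀ D ∈ c.support, D.map Sigma.fst = N) (h : ι c ∈ relIdeal C) :
    IsTorsionCycle N c := by
  obtain ⟨n, hn, z, hz, e⟩ := clear_denominators {c' | ∃ N, IsPush N c'} (ι c) h
  refine ⟨n, hn, ?_⟩
  have h1 : n • c = z := ι_injective (by rw [map_nsmul, ← e, ← Nat.cast_smul_eq_nsmul ℚ n])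
  have h2 : ∀ z ∈ AddSubgroup.closure {c' : Multiset (Pt C) →₀ ℤ | ∃ N, IsPush N c'},
      Finsupp.filterAddHom (fun D : Multiset (Pt C) => D.map Sigma.fst = N) z ∈
      AddSubgroup.closure {c' : Multiset (Pt C) →₀ ℤ | IsPush N c'} := by
    intro z hz
    induction hz using AddSubgroup.closure_induction with
    | mem x hx =>
      obtain ⟨N', hx⟩ := hx
      have h3 := type_of_isPush hx
      by_cases hNN : N' = N
      · subst hNN
        have h4 : Finsupp.filterAddHom (fun D : Multiset (Pt C) => D.map Sigma.fst = N') x = x :=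
          (Finsupp.filter_eq_self_iff _ _).2 fun D hD => h3 D (Finsupp.mem_support_iff.2 hD)
        rw [h4]
        exact AddSubgroup.subset_closure hx
      · have h4 : Finsupp.filterAddHom (fun D : Multiset (Pt C) => D.map Sigma.fst = N) x = 0 :=
          (Finsupp.filter_eq_zero_iff _ _).2 fun D hD => by
            by_contra hne
            exact hNN ((h3 D (Finsupp.mem_support_iff.2 hne)).symm.trans hD)
        rw [h4]
        exact zero_mem _
    | zero => rw [map_zero]; exact zero_mem _
    | add x y _ _ hx hy => rw [map_add]; exact add_mem hx hy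
    | neg x _ hx => rw [map_neg]; exact neg_mem hx
  have h5 : Finsupp.filterAddHom (fun D : Multiset (Pt C) => D.map Sigma.fst = N) (n • c) =
      n • c := by
    refine (Finsupp.filter_eq_self_iff _ _).2 fun D hD => hN D ?_
    rw [Finsupp.mem_support_iff]
    intro h0
    apply hD
    rw [Finsupp.smul_apply, h0, smul_zero]
  rw [← h5, h1]
  exact h2 z hz

end Pool.Agent.LibEnd77
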