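import Pool.Agent.LibQC8.Poly
import Pool.Agent.LibEnd77.Defs

/-!
Iterated differences; exponentials of additive families of power series.
-/

open scoped Classical Nat

namespace Pool.Agent.LibEnd77

open Pool.Agent.LibBH2 Pool.Agent.LibQC8

section delta

variable {G : Type} [AddCommGroup G]

theorem delta_zero (l : List G) (u : G) : delta l (fun _ => (0 : ℚ)) u = 0 := by
  induction l with
  | nil => rfl
  | cons v l ih =>
    show delta l (fun _ => (0 : ℚ) - 0) u = 0
    rw [sub_zero]
    exact ih

theorem delta_add (l : List G) (f g : G → ℚ) (u : G) :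
    delta l (fun u => f u + g u) u = delta l f u + delta l g u := by
  induction l generalizing f g with
  | nil => rfl
  | cons v l ih =>
    show delta l (fun u => (f (u + v) + g (u + v)) - (f u + g u)) u =
      delta l (fun u => f (u + v) - f u) u + delta l (fun u => g (u + v) - g u) u
    rw [← ih]
    congr 1
    funext u
    ring

theorem delta_mul_left (l : List G) (c : ℚ) (f : G → ℚ) (u : G) :
    delta l (fun u => c * f u) u = c * delta l f u := by
  induction l generalizing f with
  | nil => rfl
  | cons v l ih =>
    show delta l (fun u => c * f (u + v) - c * f u) u = c * delta l (fun u => f (u + v) - f u) u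
    rw [← ih]
    congr 1
    funext u
    ring

theorem delta_sum {κ : Type} (s : Finset κ) (f : κ → G → ℚ) (l : List G) (u : G) :
    delta l (fun u => ∑ i ∈ s, f i u) u = ∑ i ∈ s, delta l (f i) u := by
  induction s using Finset.induction_on with
  | empty => simpa using delta_zero l u
  | insert i s hi ih => simp only [Finset.sum_insert hi, delta_add, ih]

theorem isPoly_of_delta {d : ℕ} {f : G → ℚ}
    (h : ∀ (l : List G), l.length = d + 1 → ∀ u, delta l f u = 0) : IsPoly d f := by
  induction d generalizing f with
  | zero =>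
    intro u v
    have h1 : f (u + v) - f u = 0 := h [v] rfl u
    linarith
  | succ d ih =>
    intro v
    exact ih fun l hl u => h (v :: l) (by rw [List.length_cons, hl]) u

theorem delta_of_isPoly {d : ℕ} {f : G → ℚ} (hf : IsPoly d f) (l : List G)
    (hl : l.length = d + 1) (u : G) : delta l f u = 0 := by
  induction d generalizing f l u with
  | zero =>
    obtain ⟨v, rfl⟩ := List.length_eq_one_iff.1 hl
    show f (u + v) - f u = 0
    rw [hf u v, sub_self]
  | succ d ih =>
    rcases l with _ | ⟨v, l⟩
    · simp at hl
    · exact ih (hf v) l (by simpa using hl) u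

variable {R : Type} [CommRing R] (V : G →+ R)

theorem pow_diff (r : ℕ) (c : R →+ ℚ) (u v : G) : c (V (u + v) ^ r) - c (V u ^ r) =
    ∑ i ∈ Finset.range r, c (V u ^ i * (V v ^ (r - i) * (r.choose i : R))) := by
  rw [map_add, add_pow, Finset.sum_range_succ, map_add, map_sum]
  simp only [Nat.sub_self, pow_zero, mul_one, Nat.choose_self, Nat.cast_one, add_sub_cancel_right,
    mul_assoc]

theorem pow_isPoly (r : ℕ) (c : R →+ ℚ) : IsPoly r (fun u => c (V u ^ r)) := by
  induction r using Nat.strong_induction_on generalizing c with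
  | _ r ih =>
    rcases r with _ | r
    · intro u v
      simp only [pow_zero]
    · intro v
      have h1 : IsPoly r (fun u => ∑ i ∈ Finset.range (r + 1),
          c (V u ^ i * (V v ^ (r + 1 - i) * ((r + 1).choose i : R)))) := by
        refine IsPoly.sum _ _ fun i hi => ?_
        rw [Finset.mem_range] at hi
        exact (ih i hi (c.comp (AddMonoidHom.mulRight (V v ^ (r + 1 - i) *
          ((r + 1).choose i : R))))).mono (by omega)
      refine (congrArg (IsPoly r) ?_).mp h1
      funext u
      exact (pow_diff V (r + 1) c u v).symm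

theorem delta_pow (l : List G) (r : ℕ) (c : R →+ ℚ) (u : G) (hr : r ≤ l.length) :
    delta l (fun u => c (V u ^ r)) u =
      if r = l.length then (r ! : ℚ) * c ((l.map V).prod) else 0 := by
  induction l generalizing r c with
  | nil =>
    obtain rfl : r = 0 := by simpa using hr
    simp [delta]
  | cons v l ih =>
    rw [List.length_cons] at hr
    have h1 : delta (v :: l) (fun u => c (V u ^ r)) u = ∑ i ∈ Finset.range r,
        delta l (fun u => (c.comp (AddMonoidHom.mulRight (V v ^ (r - i) * (r.choose i : R))))
          (V u ^ i)) u := by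
      rw [← delta_sum]
      show delta l (fun u => c (V (u + v) ^ r) - c (V u ^ r)) u = _
      congr 1
      funext u
      exact pow_diff V r c u v
    rw [h1, Finset.sum_congr rfl fun i hi => ih i _ (by rw [Finset.mem_range] at hi; omega)]
    rw [List.length_cons]
    by_cases h : r = l.length + 1
    · rw [if_pos h, Finset.sum_eq_single l.length]
      · rw [if_pos rfl, h, Nat.factorial_succ, Nat.choose_succ_self_right, Nat.add_sub_cancel_left,
          pow_one, List.map_cons, List.prod_cons]
        have h2 : (c.comp (AddMonoidHom.mulRight (V v * ((l.length + 1 : ℕ) : R))))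
            ((l.map V).prod) = ((l.length + 1 : ℕ) : ℚ) * c (V v * (l.map V).prod) := by
          show c ((l.map V).prod * (V v * ((l.length + 1 : ℕ) : R))) = _
          rw [show (l.map V).prod * (V v * ((l.length + 1 : ℕ) : R)) =
            (l.length + 1) • (V v * (l.map V).prod) by rw [nsmul_eq_mul]; ring, map_nsmul,
            nsmul_eq_mul]
        rw [h2]
        push_cast
        ring
      · intro i _ hi
        rw [if_neg hi]
      · intro h3
        exact absurd (Finset.mem_range.2 (by omega)) h3
    · rw [if_neg h]
      refine Finset.sum_eq_zero fun i hi => ?_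
      rw [Finset.mem_range] at hi
      rw [if_neg (by omega)]

end delta

section exp

variable {A : Type} [CommRing A] [Algebra ℚ A]

open PowerSeries

theorem ord_pow {V : PowerSeries A} (hV : coeff 0 V = 0) (r : ℕ) : Ord r (V ^ r) := by
  induction r with
  | zero => intro i hi; omega
  | succ r ih =>
    rw [pow_succ]
    exact ih.mul fun i hi => by
      obtain rfl : i = 0 := by omega
      exact hV

theorem ratsmul_cancel {x y : A} (n : ℕ) (h : ((n : ℚ) + 1) • x = ((n : ℚ) + 1) • y) : x = y := by
  have h0 : ((n : ℚ) + 1) ≠ 0 := by positivity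
  have := congrArg (fun z => ((n : ℚ) + 1)⁻¹ • z) h
  simpa [smul_smul, inv_mul_cancel₀ h0] using this

/-- the exponential of a power series -/
theorem exp_coeff {V E : PowerSeries A} (hV : coeff 0 V = 0) (hE : coeff 0 E = 1)
    (hd : derivative A E = derivative A V * E) (R J : ℕ) (hJ : J ≤ R) :
    coeff J E = ∑ r ∈ Finset.range (R + 1), ((r ! : ℚ)⁻¹) • coeff J (V ^ r) := by
  set G : PowerSeries A := ∑ r ∈ Finset.range (R + 1), ((r ! : ℚ)⁻¹) • V ^ r with hG
  have hGc : ∀ J, coeff J G = ∑ r ∈ Finset.range (R + 1), ((r ! : ℚ)⁻¹) • coeff J (V ^ r) := by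
    intro J
    rw [hG, map_sum]
    rfl
  rw [← hGc]
  have hGd : derivative A G = derivative A V * G -
      ((R ! : ℚ)⁻¹) • (derivative A V * V ^ R) := by
    have h1 : derivative A G = ∑ r ∈ Finset.range R,
        ((r ! : ℚ)⁻¹) • (derivative A V * V ^ r) := by
      rw [hG, map_sum, Finset.sum_range_succ']
      have h2 : derivative A (((0 ! : ℚ)⁻¹) • V ^ 0) = 0 := by
        simp
      rw [h2, add_zero]
      refine Finset.sum_congr rfl fun r _ => ?_
      have h3 : derivative A (((((r + 1) !) : ℚ)⁻¹) • V ^ (r + 1)) =
          ((((r + 1) !) : ℚ)⁻¹) • derivative A (V ^ (r + 1)) := by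
        ext n
        rw [coeff_derivative]
        show (((((r + 1) !) : ℚ)⁻¹) • coeff (n + 1) (V ^ (r + 1))) * ((n : A) + 1) =
          ((((r + 1) !) : ℚ)⁻¹) • coeff n (derivative A (V ^ (r + 1)))
        rw [coeff_derivative, smul_mul_assoc]
      rw [h3, Derivation.leibniz_pow, Nat.add_sub_cancel, smul_eq_mul, ← Nat.cast_smul_eq_nsmul ℚ,
        smul_smul, Nat.factorial_succ, mul_comm (V ^ r)]
      congr 1
      push_cast
      have hr : ((r : ℚ) + 1) ≠ 0 := by positivity
      field_simp
    rw [h1, hG, Finset.mul_sum, Finset.sum_range_succ, mul_smul_comm, add_sub_cancel_right]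
    refine Finset.sum_congr rfl fun r _ => ?_
    rw [mul_smul_comm]
  induction J using Nat.strong_induction_on with
  | _ J ih =>
    rcases J with _ | n
    · rw [hE, hGc, Finset.sum_range_succ', Finset.sum_eq_zero]
      · simp
      · intro r _
        rw [ord_pow hV (r + 1) 0 (by omega), smul_zero]
    · apply ratsmul_cancel n
      have h1 : ∀ P : PowerSeries A, ((n : ℚ) + 1) • coeff (n + 1) P = coeff n (derivative A P) := by
        intro P
        rw [coeff_derivative, Algebra.smul_def, map_add, map_natCast, map_one, mul_comm]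
      rw [h1, h1, hd, hGd, map_sub]
      have h2 : coeff n (((R ! : ℚ)⁻¹) • (derivative A V * V ^ R)) = 0 := by
        show ((R ! : ℚ)⁻¹) • coeff n (derivative A V * V ^ R) = 0
        have h3 : Ord (0 + R) (derivative A V * V ^ R) :=
          Ord.mul (m := 0) (fun i hi => absurd hi (by omega)) (ord_pow hV R)
        rw [h3 n (by omega), smul_zero]
      rw [h2, sub_zero, coeff_mul, coeff_mul]
      refine Finset.sum_congr rfl fun x hx => ?_
      rw [Finset.HasAntidiagonal.mem_antidiagonal] at hx
      rw [ih x.2 (by omega) (by omega)]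

/-- the exponential up to the first non-zero coefficient of the power `d + 1` -/
theorem coeff_exp_trunc {V E : PowerSeries A} (hV : coeff 0 V = 0) (hE : coeff 0 E = 1)
    (hd : derivative A E = derivative A V * E) (d J : ℕ)
    (h : ∀ J' < J, coeff J' (V ^ (d + 1)) = 0) :
    coeff J E = ∑ r ∈ Finset.range (d + 2), ((r ! : ℚ)⁻¹) • coeff J (V ^ r) := by
  rw [exp_coeff hV hE hd (max J (d + 1)) J (le_max_left _ _)]
  symm
  refine Finset.sum_subset (Finset.range_mono (by omega)) fun r _ hr => ?_
  rw [Finset.mem_range, not_lt] at hr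
  obtain ⟨s, rfl⟩ := Nat.exists_eq_add_of_le hr
  have h1 : Ord (J + (s + 1)) (V ^ (d + 2 + s)) := by
    rw [show d + 2 + s = (d + 1) + (s + 1) by ring, pow_add]
    exact Ord.mul h (ord_pow hV (s + 1))
  rw [h1 J (by omega), smul_zero]

theorem exp_eq {V E : PowerSeries A} (hV : coeff 0 V = 0) (hE : coeff 0 E = 1)
    (hd : derivative A E = derivative A V * E) (d : ℕ) (h : V ^ (d + 1) = 0) :
    E = ∑ r ∈ Finset.range (d + 1), ((r ! : ℚ)⁻¹) • V ^ r := by
  ext J
  rw [coeff_exp_trunc hV hE hd d J (fun J' _ => by rw [h, map_zero]), map_sum,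
    Finset.sum_range_succ, h, map_zero, smul_zero, add_zero]
  rfl

end exp

end Pool.Agent.LibEnd77
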