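import Pool.Agent.LibEnd77.K2
import Pool.Agent.LibEnd77.S1
import Pool.Agent.LibQC8.Main

/-!
The logarithms of the power series of divisor classes, and their values at the images of points
under correspondences.
-/

open scoped Classical

namespace Pool.Agent.LibEnd77

open Pool.Agent.LibBH2 Pool.Agent.LibQC8

section integ

variable {A : Type} [CommRing A] [Algebra ℚ A]

/-- the formal integral without constant term -/
noncomputable def integ : PowerSeries A →+ PowerSeries A where
  toFun f := PowerSeries.mk fun n => ((n : ℚ)⁻¹) • PowerSeries.coeff (n - 1) f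
  map_zero' := by
    ext n
    rw [PowerSeries.coeff_mk, map_zero, map_zero, smul_zero]
  map_add' f g := by
    ext n
    rw [map_add, PowerSeries.coeff_mk, PowerSeries.coeff_mk, PowerSeries.coeff_mk, map_add,
      smul_add]

theorem coeff_integ (f : PowerSeries A) (n : ℕ) :
    PowerSeries.coeff n (integ f) = ((n : ℚ)⁻¹) • PowerSeries.coeff (n - 1) f := by
  show PowerSeries.coeff n (PowerSeries.mk fun n => ((n : ℚ)⁻¹) • PowerSeries.coeff (n - 1) f) = _
  rw [PowerSeries.coeff_mk]

theorem coeff_zero_integ (f : PowerSeries A) : PowerSeries.coeff 0 (integ f) = 0 := by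
  rw [coeff_integ, Nat.cast_zero, inv_zero, zero_smul]

theorem derivative_integ (f : PowerSeries A) : PowerSeries.derivative A (integ f) = f := by
  ext n
  rw [PowerSeries.coeff_derivative, coeff_integ, Nat.add_sub_cancel, smul_mul_assoc]
  have h : ((n : ℚ) + 1) ≠ 0 := by positivity
  have h1 : PowerSeries.coeff n f * ((n : A) + 1) = ((n : ℚ) + 1) • PowerSeries.coeff n f := by
    rw [Algebra.smul_def, map_add, map_natCast, map_one, mul_comm]
  rw [h1, smul_smul, Nat.cast_add, Nat.cast_one, inv_mul_cancel₀ h, one_smul]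

end integ

variable {k F : Type} [Field k] [Field F] [Algebra k F]

/-- the logarithm of the power series of a class -/
noncomputable def LL (hF : IsFunctionField k F) (w : Place k F) :
    Pic0 k F →+ PowerSeries (Ch k F) := (integ.comp dlog).comp (EP hF w)

theorem coeff_zero_LL (hF : IsFunctionField k F) (w : Place k F) (u : Pic0 k F) :
    PowerSeries.coeff 0 (LL hF w u) = 0 := coeff_zero_integ _

theorem derivative_LL (hF : IsFunctionField k F) (w : Place k F) (u : Pic0 k F) :
    PowerSeries.derivative (Ch k F) ((EP hF w u).toMul : PowerSeries (Ch k F)) =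
      PowerSeries.derivative (Ch k F) (LL hF w u) *
        ((EP hF w u).toMul : PowerSeries (Ch k F)) := by
  show _ = PowerSeries.derivative (Ch k F) (integ (dlog (EP hF w u))) * _
  rw [derivative_integ]
  have h := dlog_apply (EP hF w u).toMul
  rw [ofMul_toMul] at h
  rw [h, mul_assoc, Units.inv_mul, mul_one]

theorem coeff_LL_cl (hF : IsFunctionField k F) (w : Place k F) (n : ℕ)
    (D : Multiset (Place k F)) : PowerSeries.coeff (n + 1) (LL hF w (cl w D)) =
      ((((n + 1 : ℕ) : ℚ)⁻¹) • ((-1 : Ch k F) ^ n)) *
        (D.map fun b => vv w b ^ (n + 1)).sum := by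
  have h1 : EP hF w (cl w D) = EE w (LibQC8.rel w D).1 := rfl
  have h2 : PowerSeries.coeff (n + 1) (LL hF w (cl w D)) =
      (((n + 1 : ℕ) : ℚ)⁻¹) • PowerSeries.coeff n (dlog (EE w (LibQC8.rel w D).1)) := by
    rw [← h1]
    exact coeff_integ _ _
  rw [h2, dlog_EE, smul_mul_assoc]
  congr 2
  rw [LibQC8.rel]
  show ev (fun a => vv w a ^ (n + 1))
    (D.map fun a => Finsupp.single a (1 : ℤ) - Finsupp.single w 1).sum = _
  rw [map_multiset_sum, Multiset.map_map]
  congr 1
  refine Multiset.map_congr rfl fun b _ => ?_
  rw [Function.comp_apply, map_sub, ev_single, ev_single, vv, vv, sub_self,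
    zero_pow (Nat.succ_ne_zero n), one_smul, smul_zero, sub_zero]

end Pool.Agent.LibEnd77
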