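import Pool.Agent.LibEnd77.S2

/-!
Logarithms of the classes in the product of the Jacobians; relations between products of logarithms
of the values of maps from a curve.
-/

open scoped Classical

namespace Pool.Agent.LibEnd77

open Pool.Agent.LibBH2
open Pool.Agent.LibQC8 (IsFunctionField Spec Div IsPrincipal y vv cl Pic0)

variable {k : Type} [Field k] {A : Curve k} {I : Type} {C : I → Curve k}

variable (C) in
/-- the components of an element of `J` -/
noncomputable def Jac.ev (i : I) : Jac C →+ Pic0 k (C i).K :=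
  Pi.evalAddMonoidHom (fun i => Pic0 k (C i).K) i

theorem Jac.ev_of_same (i : I) (x : Pic0 k (C i).K) : Jac.ev C i (Jac.of C i x) = x :=
  Pi.single_eq_same (M := fun i => Pic0 k (C i).K) i x

theorem Jac.ev_of_ne {i j : I} (h : j ≠ i) (x : Pic0 k (C i).K) :
    Jac.ev C j (Jac.of C i x) = 0 :=
  Pi.single_eq_of_ne (M := fun i => Pic0 k (C i).K) h x

variable (A C) in
/-- the functions on `C'` generated by the power sums of the images of points -/
noncomputable def BB : Subalgebra (ChM C) (Place k A.K → ChM C) :=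
  Algebra.adjoin (ChM C)
    {g | ∃ (i : I) (T : Corr A (C i)) (e : ℕ), g = fun a => ρ C i (T.pw e a)}

theorem BB_rel [IsAlgClosed k] (g : Place k A.K → ChM C) (hg : g ∈ BB A C) (D : Div k A.K)
    (hD : IsPrincipal k A.K D) :
    (D.sum fun a n => n • g a) = 0 := by
  rw [BB, ← Subalgebra.mem_toSubmodule, Algebra.adjoin_eq_span] at hg
  induction hg using Submodule.span_induction with
  | mem g hg =>
    obtain ⟨l, hl, rfl⟩ := Submonoid.exists_list_of_mem_closure hg
    have h1 : ∀ i : Fin l.length, ∃ (c : I) (T : Corr A (C c)) (e : ℕ),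
        l.get i = fun a => ρ C c (T.pw e a) := fun i => hl _ (List.get_mem l i)
    choose c T e hT using h1
    have h2 := product_rel c T e D hD
    rw [← h2]
    refine Finsupp.sum_congr fun a _ => ?_
    congr 1
    have h3 : l.prod = ∏ i, l.get i := by
      conv_lhs => rw [← List.ofFn_get l]
      rw [List.prod_ofFn]
    rw [h3, Finset.prod_apply]
    exact Finset.prod_congr rfl fun i _ => by rw [hT i]
  | zero =>
    rw [Finsupp.sum]
    exact Finset.sum_eq_zero fun a _ => by rw [Pi.zero_apply, smul_zero]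
  | add x z _ _ hx hz =>
    rw [Finsupp.sum] at hx hz ⊢
    rw [← add_zero (0 : ChM C)]
    nth_rewrite 1 [← hx]
    rw [← hz, ← Finset.sum_add_distrib]
    exact Finset.sum_congr rfl fun a _ => by rw [Pi.add_apply, smul_add]
  | smul c x _ hx =>
    rw [Finsupp.sum] at hx ⊢
    rw [← mul_zero c, ← hx, Finset.mul_sum]
    exact Finset.sum_congr rfl fun a _ => by rw [Pi.smul_apply, smul_eq_mul, mul_smul_comm]

theorem BB_const (c : ChM C) : (fun _ : Place k A.K => c) ∈ BB A C :=
  (BB A C).algebraMap_mem c

theorem BB_pw {i : I} (T : Corr A (C i)) (e : ℕ) :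
    (fun a => ρ C i (T.pw e a)) ∈ BB A C :=
  Algebra.subset_adjoin ⟨i, T, e, rfl⟩

theorem BB_mul {g g' : Place k A.K → ChM C} (h : g ∈ BB A C) (h' : g' ∈ BB A C) :
    (fun a => g a * g' a) ∈ BB A C := (BB A C).mul_mem h h'

theorem BB_sum {κ : Type} (s : Finset κ) (g : κ → Place k A.K → ChM C)
    (h : ∀ i ∈ s, g i ∈ BB A C) : (fun a => ∑ i ∈ s, g i a) ∈ BB A C := by
  have h1 : (fun a => ∑ i ∈ s, g i a) = ∑ i ∈ s, g i := by
    funext a
    rw [Finset.sum_apply]
  rw [h1]
  exact (BB A C).sum_mem h

theorem BB_vpw {i : I} (w : Place k (C i).K) (T : Corr A (C i)) (n : ℕ) :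
    (fun a => ρ C i ((T.img a).map fun b => vv w b ^ n).sum) ∈ BB A C := by
  have h1 : (fun a => ρ C i ((T.img a).map fun b => vv w b ^ n).sum) = fun a =>
      ∑ j ∈ Finset.range (n + 1),
        ρ C i (T.pw j a) *
          ρ C i ((-y w) ^ (n - j) * (n.choose j : Pool.Agent.LibQC8.Ch k (C i).K)) := by
    funext a
    have h2 : ∀ b : Place k (C i).K, (vv w b : Pool.Agent.LibQC8.Ch k (C i).K) ^ n =
        ∑ j ∈ Finset.range (n + 1),
          y b ^ j * ((-y w) ^ (n - j) * (n.choose j : Pool.Agent.LibQC8.Ch k (C i).K)) := by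
      intro b
      rw [vv, sub_eq_add_neg, add_pow]
      exact Finset.sum_congr rfl fun i _ => by ring
    simp only [h2]
    rw [Multiset.sum_map_sum, map_sum]
    refine Finset.sum_congr rfl fun j _ => ?_
    rw [Corr.pw, Multiset.sum_map_mul_right, map_mul]
  rw [h1]
  exact BB_sum _ _ fun j _ => BB_mul (BB_pw T j) (BB_const _)

/-- all coefficients of `G` are in `BB` -/
def Adm (G : Place k A.K → PowerSeries (ChM C)) : Prop :=
  ∀ n, (fun a => PowerSeries.coeff n (G a)) ∈ BB A C

theorem Adm.const (c : PowerSeries (ChM C)) : Adm (fun _ : Place k A.K => c) := fun n =>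
  BB_const _

theorem Adm.mul {G G' : Place k A.K → PowerSeries (ChM C)} (h : Adm G) (h' : Adm G') :
    Adm (fun a => G a * G' a) := by
  intro n
  simp only [PowerSeries.coeff_mul]
  exact BB_sum _ _ fun x _ => BB_mul (h x.1) (h' x.2)

theorem Adm.add {G G' : Place k A.K → PowerSeries (ChM C)} (h : Adm G) (h' : Adm G') :
    Adm (fun a => G a + G' a) := by
  intro n
  simp only [map_add]
  exact (BB A C).add_mem (h n) (h' n)

theorem Adm.neg {G : Place k A.K → PowerSeries (ChM C)} (h : Adm G) :
    Adm (fun a => - G a) := by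
  intro n
  simp only [map_neg]
  exact (BB A C).neg_mem (h n)

theorem Adm.prod {κ : Type} (s : Finset κ) (G : κ → Place k A.K → PowerSeries (ChM C))
    (h : ∀ i, Adm (G i)) : Adm (fun a => ∏ i ∈ s, G i a) := by
  induction s using Finset.induction_on with
  | empty => simpa using Adm.const 1
  | insert i s hi ih =>
    simp only [Finset.prod_insert hi]
    exact (h i).mul ih

section LLM

variable [Fintype I]

variable (C) in
/-- the logarithm of a class in the product of the Jacobians, with weights `lam i` -/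
noncomputable def LLM (lam : I → ℚ) :
    Jac C →+ PowerSeries (ChM C) :=
  ∑ i, (((PowerSeries.rescale (algebraMap ℚ (ChM C) (lam i))).toAddMonoidHom.comp
    ((PowerSeries.map (ρ C i)).toAddMonoidHom.comp (LL (C i).ff (C i).w))).comp
      (Jac.ev C i))

theorem LLM_apply (lam : I → ℚ)
    (x : Jac C) : LLM C lam x =
      ∑ i, PowerSeries.rescale (algebraMap ℚ (ChM C) (lam i))
        (PowerSeries.map (ρ C i) (LL (C i).ff (C i).w (Jac.ev C i x))) := by
  rw [LLM, AddMonoidHom.finsetSum_apply]
  rfl

theorem LLM_single (lam : I → ℚ)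
    (i : I) (x : Pic0 k (C i).K) :
    LLM C lam (Jac.of C i x) =
      PowerSeries.rescale (algebraMap ℚ (ChM C) (lam i))
        (PowerSeries.map (ρ C i) (LL (C i).ff (C i).w x)) := by
  rw [LLM_apply, Finset.sum_eq_single i]
  · rw [Jac.ev_of_same]
  · intro j _ hj
    rw [Jac.ev_of_ne hj, map_zero, map_zero, map_zero]
  · intro h
    exact absurd (Finset.mem_univ i) h

theorem Adm.img (lam : I → ℚ) {i : I}
    (T : Corr A (C i)) : Adm (fun a => PowerSeries.rescale (algebraMap ℚ (ChM C) (lam i))
        (PowerSeries.map (ρ C i) (LL (C i).ff (C i).w (cl (C i).w (T.img a))))) := by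
  intro n
  simp only [PowerSeries.coeff_rescale, PowerSeries.coeff_map]
  refine BB_mul (BB_const _) ?_
  rcases n with _ | n
  · simp only [coeff_zero_LL]
    exact BB_const _
  · simp only [coeff_LL_cl, map_mul]
    exact BB_mul (BB_const _) (BB_vpw (C i).w T (n + 1))

theorem Adm.mor [IsAlgClosed k] (lam : I → ℚ) (g : Place k A.K → Jac C) (hg : g ∈ Mor A C) :
    Adm (fun a => LLM C lam (g a)) := by
  induction hg using AddSubgroup.closure_induction with
  | mem g hg =>
    rcases hg with ⟨v, hv⟩ | ⟨i, T, hT⟩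
    · simp only [hv]
      exact Adm.const _
    · have h1 : ∀ a, LLM C lam (g a) = PowerSeries.rescale (algebraMap ℚ (ChM C) (lam i))
          (PowerSeries.map (ρ C i) (LL (C i).ff (C i).w (cl (C i).w (T.img a)))) := by
        intro a
        obtain ⟨D, hD, hg⟩ := hT a
        rw [hg, LLM_single, T.img_unique hD]
      simp only [h1]
      exact Adm.img lam T
  | zero =>
    simp only [Pi.zero_apply, map_zero]
    exact Adm.const 0
  | add a b _ _ ha hb =>
    simp only [Pi.add_apply, map_add]
    exact ha.add hb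
  | neg a _ ha =>
    simp only [Pi.neg_apply, map_neg]
    exact ha.neg

/-- the relations between products of logarithms -/
theorem rel_LLM [IsAlgClosed k] (lam : I → ℚ) {κ : Type} [Fintype κ]
    (g : κ → Place k A.K → Jac C) (hg : ∀ t, g t ∈ Mor A C) (D : Div k A.K)
    (hD : IsPrincipal k A.K D) :
    (D.sum fun p n => n • ∏ t, LLM C lam (g t p)) = 0 := by
  have hG : Adm (fun a => ∏ t, LLM C lam (g t a)) :=
    Adm.prod _ _ fun t => Adm.mor lam _ (hg t)
  ext n
  have h1 := BB_rel _ (hG n) D hD
  rw [Finsupp.sum] at h1 ⊢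
  rw [map_sum, map_zero, ← h1]
  exact Finset.sum_congr rfl fun a _ => by rw [map_zsmul]

end LLM

end Pool.Agent.LibEnd77
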