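import Pool.Agent.LibEnd77.S3

/-!
The multiplicative family of power series on the product of the Jacobians.
-/

open scoped Classical

namespace Pool.Agent.LibEnd77

open Pool.Agent.LibBH2
open Pool.Agent.LibQC8 (IsFunctionField Spec Div IsPrincipal y vv cl Pic0 EP ee ee_cl Ord)

variable {k : Type} [Field k] {I : Type} {C : I → Curve k}

section series

variable {A B : Type} [CommRing A] [CommRing B]

theorem derivative_map' (f : A →+* B) (P : PowerSeries A) :
    PowerSeries.derivative B (PowerSeries.map f P) =
      PowerSeries.map f (PowerSeries.derivative A P) := by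
  ext n
  rw [PowerSeries.coeff_derivative, PowerSeries.coeff_map, PowerSeries.coeff_map,
    PowerSeries.coeff_derivative, map_mul, map_add, map_natCast, map_one]

theorem derivative_rescale' (a : A) (P : PowerSeries A) :
    PowerSeries.derivative A (PowerSeries.rescale a P) =
      PowerSeries.C a * PowerSeries.rescale a (PowerSeries.derivative A P) := by
  ext n
  rw [PowerSeries.coeff_derivative, PowerSeries.coeff_rescale, PowerSeries.coeff_C_mul,
    PowerSeries.coeff_rescale, PowerSeries.coeff_derivative, pow_succ]
  ring

theorem derivative_prod' {κ : Type} (s : Finset κ) (E X : κ → PowerSeries A)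
    (h : ∀ i, PowerSeries.derivative A (E i) = PowerSeries.derivative A (X i) * E i) :
    PowerSeries.derivative A (∏ i ∈ s, E i) =
      PowerSeries.derivative A (∑ i ∈ s, X i) * ∏ i ∈ s, E i := by
  induction s using Finset.induction_on with
  | empty => simp
  | insert i s hi ih =>
    rw [Finset.prod_insert hi, Finset.sum_insert hi, Derivation.leibniz, ih, h, map_add,
      smul_eq_mul, smul_eq_mul]
    ring

/-- polynomials of degree `≤ n` -/
def Deg (n : ℕ) (P : PowerSeries A) : Prop := ∀ j, n < j → PowerSeries.coeff j P = 0

theorem Deg.mul {m n : ℕ} {P Q : PowerSeries A} (hP : Deg m P) (hQ : Deg n Q) :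
    Deg (m + n) (P * Q) := by
  intro j hj
  rw [PowerSeries.coeff_mul]
  refine Finset.sum_eq_zero fun x hx => ?_
  rw [Finset.HasAntidiagonal.mem_antidiagonal] at hx
  rcases lt_or_ge m x.1 with h | h
  · rw [hP _ h, zero_mul]
  · rw [hQ _ (by omega), mul_zero]

end series

variable [Fintype I]

variable (C) in
/-- the multiplicative family, with weights `lam i` -/
noncomputable def EML (lam : I → ℚ)
    (x : Jac C) : PowerSeries (ChM C) :=
  ∏ i, PowerSeries.rescale (algebraMap ℚ (ChM C) (lam i)) (PowerSeries.map (ρ C i)
    ((EP (C i).ff (C i).w (Jac.ev C i x)).toMul : PowerSeries (Pool.Agent.LibQC8.Ch k (C i).K)))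

theorem EML_add (lam : I → ℚ)
    (x z : Jac C) : EML C lam (x + z) = EML C lam x * EML C lam z := by
  rw [EML, EML, EML, ← Finset.prod_mul_distrib]
  refine Finset.prod_congr rfl fun i _ => ?_
  rw [map_add, map_add, toMul_add, Units.val_mul, map_mul, map_mul]

theorem coeff_zero_EP (i : I)
    (u : Pic0 k (C i).K) : PowerSeries.coeff 0
      ((EP (C i).ff (C i).w u).toMul : PowerSeries (Pool.Agent.LibQC8.Ch k (C i).K)) = 1 := by
  induction u using QuotientAddGroup.induction_on with
  | H D =>
    rw [PowerSeries.coeff_zero_eq_constantCoeff_apply]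
    exact Pool.Agent.LibQC8.constantCoeff_EE (C i).w D

theorem coeff_zero_EML (lam : I → ℚ)
    (x : Jac C) : PowerSeries.coeff 0 (EML C lam x) = 1 := by
  rw [PowerSeries.coeff_zero_eq_constantCoeff_apply, EML, map_prod]
  refine Finset.prod_eq_one fun i _ => ?_
  rw [← PowerSeries.coeff_zero_eq_constantCoeff_apply, PowerSeries.coeff_rescale, pow_zero,
    one_mul, PowerSeries.coeff_map, coeff_zero_EP, map_one]

theorem coeff_zero_LLM (lam : I → ℚ)
    (x : Jac C) : PowerSeries.coeff 0 (LLM C lam x) = 0 := by
  rw [LLM_apply, map_sum]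
  refine Finset.sum_eq_zero fun i _ => ?_
  rw [PowerSeries.coeff_rescale, pow_zero, one_mul, PowerSeries.coeff_map, coeff_zero_LL, map_zero]

theorem derivative_EML (lam : I → ℚ)
    (x : Jac C) : PowerSeries.derivative (ChM C) (EML C lam x) =
      PowerSeries.derivative (ChM C) (LLM C lam x) * EML C lam x := by
  rw [LLM_apply, EML]
  refine derivative_prod' _ _ _ fun i => ?_
  rw [derivative_rescale', derivative_map', derivative_rescale', derivative_map', derivative_LL,
    map_mul, map_mul, mul_assoc]

theorem EML_single (lam : I → ℚ)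
    (i : I) (x : Pic0 k (C i).K) :
    EML C lam (Jac.of C i x) =
      PowerSeries.rescale (algebraMap ℚ (ChM C) (lam i)) (PowerSeries.map (ρ C i)
        ((EP (C i).ff (C i).w x).toMul : PowerSeries (Pool.Agent.LibQC8.Ch k (C i).K))) := by
  rw [EML, Finset.prod_eq_single i]
  · rw [Jac.ev_of_same]
  · intro j _ hj
    rw [Jac.ev_of_ne hj, map_zero, toMul_zero, Units.val_one, map_one, map_one]
  · intro h
    exact absurd (Finset.mem_univ i) h

/-- the series of an effective divisor is a polynomial of degree at most its degree -/
theorem deg_EML (lam : I → ℚ)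
    (D : Multiset (Pt C)) : Deg D.card (EML C lam (jac C D)) := by
  induction D using Multiset.induction_on with
  | empty =>
    rw [jac, Multiset.map_zero, Multiset.sum_zero]
    have h1 : EML C lam (0 : Jac C) = 1 := by
      rw [EML]
      refine Finset.prod_eq_one fun i _ => ?_
      rw [map_zero, map_zero, toMul_zero, Units.val_one, map_one, map_one]
    rw [h1]
    intro j hj
    rw [PowerSeries.coeff_one, if_neg (by rw [Multiset.card_zero] at hj; omega)]
  | cons a D ih =>
    have h1 : jac C (a ::ₘ D) =
        Jac.of C a.1 (cl (C a.1).w {a.2}) + jac C D := by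
      rw [jac, Multiset.map_cons, Multiset.sum_cons]
      rfl
    rw [h1, EML_add, Multiset.card_cons, add_comm D.card]
    refine Deg.mul ?_ ih
    intro j hj
    rw [EML_single, PowerSeries.coeff_rescale, PowerSeries.coeff_map]
    have h2 := ee_cl (C a.1).ff (C a.1).w {a.2} j (by rw [Multiset.card_singleton]; exact hj)
    rw [ee] at h2
    rw [h2, map_zero, mul_zero]

end Pool.Agent.LibEnd77
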