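import Pool.Agent.LibEnd77.S4
import Pool.Agent.LibQC8.Thm

/-!
The class of a point of a product of symmetric powers, as a function of its class in the product of
the Jacobians.
-/

open scoped Classical

namespace Pool.Agent.LibEnd77

open Pool.Agent.LibBH2
open Pool.Agent.LibQC8 (IsFunctionField y cl Pic0 EP ee class_eq IsPoly IsPoly.sum rel)

variable {k : Type} [Field k] {I : Type} {C : I → Curve k}

theorem cl_cons' {K : Type} [Field K] [Algebra k K] (w a : Place k K)
    (A : Multiset (Place k K)) : cl w (a ::ₘ A) = cl w {a} + cl w A := by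
  have h1 : Pool.Agent.LibQC8.rel w (a ::ₘ A) =
      Pool.Agent.LibQC8.rel w {a} + Pool.Agent.LibQC8.rel w A := by
    apply Subtype.ext
    show ((a ::ₘ A).map fun b => Finsupp.single b (1 : ℤ) - Finsupp.single w 1).sum =
      (({a} : Multiset (Place k K)).map fun b => Finsupp.single b (1 : ℤ) -
        Finsupp.single w 1).sum +
      (A.map fun b => Finsupp.single b (1 : ℤ) - Finsupp.single w 1).sum
    rw [Multiset.map_cons, Multiset.sum_cons, Multiset.map_singleton, Multiset.sum_singleton]
  rw [cl, h1]
  rfl

theorem cl_zero' {K : Type} [Field K] [Algebra k K] (w : Place k K) :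
    cl w (0 : Multiset (Place k K)) = 0 := by
  have h1 : Pool.Agent.LibQC8.rel w (0 : Multiset (Place k K)) = 0 := by
    apply Subtype.ext
    show ((0 : Multiset (Place k K)).map fun b => Finsupp.single b (1 : ℤ) -
      Finsupp.single w 1).sum = 0
    rw [Multiset.map_zero, Multiset.sum_zero]
  rw [cl, h1]
  rfl

variable [Fintype I]

/-- the components of a point of a product of symmetric powers -/
theorem exists_components (D : Multiset (Pt C)) :
    ∃ A : ∀ i, Multiset (Place k (C i).K), (∀ i, (A i).card = (D.map Sigma.fst).count i) ∧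
      (∀ i, Jac.ev C i (jac C D) = cl (C i).w (A i)) ∧
      (D.map yM).prod = ∏ i, ρ C i ((A i).map y).prod := by
  induction D using Multiset.induction_on with
  | empty =>
    refine ⟨fun _ => 0, fun i => by simp, fun i => ?_, by simp⟩
    rw [cl_zero', jac, Multiset.map_zero, Multiset.sum_zero, map_zero]
  | cons a D ih =>
    obtain ⟨i, a⟩ := a
    obtain ⟨A, h1, h2, h3⟩ := ih
    refine ⟨Function.update A i (a ::ₘ A i), fun j => ?_, fun j => ?_, ?_⟩
    · rw [Multiset.map_cons, Multiset.count_cons]
      by_cases hj : j = i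
      · subst hj
        rw [Function.update_self, Multiset.card_cons, h1, if_pos rfl]
      · rw [Function.update_of_ne hj, h1, if_neg hj, add_zero]
    · have h4 : jac C (⟨i, a⟩ ::ₘ D) =
          Jac.of C i (cl (C i).w {a}) + jac C D := by
        rw [jac, Multiset.map_cons, Multiset.sum_cons]
        rfl
      rw [h4, map_add, h2]
      by_cases hj : j = i
      · subst hj
        rw [Function.update_self, Jac.ev_of_same, cl_cons']
      · rw [Function.update_of_ne hj, Jac.ev_of_ne hj, zero_add]
    · rw [Multiset.map_cons, Multiset.prod_cons, h3,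
        ← Finset.mul_prod_erase _ _ (Finset.mem_univ i),
        ← Finset.mul_prod_erase Finset.univ
          (fun j => ρ C j ((Function.update A i (a ::ₘ A i) j).map y).prod) (Finset.mem_univ i),
        ← mul_assoc]
      congr 1
      · rw [Function.update_self, Multiset.map_cons, Multiset.prod_cons, map_mul, ρ_y]
      · refine Finset.prod_congr rfl fun j hj => ?_
        rw [Finset.mem_erase] at hj
        rw [Function.update_of_ne hj.1]

/-- the class of a point in the Chow ring as a function of its class in `J` -/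
theorem class_eqM (N : Multiset I) (D : Multiset (Pt C)) (hD : D.map Sigma.fst = N) :
    (D.map yM).prod = ∑ l ∈ Fintype.piFinset fun i => Finset.range (N.count i + 1),
      (∏ i, ρ C i (ee (C i).ff (C i).w (l i) (Jac.ev C i (jac C D)))) *
        ∏ i, ρ C i (y (C i).w ^ (N.count i - l i)) := by
  obtain ⟨A, h1, h2, h3⟩ := exists_components D
  have h4 : ∀ i, ρ C i ((A i).map y).prod = ∑ j ∈ Finset.range (N.count i + 1),
      ρ C i (ee (C i).ff (C i).w j (Jac.ev C i (jac C D))) *
        ρ C i (y (C i).w ^ (N.count i - j)) := by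
    intro i
    rw [class_eq (C i).ff (C i).w, map_sum, h1, hD, h2]
    exact Finset.sum_congr rfl fun j _ => by rw [map_mul]
  rw [h3, Finset.prod_congr rfl fun i _ => h4 i, Finset.prod_univ_sum]
  exact Finset.sum_congr rfl fun l _ => Finset.prod_mul_distrib

omit [Fintype I] in
theorem smulM_def (q : ℚ) (x : ChM C) : q • x = algebraMap ℚ (ChM C) q * x :=
  Algebra.smul_def q x

/-- the coefficients of the series with weights -/
theorem coeff_EML (lam : I → ℚ)
    (J : ℕ) (x : Jac C) : PowerSeries.coeff J (EML C lam x) =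
      ∑ l ∈ Finset.finsuppAntidiag Finset.univ J,
        (∏ i, lam i ^ l i) • ∏ i, ρ C i (ee (C i).ff (C i).w (l i) (Jac.ev C i x)) := by
  rw [EML, PowerSeries.coeff_prod]
  refine Finset.sum_congr rfl fun l _ => ?_
  rw [smulM_def, map_prod, ← Finset.prod_mul_distrib]
  refine Finset.prod_congr rfl fun i _ => ?_
  rw [PowerSeries.coeff_rescale, PowerSeries.coeff_map, map_pow]
  rfl

/-- polynomial dependence of all multi-coefficients -/
theorem isPoly_multi {G : Type}
    [AddCommGroup G] (x : G → Jac C) (d : ℕ) (ℓ : Module.Dual ℚ (ChM C))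
    (h : ∀ (lam : I → ℚ) (J : ℕ) (z : ChM C),
      IsPoly d fun u => ℓ (PowerSeries.coeff J (EML C lam (x u)) * z))
    (l : I → ℕ) (z : ChM C) :
    IsPoly d fun u => ℓ ((∏ i, ρ C i (ee (C i).ff (C i).w (l i) (Jac.ev C i (x u)))) * z) := by
  refine isPoly_of_delta fun L hL u => ?_
  set J := ∑ i, l i with hJ
  let f : (I →₀ ℕ) → G → ℚ := fun l u =>
    ℓ ((∏ i, ρ C i (ee (C i).ff (C i).w (l i) (Jac.ev C i (x u)))) * z)
  let P : MvPolynomial I ℚ := ∑ l' ∈ Finset.finsuppAntidiag Finset.univ J,
    MvPolynomial.monomial l' (delta L (f l') u)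
  have hP : P = 0 := by
    refine MvPolynomial.funext fun lam => ?_
    have h1 : ∀ v, ℓ (PowerSeries.coeff J (EML C lam (x v)) * z) =
        ∑ l' ∈ Finset.finsuppAntidiag Finset.univ J, (∏ i, lam i ^ l' i) * f l' v := by
      intro v
      rw [coeff_EML, Finset.sum_mul, map_sum]
      refine Finset.sum_congr rfl fun l' _ => ?_
      rw [smul_mul_assoc, map_smul, smul_eq_mul]
    have h2 := delta_of_isPoly (h lam J z) L hL u
    simp only [h1] at h2
    rw [delta_sum] at h2
    rw [map_zero, ← h2, map_sum]
    refine Finset.sum_congr rfl fun l' _ => ?_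
    rw [delta_mul_left, MvPolynomial.eval_monomial, mul_comm, Finsupp.prod_fintype]
    intro i
    rw [pow_zero]
  have h3 : MvPolynomial.coeff (Finsupp.equivFunOnFinite.symm l) P =
      delta L (f (Finsupp.equivFunOnFinite.symm l)) u := by
    rw [MvPolynomial.coeff_sum, Finset.sum_eq_single (Finsupp.equivFunOnFinite.symm l)]
    · rw [MvPolynomial.coeff_monomial, if_pos rfl]
    · intro l' _ hne
      rw [MvPolynomial.coeff_monomial, if_neg hne]
    · intro hn
      exfalso
      apply hn
      rw [Finset.mem_finsuppAntidiag]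
      exact ⟨by simp [hJ], Finset.subset_univ _⟩
  rw [hP, MvPolynomial.coeff_zero] at h3
  exact h3.symm

end Pool.Agent.LibEnd77
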