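import Pool.Agent.LibEnd77.S5

/-!
Groups on which the products of `d + 1` logarithms vanish.
-/

open scoped Classical Nat

namespace Pool.Agent.LibEnd77

open Pool.Agent.LibBH2
open Pool.Agent.LibQC8 (IsFunctionField y cl Pic0 EP ee class_eq IsPoly IsPoly.sum IsPoly.mono
  IsPoly.zero Ord Ord.mul PolyKilled ι_single Div IsPrincipal)

variable {k : Type} [Field k] {I : Type} {C : I → Curve k} [Fintype I]

/-- the products of `d + 1` logarithms of elements of `M` vanish -/
def Nil (M : AddSubgroup (Jac C)) (d : ℕ) : Prop :=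
  ∀ (lam : I → ℚ) (v : Fin (d + 1) → M), ∏ i, LLM C lam (v i : Jac C) = 0

theorem ord_prod_LLM (lam : I → ℚ)
    {κ : Type} (s : Finset κ) (v : κ → Jac C) : Ord s.card (∏ i ∈ s, LLM C lam (v i)) := by
  induction s using Finset.induction_on with
  | empty => intro i hi; simp at hi
  | insert i s hi ih =>
    rw [Finset.prod_insert hi, Finset.card_insert_of_notMem hi, add_comm]
    exact Ord.mul (m := 1) (fun j hj => by
      obtain rfl : j = 0 := by omega
      exact coeff_zero_LLM lam _) ih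

omit [Fintype I] in
theorem eq_zero_of_dualM (x : ChM C) (h : ∀ ℓ : Module.Dual ℚ (ChM C), ℓ x = 0) : x = 0 :=
  (Module.forall_dual_apply_eq_zero_iff ℚ x).1 h

/-- a form `x ↦ ℓ (q • coeff J (Q * x) * z)` -/
noncomputable def frm (ℓ : Module.Dual ℚ (ChM C)) (q : ℚ) (J : ℕ) (Q : PowerSeries (ChM C))
    (z : ChM C) : PowerSeries (ChM C) →+ ℚ where
  toFun P := ℓ (q • (PowerSeries.coeff J (Q * P) * z))
  map_zero' := by rw [mul_zero, map_zero, zero_mul, smul_zero, map_zero]
  map_add' P P' := by rw [mul_add, map_add, add_mul, smul_add, map_add]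

omit [Fintype I] in
theorem frm_apply (ℓ : Module.Dual ℚ (ChM C)) (q : ℚ) (J : ℕ) (Q : PowerSeries (ChM C))
    (z : ChM C) (P : PowerSeries (ChM C)) :
    frm ℓ q J Q z P = ℓ (q • (PowerSeries.coeff J (Q * P) * z)) := rfl

theorem delta_form (lam : I → ℚ)
    (M : AddSubgroup (Jac C)) (d : ℕ) (J : ℕ) (ℓ : Module.Dual ℚ (ChM C))
    (v : Fin (d + 1) → M) :
    delta (List.ofFn v) (fun u : M => ∑ r ∈ Finset.range (d + 2),
      frm ℓ ((r ! : ℚ)⁻¹) J 1 1 (((LLM C lam).comp M.subtype) u ^ r)) 0 =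
      ℓ (PowerSeries.coeff J (∏ i, LLM C lam (v i : Jac C))) := by
  rw [delta_sum, Finset.sum_range_succ, Finset.sum_eq_zero, zero_add, delta_pow]
  · rw [if_pos (List.length_ofFn).symm, List.map_ofFn, List.prod_ofFn, frm_apply, one_mul, mul_one,
      map_smul, smul_eq_mul, ← mul_assoc, mul_inv_cancel₀ (by positivity), one_mul]
    rfl
  · rw [List.length_ofFn]
  · intro r hr
    rw [Finset.mem_range] at hr
    rw [delta_pow _ _ _ _ _ (by rw [List.length_ofFn]; omega), if_neg]
    rw [List.length_ofFn]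
    omega

omit [Fintype I] in
theorem eq_zero_of_zsmul' (n : ℤ) (hn : n ≠ 0) (x : PowerSeries (ChM C)) (h : n • x = 0) :
    x = 0 := by
  ext J
  have h1 := congrArg (PowerSeries.coeff J) h
  rw [map_zsmul, map_zero, ← Int.cast_smul_eq_zsmul ℚ n] at h1
  rw [map_zero]
  rcases smul_eq_zero.1 h1 with h2 | h2
  · exact absurd h2 (by exact_mod_cast hn)
  · exact h2

theorem Nil.hull {M M₀ : AddSubgroup (Jac C)} {d : ℕ} (h : Nil M₀ d) (hh : InHull M M₀) :
    Nil M d := by
  intro lam v
  choose q hq hv using fun i => hh (v i) (v i).2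
  have h1 := h lam fun i => ⟨q i • (v i : Jac C), hv i⟩
  simp only [map_zsmul] at h1
  have h2 : ∏ i, (q i • LLM C lam (v i : Jac C)) =
      (∏ i, q i) • ∏ i, LLM C lam (v i : Jac C) := by
    simp only [zsmul_eq_mul]
    rw [Finset.prod_mul_distrib, Int.cast_prod]
  rw [h2] at h1
  exact eq_zero_of_zsmul' _ (Finset.prod_ne_zero_iff.2 fun i _ => hq i) _ h1

theorem nil_isPoly {M : AddSubgroup (Jac C)} {d : ℕ} (h : Nil M d) (ξ : Jac C) (lam : I → ℚ)
    (J : ℕ) (z : ChM C) (ℓ : Module.Dual ℚ (ChM C)) :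
    IsPoly d (fun u : M => ℓ (PowerSeries.coeff J (EML C lam (ξ + u)) * z)) := by
  have h1 : ∀ u : M, ℓ (PowerSeries.coeff J (EML C lam (ξ + u)) * z) =
      ∑ r ∈ Finset.range (d + 1), frm ℓ ((r ! : ℚ)⁻¹) J (EML C lam ξ) z
        (((LLM C lam).comp M.subtype) u ^ r) := by
    intro u
    have h2 := h lam fun _ => u
    rw [Finset.prod_const, Finset.card_univ, Fintype.card_fin] at h2
    rw [EML_add, exp_eq (coeff_zero_LLM lam (u : Jac C))
      (coeff_zero_EML lam (u : Jac C)) (derivative_EML lam (u : Jac C)) d h2,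
      Finset.mul_sum, map_sum, Finset.sum_mul, map_sum]
    refine Finset.sum_congr rfl fun r _ => ?_
    rw [frm_apply, mul_smul_comm]
    congr 1
    show ((r ! : ℚ)⁻¹ • PowerSeries.coeff J (EML C lam ξ *
      LLM C lam (u : Jac C) ^ r)) * z = _
    rw [smul_mul_assoc]
    rfl
  simp only [h1]
  refine IsPoly.sum _ _ fun r hr => ?_
  rw [Finset.mem_range] at hr
  exact (pow_isPoly ((LLM C lam).comp M.subtype) r _).mono (by omega)

/-- the conclusion from the vanishing of products -/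
theorem torsion_of_nil {M : AddSubgroup (Jac C)} {d : ℕ} (hM : Nil M d) (ξ : Jac C)
    (N : Multiset I) (n : ℕ) (D : Fin n → Multiset (Pt C)) (m : Fin n → ℤ) (u : Fin n → M)
    (hD : ∀ j, (D j).map Sigma.fst = N) (hu : ∀ j, jac C (D j) = ξ + u j)
    (h : PolyKilled d m u) : IsTorsionCycle N (∑ j, Finsupp.single (D j) (m j)) := by
  refine torsion_of_mem ?_ ?_
  · intro E hE
    have := Finsupp.support_finsetSum hE
    rw [Finset.mem_biUnion] at this
    obtain ⟨j, _, hj⟩ := this
    have := Finsupp.support_single_subset hj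
    rw [Finset.mem_singleton] at this
    rw [this, hD]
  · rw [← Ideal.Quotient.eq_zero_iff_mem, map_sum, map_sum]
    refine eq_zero_of_dualM _ fun ℓ => ?_
    rw [map_sum, ← h (fun u => ∑ l ∈ Fintype.piFinset fun i => Finset.range (N.count i + 1),
      ℓ ((∏ i, ρ C i (ee (C i).ff (C i).w (l i) (Jac.ev C i (ξ + (u : Jac C))))) *
        ∏ i, ρ C i (y (C i).w ^ (N.count i - l i)))) ?_]
    · refine Finset.sum_congr rfl fun j _ => ?_
      rw [ι_single, mk_smulM, mk_monoM, class_eqM N (D j) (hD j), map_smul, map_sum,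
        smul_eq_mul, hu]
    · exact IsPoly.sum _ _ fun l _ => isPoly_multi (fun u : M => ξ + (u : Jac C)) d ℓ
        (fun lam J z => nil_isPoly hM ξ lam J z ℓ) l _

end Pool.Agent.LibEnd77
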