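import Pool.Agent.LibEnd77.G1

/-!
The criterion with all forms of its hypothesis.
-/

open scoped Classical Nat

namespace Pool.Agent.LibEnd77

open Pool.Agent.LibBH2
open Pool.Agent.LibQC8 (IsFunctionField y cl Pic0 IsPoly IsPoly.sum IsPoly.mono IsPoly.zero Ord
  PolyKilled DegreeSumZero IsPrincipal RankOne DistinctModTorsion zero_of_rank_one affine_sum)

variable {k : Type} [Field k] {I : Type} {C : I → Curve k} [Fintype I]

/-- the product of the logarithms of linked elements vanishes -/
theorem prod_of_linked [IsAlgClosed k] (lam : I → ℚ) (n : ℕ) (x : Fin n → Jac C)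
    (h : Linked n x) : ∏ t, LLM C lam (x t) = 0 := by
  obtain ⟨A, g, D, a, hg, hD, hv, hne⟩ := h
  have h1 := rel_LLM lam g hg D hD
  have h2 : (D.sum fun p n => n • ∏ t, LLM C lam (g t p)) =
      (D.sum fun p n => n * ∏ t, a t p) • ∏ t, LLM C lam (x t) := by
    rw [Finsupp.sum, Finsupp.sum, Finset.sum_smul]
    refine Finset.sum_congr rfl fun p hp => ?_
    rw [Finsupp.mem_support_iff] at hp
    rw [mul_smul]
    congr 1
    have h3 : ∀ t, LLM C lam (g t p) = a t p • LLM C lam (x t) :=
      fun t => by rw [hv t p hp, map_zsmul]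
    rw [Finset.prod_congr rfl fun t _ => h3 t]
    simp only [zsmul_eq_mul]
    rw [Finset.prod_mul_distrib, Int.cast_prod]
  rw [h2] at h1
  refine eq_zero_of_zsmul' _ (fun h0 => hne ?_) _ h1
  have h4 := congrArg (Int.cast : ℤ → ℚ) h0
  rw [Finsupp.sum, Int.cast_sum, Int.cast_zero] at h4
  rw [wsum, Finsupp.sum, ← h4]
  exact Finset.sum_congr rfl fun p _ => by rw [Int.cast_mul, Int.cast_prod]

/-- the criterion -/
theorem nil_of_forms [IsAlgClosed k] (M : AddSubgroup (Jac C)) (d : ℕ)
    (hM : ∀ f : M → ℚ, IsPoly (d + 1) f →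
      (∀ (D : Multiset (Pt C)) (u : M), D.card = d → (u : Jac C) = jac C D → f u = 0) →
      Compatible M d f → IsPoly d f) : Nil M d := by
  intro lam
  have key : ∀ (J : ℕ) (v : Fin (d + 1) → M),
      PowerSeries.coeff J (∏ i, LLM C lam (v i : Jac C)) = 0 := by
    intro J
    induction J using Nat.strong_induction_on with
    | _ J ih =>
      intro v
      rcases lt_or_ge J (d + 1) with hJ | hJ
      · have := ord_prod_LLM lam (Finset.univ : Finset (Fin (d + 1)))
          (fun i => (v i : Jac C))
        rw [Finset.card_univ, Fintype.card_fin] at this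
        exact this J hJ
      refine eq_zero_of_dualM _ fun ℓ => ?_
      let V : M →+ PowerSeries (ChM C) := (LLM C lam).comp M.subtype
      let f : M → ℚ := fun u => ℓ (PowerSeries.coeff J (EML C lam (u : Jac C)))
      have hf : f = fun u : M => ∑ r ∈ Finset.range (d + 2),
          frm ℓ ((r ! : ℚ)⁻¹) J 1 1 (V u ^ r) := by
        funext u
        show ℓ (PowerSeries.coeff J (EML C lam (u : Jac C))) = _
        rw [coeff_exp_trunc (coeff_zero_LLM lam (u : Jac C))
          (coeff_zero_EML lam (u : Jac C)) (derivative_EML lam (u : Jac C)) d J,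
          map_sum]
        · refine Finset.sum_congr rfl fun r _ => ?_
          rw [frm_apply, one_mul, mul_one]
          rfl
        · intro J' hJ'
          have h1 := ih J' hJ' (fun _ => u)
          rw [Finset.prod_const, Finset.card_univ, Fintype.card_fin] at h1
          exact h1
      have hpoly : IsPoly (d + 1) f := by
        rw [hf]
        refine IsPoly.sum _ _ fun r hr => ?_
        rw [Finset.mem_range] at hr
        exact (pow_isPoly V r _).mono (by omega)
      have hd := hM f hpoly ?_ ?_
      · have h1 := delta_of_isPoly hd (List.ofFn v) List.length_ofFn 0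
        rw [hf, delta_form] at h1
        exact h1
      · intro D u hD hu
        show ℓ (PowerSeries.coeff J (EML C lam (u : Jac C))) = 0
        rw [hu, deg_EML lam D J (by omega), map_zero]
      · intro A g D x hg hD hx
        have h1 := rel_LLM lam g hg D hD
        rw [wsum, Finsupp.sum]
        rw [Finsupp.sum] at h1
        have h2 : ∀ p ∈ D.support, (D p : ℚ) * delta (List.ofFn (x p)) f 0 =
            ℓ (PowerSeries.coeff J
              (D p • ∏ t, LLM C lam (g t p))) := by
          intro p hp
          rw [Finsupp.mem_support_iff] at hp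
          rw [hf, delta_form, map_zsmul, map_zsmul, zsmul_eq_mul]
          congr 3
          exact Finset.prod_congr rfl fun t _ => by rw [hx p t hp]
        rw [Finset.sum_congr rfl h2, ← map_sum, ← map_sum, h1, map_zero, map_zero]
  intro v
  ext J
  rw [key J v, map_zero]

theorem prod_closure {G R : Type} [AddCommGroup G] [CommRing R] (V : G →+ R) (S : Set G) (n : ℕ)
    (h : ∀ s : Fin n → G, (∀ i, s i ∈ S) → ∏ i, V (s i) = 0) (t : Finset (Fin n)) :
    ∀ v : Fin n → G, (∀ i ∉ t, v i ∈ S) → (∀ i ∈ t, v i ∈ AddSubgroup.closure S) →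
      ∏ i, V (v i) = 0 := by
  induction t using Finset.induction_on with
  | empty => exact fun v hv _ => h v fun i => hv i (Finset.notMem_empty i)
  | insert i t hi ih =>
    intro v h1 h2
    have h3 : ∀ x ∈ AddSubgroup.closure S, V x * ∏ j ∈ Finset.univ.erase i, V (v j) = 0 := by
      intro x hx
      induction hx using AddSubgroup.closure_induction with
      | mem x hx =>
        have h4 := ih (Function.update v i x) (fun j hj => by
          by_cases hji : j = i
          · rw [hji, Function.update_self]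
            exact hx
          · rw [Function.update_of_ne hji]
            exact h1 j (by rw [Finset.mem_insert]; tauto)) (fun j hj => by
          have hji : j ≠ i := fun e => hi (e ▸ hj)
          rw [Function.update_of_ne hji]
          exact h2 j (Finset.mem_insert_of_mem hj))
        rw [← Finset.mul_prod_erase _ _ (Finset.mem_univ i), Function.update_self] at h4
        rw [← h4]
        congr 1
        refine Finset.prod_congr rfl fun j hj => ?_
        rw [Function.update_of_ne (Finset.ne_of_mem_erase hj)]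
      | zero => rw [map_zero, zero_mul]
      | add a b _ _ ha hb => rw [map_add, add_mul, ha, hb, add_zero]
      | neg a _ ha =>
        rw [map_neg]
        linear_combination -ha
    rw [← Finset.mul_prod_erase _ _ (Finset.mem_univ i)]
    exact h3 _ (h2 i (Finset.mem_insert_self i t))

/-- the product of the logarithms of the values at a point of a fibre -/
theorem prod_of_fibre [IsAlgClosed k] (lam : I → ℚ) (n : ℕ) (x : Fin n → Jac C)
    (h : FibreValues n x) : ∏ t, LLM C lam (x t) = 0 := by
  obtain ⟨A, g, P, E, F, hg, hP, hd, hE, hx⟩ := h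
  let G : AddSubgroup (Place k A.K → Jac C) := {
    carrier := {g | g ∈ Mor A C ∧ ∀ Q ∈ F, g Q = 0}
    zero_mem' := ⟨zero_mem _, fun _ _ => rfl⟩
    add_mem' := fun h h' => ⟨add_mem h.1 h'.1, fun Q hQ => by
      rw [Pi.add_apply, h.2 Q hQ, h'.2 Q hQ, add_zero]⟩
    neg_mem' := fun h => ⟨neg_mem h.1, fun Q hQ => by rw [Pi.neg_apply, h.2 Q hQ, neg_zero]⟩ }
  let V : G →+ PowerSeries (ChM C) := (LLM C lam).comp
    ((Pi.evalAddMonoidHom (fun _ : Place k A.K => Jac C) P).comp G.subtype)
  have h1 : ∀ u : G, V u ^ n = 0 := by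
    intro u
    have h3 : V u ^ E.card = 0 := pow_LLM lam hP hE u.1 u.2.1 u.2.2
    rw [← Nat.add_sub_cancel' hd, pow_add, h3, zero_mul]
  have h2 := prod_eq_zero_of_pow V n h1
    (List.ofFn fun t => (⟨g t, hg t, (hx t).2⟩ : G)) List.length_ofFn
  rw [List.map_ofFn, List.prod_ofFn] at h2
  rw [← h2]
  exact Finset.prod_congr rfl fun t _ => by rw [← (hx t).1]; rfl

/-- groups generated by sets in which any `d + 1` elements include linked ones -/
theorem nil_of_linkedSpan [IsAlgClosed k] (M : AddSubgroup (Jac C)) (d : ℕ)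
    (hM : LinkedSpan M d) : Nil M d := by
  obtain ⟨S, hull, hS⟩ := hM
  refine Nil.hull (M₀ := AddSubgroup.closure S) ?_ hull
  intro lam v
  refine prod_closure (LLM C lam) S (d + 1) ?_ Finset.univ
    (fun i => (v i : Jac C)) (fun i hi => absurd (Finset.mem_univ i) hi) (fun i _ => (v i).2)
  intro s hs
  obtain ⟨n, c, hc, hl⟩ := hS s hs
  have h1 : ∏ t, LLM C lam (s (c t)) = 0 := by
    rcases hl with hl | hl
    · exact prod_of_linked lam n _ hl
    · exact prod_of_fibre lam n _ hl
  rw [← Finset.prod_image (s := Finset.univ) (g := c) (f := fun i => LLM C lam (s i))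
    (fun i _ j _ h => hc h)] at h1
  rw [← Finset.prod_sdiff (Finset.subset_univ (Finset.univ.image c)), h1, mul_zero]

/-- sums of groups -/
theorem nil_of_sum {r : ℕ} {M' : Fin r → AddSubgroup (Jac C)} {e : Fin r → ℕ} {d : ℕ}
    (h : ∀ s, Nil (M' s) (e s)) (hd : ∑ s, e s ≤ d) : Nil (⨆ s, M' s) d := by
  rw [AddSubgroup.iSup_eq_closure]
  intro lam v
  refine prod_closure (LLM C lam) _ (d + 1) ?_ Finset.univ
    (fun i => (v i : Jac C)) (fun i hi => absurd (Finset.mem_univ i) hi) (fun i _ => (v i).2)
  intro x hx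
  have hx' : ∀ i, ∃ s, x i ∈ M' s := fun i => Set.mem_iUnion.1 (hx i)
  choose c hc using hx'
  obtain ⟨s, hs⟩ : ∃ s, e s + 1 ≤ (Finset.univ.filter fun i => c i = s).card := by
    by_contra hcon
    push Not at hcon
    have h1 : d + 1 = ∑ s, (Finset.univ.filter fun i => c i = s).card := by
      rw [← Finset.card_eq_sum_card_fiberwise (fun i _ => Finset.mem_univ _), Finset.card_univ,
        Fintype.card_fin]
    have h2 : ∑ s, (Finset.univ.filter fun i => c i = s).card ≤ ∑ s, e s :=
      Finset.sum_le_sum fun s _ => Nat.lt_succ_iff.1 (hcon s)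
    omega
  obtain ⟨T, hT, hTc⟩ := Finset.exists_subset_card_eq hs
  let E := Finset.equivFinOfCardEq hTc
  have hx' : ∀ i, c i = s → x i ∈ M' s := fun i hi => hi ▸ hc i
  have h1 := h s lam fun j => ⟨x (E.symm j), hx' _ (Finset.mem_filter.1 (hT (E.symm j).2)).2⟩
  have h3 : ∏ i ∈ T, LLM C lam (x i) = 0 := by
    rw [← Finset.prod_coe_sort, ← h1]
    exact (Equiv.prod_comp E.symm fun i : T => LLM C lam (x i)).symm
  rw [← Finset.prod_sdiff (Finset.subset_univ T), h3, mul_zero]

/-- the criterion with all forms of the hypothesis -/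
theorem criterion77 [IsAlgClosed k] (M : AddSubgroup (Jac C)) (d r : ℕ)
    (M' : Fin r → AddSubgroup (Jac C)) (e : Fin r → ℕ)
    (hM' : ∀ s, NoForm (M' s) (e s) ∨ RankOnePoints (M' s) (e s) ∨ LinkedSpan (M' s) (e s))
    (hM : InHull M (⨆ s, M' s)) (hd : ∑ s, e s ≤ d)
    (ξ : Jac C) (N : Multiset I) (n : ℕ) (D : Fin n → Multiset (Pt C)) (m : Fin n → ℤ)
    (u : Fin n → M) (hD : ∀ j, (D j).map Sigma.fst = N) (hu : ∀ j, jac C (D j) = ξ + u j)
    (h : PolyKilled d m u ∨ d = 1 ∧ DegreeSumZero m u) :
    IsTorsionCycle N (∑ j, Finsupp.single (D j) (m j)) := by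
  have hN : ∀ s, Nil (M' s) (e s) := by
    intro s
    rcases hM' s with ⟨M₀, hull, h0⟩ | ⟨h1, E, x, hE, hx, hne⟩ | h0
    · exact (nil_of_forms M₀ _ h0).hull hull
    · refine nil_of_forms _ _ fun f hf hv _ => ?_
      have h2 : f = fun _ => 0 := funext fun u =>
        zero_of_rank_one hf h1 x hne (fun i => hv (E i) (x i) (hE i) (hx i)) u
      rw [h2]
      exact IsPoly.zero _
    · exact nil_of_linkedSpan _ _ h0
  refine torsion_of_nil ((nil_of_sum hN hd).hull hM) ξ N n D m u hD hu ?_
  rcases h with h | ⟨rfl, h0, q, hq, h1⟩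
  · exact h
  · exact fun f hf => affine_sum n m u h0 q hq h1 f hf

end Pool.Agent.LibEnd77
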