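import Pool.Agent.LibEnd77.Defs
import Pool.Agent.LibFFBSD.FE
import Pool.Agent.LibCHd.A1
import Pool.Agent.LibCHd.B4
import Pool.Agent.LibCHd.B5

/-!
Places of function fields of one variable over an algebraically closed field as discrete valuation
rings.
-/

open scoped Classical

namespace Pool.Agent.LibEnd77

open Pool.Agent.LibBH2 Pool.Agent.LibQC8

section bridge

variable {k K : Type} [Field k] [Field K] [Algebra k K]

theorem isFunctionField_trdeg (hK : IsFunctionField k K) : Algebra.trdeg k K ≤ 1 := by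
  obtain ⟨s, hs, hf⟩ := hK
  have h : Pool.Agent.LibCHd.FunF k 1 K := by
    refine ⟨fun _ => s, ?_, ?_⟩
    · rw [algebraicIndependent_unique_type_iff]
      exact hs
    · have : Set.range (fun _ : Fin 1 => s) = {s} := by
        ext x
        simp [eq_comm]
      rw [this]
      exact hf
  rw [h.trdeg]
  simp

/-- the valuation ring of a place -/
def vr (v : Place k K) : ValuationSubring K where
  carrier := {f | v.Reg f}
  mul_mem' := fun hf hg => hf.mul hg
  one_mem' := Or.inr (by rw [v.ord_one])
  add_mem' := fun hf hg => hf.add hg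
  zero_mem' := Or.inl rfl
  neg_mem' := fun hf => hf.neg
  mem_or_inv_mem' := fun f => by
    rcases le_total 0 (v.ord f) with h | h
    · exact Or.inl (Or.inr h)
    · exact Or.inr (Or.inr (by rw [v.ord_inv]; omega))

theorem mem_vr (v : Place k K) (f : K) : f ∈ vr v ↔ v.Reg f := Iff.rfl

theorem isUnit_vr (v : Place k K) (f : vr v) (h0 : (f : K) ≠ 0) (h : v.ord (f : K) = 0) :
    IsUnit f := by
  have hinv : (f : K)⁻¹ ∈ vr v := Or.inr (by rw [v.ord_inv, h]; simp)
  exact IsUnit.of_mul_eq_one (⟨(f : K)⁻¹, hinv⟩ : vr v) (Subtype.ext (mul_inv_cancel₀ h0))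

theorem ord_of_isUnit (v : Place k K) (f : vr v) (h : IsUnit f) : v.ord (f : K) = 0 := by
  obtain ⟨g, hg⟩ := isUnit_iff_exists_inv.1 h
  have h1 : (f : K) * (g : K) = 1 := congrArg Subtype.val hg
  have hf0 : (f : K) ≠ 0 := left_ne_zero_of_mul_eq_one h1
  have hg0 : (g : K) ≠ 0 := right_ne_zero_of_mul_eq_one h1
  have h2 := v.ord_mul _ _ hf0 hg0
  rw [h1, v.ord_one] at h2
  have h3 : 0 ≤ v.ord (f : K) := by
    rcases f.2 with h | h
    · exact absurd h hf0
    · exact h
  have h4 : 0 ≤ v.ord (g : K) := by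
    rcases g.2 with h | h
    · exact absurd h hg0
    · exact h
  omega

theorem vr_dvr (v : Place k K) : IsDiscreteValuationRing (vr v) := by
  obtain ⟨t, ht⟩ := v.exists_uniformizer
  have ht0 : t ≠ 0 := by
    rintro rfl
    rw [v.ord_zero] at ht
    exact zero_ne_one ht
  have htm : t ∈ vr v := Or.inr (by rw [ht]; norm_num)
  refine IsDiscreteValuationRing.ofHasUnitMulPowIrreducibleFactorization ⟨⟨t, htm⟩, ⟨?_, ?_⟩, ?_⟩
  · intro h
    have := ord_of_isUnit v _ h
    rw [ht] at this
    exact one_ne_zero this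
  · intro a b hab
    have h1 : t = (a : K) * (b : K) := congrArg Subtype.val hab
    have ha0 : (a : K) ≠ 0 := by
      intro h
      rw [h, zero_mul] at h1
      exact ht0 h1
    have hb0 : (b : K) ≠ 0 := by
      intro h
      rw [h, mul_zero] at h1
      exact ht0 h1
    have h2 := v.ord_mul _ _ ha0 hb0
    rw [← h1, ht] at h2
    have h3 : 0 ≤ v.ord (a : K) := by
      rcases a.2 with h | h
      · exact absurd h ha0
      · exact h
    have h4 : 0 ≤ v.ord (b : K) := by
      rcases b.2 with h | h
      · exact absurd h hb0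
      · exact h
    rcases (by omega : v.ord (a : K) = 0 ∨ v.ord (b : K) = 0) with h | h
    · exact Or.inl (isUnit_vr v a ha0 h)
    · exact Or.inr (isUnit_vr v b hb0 h)
  · intro x hx
    have hx0 : (x : K) ≠ 0 := fun h => hx (Subtype.ext h)
    have h3 : 0 ≤ v.ord (x : K) := by
      rcases x.2 with h | h
      · exact absurd h hx0
      · exact h
    obtain ⟨n, hn⟩ := Int.eq_ofNat_of_zero_le h3
    refine ⟨n, ?_⟩
    have hy0 : (x : K) / t ^ n ≠ 0 := div_ne_zero hx0 (pow_ne_zero _ ht0)
    have hy : v.ord ((x : K) / t ^ n) = 0 := by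
      rw [v.ord_div _ _ hx0 (pow_ne_zero _ ht0), v.ord_pow, ht, hn]
      simp
    have hym : (x : K) / t ^ n ∈ vr v := Or.inr hy.ge
    obtain ⟨u, hu⟩ := isUnit_vr v ⟨_, hym⟩ hy0 hy
    refine ⟨u, Subtype.ext ?_⟩
    rw [hu]
    show t ^ n * ((x : K) / t ^ n) = x
    field_simp

theorem const_vr (v : Place k K) (a : k) : algebraMap k K a ∈ vr v := v.reg_const a

theorem mem_max_vr (v : Place k K) (f : vr v) :
    f ∈ IsLocalRing.maximalIdeal (vr v) ↔ v.Zer (f : K) := by
  rw [IsLocalRing.mem_maximalIdeal, mem_nonunits_iff]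
  constructor
  · intro h
    by_cases h0 : (f : K) = 0
    · exact Or.inl h0
    right
    rcases f.2 with h1 | h1
    · exact absurd h1 h0
    rcases h1.lt_or_eq with h2 | h2
    · exact h2
    · exact absurd (isUnit_vr v f h0 h2.symm) h
  · rintro h hu
    have h1 := ord_of_isUnit v f hu
    rcases h with h | h
    · have : f = 0 := Subtype.ext h
      rw [this] at hu
      exact not_isUnit_zero hu
    · omega

variable [IsAlgClosed k]

theorem exists_const (hK : IsFunctionField k K) (v : Place k K) (f : K) (hf : v.Reg f) :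
    ∃ c : k, v.Zer (f - algebraMap k K c) := by
  obtain ⟨t, ht⟩ := v.exists_uniformizer
  exact Pool.Agent.LibCHd.exists_val (isFunctionField_trdeg hK) (AlgHom.id k K) v
    ⟨t, by rw [AlgHom.id_apply, ht]; exact one_ne_zero⟩ f hf

/-- a place as a discrete valuation ring -/
def toV (hK : IsFunctionField k K) (v : Place k K) : FFBSD.Place k K where
  O := vr v
  dvr := vr_dvr v
  const := const_vr v
  fin := by
    letI : Algebra k (vr v) := ((algebraMap k K).codRestrict (vr v) (const_vr v)).toAlgebra
    refine Module.Finite.of_surjective (Algebra.linearMap k (IsLocalRing.ResidueField (vr v))) ?_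
    intro x
    obtain ⟨f, rfl⟩ := IsLocalRing.residue_surjective x
    obtain ⟨c, hc⟩ := exists_const hK v (f : K) f.2
    refine ⟨c, ?_⟩
    rw [Algebra.linearMap_apply]
    show IsLocalRing.residue (vr v) (algebraMap k (vr v) c) = IsLocalRing.residue (vr v) f
    rw [← sub_eq_zero, ← map_sub, IsLocalRing.residue_eq_zero_iff, mem_max_vr]
    have h2 := hc.neg
    rw [neg_sub] at h2
    exact h2

theorem toV_O (hK : IsFunctionField k K) (v : Place k K) : (toV hK v).O = vr v := rfl

theorem toV_deg (hK : IsFunctionField k K) (v : Place k K) : (toV hK v).deg = 1 := by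
  rw [FFBSD.Place.deg, finrank_eq_one_iff_of_nonzero' 1 one_ne_zero]
  intro x
  obtain ⟨f, rfl⟩ := IsLocalRing.residue_surjective x
  obtain ⟨c, hc⟩ := exists_const hK v (f : K) f.2
  refine ⟨c, ?_⟩
  rw [Algebra.smul_def, mul_one]
  show IsLocalRing.residue (toV hK v).O (algebraMap k (toV hK v).O c) =
    IsLocalRing.residue (toV hK v).O f
  rw [← sub_eq_zero, ← map_sub, IsLocalRing.residue_eq_zero_iff]
  have h2 := hc.neg
  rw [neg_sub] at h2
  exact (mem_max_vr v _).2 h2

end bridge

end Pool.Agent.LibEnd77
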