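import Pool.Agent.LibEnd77.V1

/-!
Values of points at places: existence, uniqueness, ramification indices; the fundamental equality.
-/

open scoped Classical

namespace Pool.Agent.LibEnd77

open Pool.Agent.LibBH2 Pool.Agent.LibQC8

section spec

variable {k K F : Type} [Field k] [Field K] [Algebra k K] [Field F] [Algebra k F]

/-- the ramification index of a value -/
theorem spec_ord {u : Place k K} {i : F →ₐ[k] K} {a : Place k F}
    (h : ∀ f : F, 0 < a.ord f → 0 < u.ord (i f)) :
    ∃ e : ℤ, 0 < e ∧ ∀ f, u.ord (i f) = e * a.ord f := by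
  obtain ⟨t, ht⟩ := a.exists_uniformizer
  have ht0 : t ≠ 0 := by
    rintro rfl
    rw [a.ord_zero] at ht
    exact zero_ne_one ht
  have hi : ∀ f : F, f ≠ 0 → i f ≠ 0 := fun f hf => (map_ne_zero i).2 hf
  have he : 0 < u.ord (i t) := h t (by rw [ht]; norm_num)
  have h1 : ∀ f : F, f ≠ 0 → 0 ≤ a.ord f → 0 ≤ u.ord (i f) := by
    intro f hf hr
    by_contra hneg
    push Not at hneg
    have h2 := h (f ^ (u.ord (i t)).toNat * t) (by
      rw [a.ord_mul _ _ (pow_ne_zero _ hf) ht0, a.ord_pow, ht]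
      positivity)
    rw [map_mul, map_pow, u.ord_mul _ _ (pow_ne_zero _ (hi f hf)) (hi t ht0), u.ord_pow,
      Int.toNat_of_nonneg he.le] at h2
    nlinarith
  have h0 : ∀ f : F, f ≠ 0 → a.ord f = 0 → u.ord (i f) = 0 := by
    intro f hf hr
    have h2 := h1 f hf hr.ge
    have h3 := h1 f⁻¹ (inv_ne_zero hf) (by rw [a.ord_inv, hr]; simp)
    rw [map_inv₀, u.ord_inv] at h3
    omega
  refine ⟨u.ord (i t), he, fun f => ?_⟩
  by_cases hf : f = 0
  · rw [hf, map_zero, u.ord_zero, a.ord_zero, mul_zero]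
  have h2 := h0 (f * t ^ (-a.ord f)) (mul_ne_zero hf (zpow_ne_zero _ ht0)) (by
    rw [a.ord_mul _ _ hf (zpow_ne_zero _ ht0), a.ord_zpow, ht]
    ring)
  rw [map_mul, map_zpow₀, u.ord_mul _ _ (hi f hf) (zpow_ne_zero _ (hi t ht0)), u.ord_zpow] at h2
  linarith

theorem spec_of_ord {u : Place k K} {i : F →ₐ[k] K} {a : Place k F} {e : ℤ} (he : 0 < e)
    (h : ∀ f, u.ord (i f) = e * a.ord f) : ∀ f : F, 0 < a.ord f → 0 < u.ord (i f) := by
  intro f hf
  rw [h]
  exact mul_pos he hf

theorem spec_unique {u : Place k K} {i : F →ₐ[k] K} {a a' : Place k F}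
    (h : ∀ f : F, 0 < a.ord f → 0 < u.ord (i f)) (h' : ∀ f : F, 0 < a'.ord f → 0 < u.ord (i f)) :
    a = a' := by
  obtain ⟨e, he, h1⟩ := spec_ord h
  obtain ⟨e', he', h1'⟩ := spec_ord h'
  obtain ⟨t, ht⟩ := a.exists_uniformizer
  obtain ⟨t', ht'⟩ := a'.exists_uniformizer
  have h2 : e = e' * a'.ord t := by rw [← h1', h1, ht, mul_one]
  have h3 : e' = e * a.ord t' := by rw [← h1, h1', ht', mul_one]
  have h4 : e ∣ e' := ⟨_, h3⟩
  have h5 : e' ∣ e := ⟨_, h2⟩
  have h6 : e = e' := Int.dvd_antisymm he.le he'.le h4 h5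
  refine Place.ext' fun f => ?_
  have h7 : e * a.ord f = e * a'.ord f := by rw [← h1, h1', h6]
  exact mul_left_cancel₀ he.ne' h7

theorem exists_spec (hF : IsFunctionField k F) (hK : IsFunctionField k K) (i : F →ₐ[k] K)
    (u : Place k K) : ∃ a : Place k F, ∀ f : F, 0 < a.ord f → 0 < u.ord (i f) := by
  by_cases hne : ∃ φ : F, u.ord (i φ) ≠ 0
  · obtain ⟨φ, hφ⟩ := hne
    obtain ⟨a, e, he, h⟩ := Pool.Agent.LibCHd.exists_restrict i u φ hφ
    exact ⟨a, spec_of_ord (e := (e : ℤ)) (by exact_mod_cast he) h⟩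
  exfalso
  push Not at hne
  obtain ⟨s, hs, -⟩ := hF
  obtain ⟨t, ht⟩ := u.exists_uniformizer
  have hs' : AlgebraicIndependent k (fun _ : PUnit => s) := by
    rw [algebraicIndependent_unique_type_iff]
    exact hs
  have h1 := Pool.Agent.LibCHd.ord_triv_of_indep (ι := PUnit)
    (by simpa using isFunctionField_trdeg hK) (AlgHom.id k K) u (fun _ => i s) (fun G hG => ?_) t
  · rw [AlgHom.id_apply, ht] at h1
    exact one_ne_zero h1
  · have h2 : MvPolynomial.aeval (fun _ : PUnit => i s) G =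
        i (MvPolynomial.aeval (fun _ : PUnit => s) G) := by
      rw [← AlgHom.comp_apply, MvPolynomial.comp_aeval]
    have h3 : MvPolynomial.aeval (fun _ : PUnit => s) G ≠ 0 := by
      intro h0
      exact hG (hs' (by rw [h0, map_zero]))
    rw [AlgHom.id_apply, h2]
    exact ⟨hne _, (map_ne_zero i).2 h3⟩

end spec

section ofV

variable {k K : Type} [Field k] [Field K] [Algebra k K]

/-- a discrete valuation ring as a place -/
noncomputable def ofV (V : FFBSD.Place k K) : Place k K where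
  ord x := - WithZero.log ((FFBSD.FE_p V).valuation K x)
  ord_zero := by rw [map_zero, WithZero.log_zero, neg_zero]
  ord_mul := by
    intro f g hf hg
    rw [map_mul, WithZero.log_mul ((Valuation.ne_zero_iff _).2 hf) ((Valuation.ne_zero_iff _).2 hg)]
    ring
  ord_add := by
    intro f g hf hg hfg
    have h1 := ((FFBSD.FE_p V).valuation K).map_add f g
    have hf' := (Valuation.ne_zero_iff ((FFBSD.FE_p V).valuation K)).2 hf
    have hg' := (Valuation.ne_zero_iff ((FFBSD.FE_p V).valuation K)).2 hg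
    have hfg' := (Valuation.ne_zero_iff ((FFBSD.FE_p V).valuation K)).2 hfg
    rcases le_max_iff.1 h1 with h | h
    · have h2 := (WithZero.log_le_log hfg' hf').2 h
      exact le_trans (min_le_left _ _) (neg_le_neg h2)
    · have h2 := (WithZero.log_le_log hfg' hg').2 h
      exact le_trans (min_le_right _ _) (neg_le_neg h2)
  ord_const := by
    intro c hc
    have h1 : ∀ c : k, (FFBSD.FE_p V).valuation K (algebraMap k K c) ≤ 1 := fun c =>
      (FFBSD.FE_p V).valuation_le_one (K := K) ⟨algebraMap k K c, V.const c⟩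
    have h2 : (FFBSD.FE_p V).valuation K (algebraMap k K c) = 1 := by
      refine le_antisymm (h1 c) ?_
      have h3 := h1 c⁻¹
      rw [map_inv₀, map_inv₀] at h3
      have h4 : (FFBSD.FE_p V).valuation K (algebraMap k K c) ≠ 0 := by
        rw [Valuation.ne_zero_iff]
        exact (map_ne_zero _).2 hc
      exact (inv_le_one₀ (zero_lt_iff.2 h4)).1 h3
    rw [h2, WithZero.log_one, neg_zero]
  exists_uniformizer := by
    obtain ⟨x, hx⟩ := (FFBSD.FE_p V).valuation_exists_uniformizer K
    refine ⟨x, ?_⟩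
    rw [hx, WithZero.log_exp, neg_neg]

theorem vr_ofV (V : FFBSD.Place k K) : vr (ofV V) = V.O := by
  rw [FFBSD.FE_O_eq V]
  ext x
  rw [mem_vr, Valuation.mem_valuationSubring_iff]
  by_cases hx : x = 0
  · subst hx
    rw [map_zero]
    exact ⟨fun _ => zero_le_one, fun _ => Or.inl rfl⟩
  have hx' := (Valuation.ne_zero_iff ((FFBSD.FE_p V).valuation K)).2 hx
  have h1 : (FFBSD.FE_p V).valuation K x ≤ 1 ↔
      WithZero.log ((FFBSD.FE_p V).valuation K x) ≤ 0 := by
    rw [← WithZero.log_one, WithZero.log_le_log hx' one_ne_zero]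
  rw [h1]
  constructor
  · rintro (h | h)
    · exact absurd h hx
    · exact neg_nonneg.1 h
  · intro h
    exact Or.inr (neg_nonneg.2 h)

theorem vr_injective {v v' : Place k K} (h : vr v = vr v') : v = v' := by
  refine spec_unique (u := v) (i := AlgHom.id k K) (fun f hf => hf) (fun f hf => ?_)
  rw [AlgHom.id_apply]
  by_contra hn
  push Not at hn
  have hf0 : f ≠ 0 := by
    rintro rfl
    rw [v'.ord_zero] at hf
    exact lt_irrefl _ hf
  have h1 : f⁻¹ ∈ vr v := Or.inr (by rw [v.ord_inv]; omega)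
  rw [h] at h1
  rcases h1 with h1 | h1
  · exact inv_ne_zero hf0 h1
  · rw [v'.ord_inv] at h1
    omega

variable [IsAlgClosed k]

theorem toV_ofV (hK : IsFunctionField k K) (V : FFBSD.Place k K) : toV hK (ofV V) = V :=
  FFBSD.FE_ext (vr_ofV V)

end ofV

section equality

variable {k K₀ K : Type} [Field k] [IsAlgClosed k] [Field K₀] [Field K] [Algebra k K₀]
  [Algebra k K] [Algebra K₀ K] [IsScalarTower k K₀ K]

/-- values and places above -/
theorem above_iff (hK₀ : IsFunctionField k K₀) (hK : IsFunctionField k K) (v : Place k K₀)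
    (w : Place k K) : (toV hK w).Above (toV hK₀ v) ↔
      ∀ f : K₀, 0 < v.ord f → 0 < w.ord (algebraMap K₀ K f) := by
  constructor
  · intro h f hf
    by_contra hn
    push Not at hn
    have hf0 : f ≠ 0 := by
      rintro rfl
      rw [v.ord_zero] at hf
      exact lt_irrefl _ hf
    have h1 : algebraMap K₀ K f⁻¹ ∈ (toV hK w).O := by
      rw [toV_O, mem_vr, map_inv₀]
      exact Or.inr (by rw [w.ord_inv]; omega)
    have h2 := (h f⁻¹).1 h1
    rcases h2 with h2 | h2
    · exact inv_ne_zero hf0 h2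
    · rw [v.ord_inv] at h2
      omega
  · intro h f
    obtain ⟨e, he, h1⟩ := spec_ord (i := IsScalarTower.toAlgHom k K₀ K) h
    rw [toV_O, toV_O, mem_vr, mem_vr]
    have h2 := h1 f
    rw [IsScalarTower.coe_toAlgHom'] at h2
    unfold Place.Reg
    rw [h2, map_eq_zero]
    constructor
    · rintro (h3 | h3)
      · exact Or.inl h3
      · exact Or.inr (nonneg_of_mul_nonneg_right h3 he)
    · rintro (h3 | h3)
      · exact Or.inl h3
      · exact Or.inr (mul_nonneg he.le h3)

end equality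

end Pool.Agent.LibEnd77
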