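import Pool.Agent.LibEnd77.V2

/-!
The fundamental equality.
-/

open scoped Classical

namespace Pool.Agent.LibEnd77

open Pool.Agent.LibBH2 Pool.Agent.LibQC8

theorem val_le_iff {k K : Type} [Field k] [Field K] [Algebra k K] (v : Place k K) {x y : K}
    (hx : x ≠ 0) (hy : y ≠ 0) :
    (vr v).valuation x ≤ (vr v).valuation y ↔ v.ord y ≤ v.ord x := by
  have hy' : (vr v).valuation y ≠ 0 := (Valuation.ne_zero_iff _).2 hy
  have h1 : (vr v).valuation x ≤ (vr v).valuation y ↔ (vr v).valuation (x / y) ≤ 1 := by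
    rw [map_div₀, div_le_one₀ (zero_lt_iff.2 hy')]
  rw [h1, ValuationSubring.valuation_le_one_iff, mem_vr, Place.Reg, v.ord_div _ _ hx hy]
  constructor
  · rintro (h | h)
    · exact absurd h (div_ne_zero hx hy)
    · omega
  · intro h
    right
    omega

theorem val_eq {k K : Type} [Field k] [Field K] [Algebra k K] (v : Place k K) {x y : K}
    (hx : x ≠ 0) (hy : y ≠ 0) (h : (vr v).valuation x = (vr v).valuation y) : v.ord x = v.ord y :=
  le_antisymm ((val_le_iff v hy hx).1 h.ge) ((val_le_iff v hx hy).1 h.le)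

section equality

variable {k K₀ K : Type} [Field k] [IsAlgClosed k] [Field K₀] [Field K] [Algebra k K₀]
  [Algebra k K] [Algebra K₀ K] [IsScalarTower k K₀ K]

theorem isUniformizer_toV (hK : IsFunctionField k K) (v : Place k K) {t : K} (ht : v.ord t = 1) :
    (toV hK v).IsUniformizer t := by
  have ht0 : t ≠ 0 := by
    rintro rfl
    rw [v.ord_zero] at ht
    exact zero_ne_one ht
  have hlt : ∀ x : K, x ≠ 0 → ((vr v).valuation x < 1 ↔ 0 < v.ord x) := by
    intro x hx
    rw [← (vr v).valuation.map_one, lt_iff_not_ge, val_le_iff v one_ne_zero hx, v.ord_one, not_le]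
  refine ⟨ht0, (hlt t ht0).2 (by rw [ht]; norm_num), fun x hx => ?_⟩
  by_cases hx0 : x = 0
  · rw [hx0, map_zero]
    exact zero_le
  · have h1 := (hlt x hx0).1 hx
    exact (val_le_iff v hx0 ht0).2 (by omega)

/-- the fundamental equality -/
theorem sum_formula (hK₀ : IsFunctionField k K₀) (hK : IsFunctionField k K)
    [FiniteDimensional K₀ K] [Algebra.IsSeparable K₀ K] (v : Place k K₀) :
    ∃ S : Finset (Place k K), S.Nonempty ∧
      (∀ w, w ∈ S ↔ ∀ f : K₀, 0 < v.ord f → 0 < w.ord (algebraMap K₀ K f)) ∧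
      ∀ φ : K₀, ∑ w ∈ S, w.ord (algebraMap K₀ K φ) = Module.finrank K₀ K * v.ord φ := by
  obtain ⟨T, h1, h2, h3, h4, h5, -⟩ := FFBSD.FE_main (K := K) (toV hK₀ v)
  obtain ⟨π, hπ⟩ := v.exists_uniformizer
  have hinj : Function.Injective (ofV : FFBSD.Place k K → Place k K) := fun V V' h => by
    rw [← toV_ofV hK V, h, toV_ofV hK V']
  have hS : ∀ w, w ∈ T.image ofV ↔
      ∀ f : K₀, 0 < v.ord f → 0 < w.ord (algebraMap K₀ K f) := by
    intro w
    rw [← above_iff hK₀ hK, ← h1, Finset.mem_image]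
    constructor
    · rintro ⟨V, hV, rfl⟩
      rwa [toV_ofV]
    · intro h
      refine ⟨_, h, vr_injective ?_⟩
      rw [vr_ofV, toV_O]
  have hpos : 0 < Module.finrank K₀ K := Module.finrank_pos
  have hπ0 : π ≠ 0 := by
    rintro rfl
    rw [v.ord_zero] at hπ
    exact zero_ne_one hπ
  have he : ∀ V ∈ T, (ofV V).ord (algebraMap K₀ K π) = FFBSD.FE_e (toV hK₀ v) V := by
    intro V hV
    obtain ⟨t, ht⟩ := (ofV V).exists_uniformizer
    have ht0 : t ≠ 0 := by
      rintro rfl
      rw [(ofV V).ord_zero] at ht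
      exact zero_ne_one ht
    have h6 := h5 V hV π t (isUniformizer_toV hK₀ v hπ)
      (by have := isUniformizer_toV hK (ofV V) ht; rwa [toV_ofV] at this)
    rw [← map_pow, ← vr_ofV] at h6
    have h7 := val_eq (ofV V) ((map_ne_zero _).2 hπ0) (pow_ne_zero _ ht0) h6
    rw [h7, (ofV V).ord_pow, ht, mul_one]
  have hdeg : ∀ V : FFBSD.Place k K, V.deg = 1 := fun V => by
    rw [← toV_ofV hK V, toV_deg]
  have hsum : ∑ w ∈ T.image ofV, w.ord (algebraMap K₀ K π) = Module.finrank K₀ K := by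
    rw [Finset.sum_image fun _ _ _ _ h => hinj h, Finset.sum_congr rfl he]
    simp only [hdeg, toV_deg, mul_one] at h4
    exact_mod_cast h4
  refine ⟨T.image ofV, ?_, hS, fun φ => ?_⟩
  · rw [Finset.nonempty_iff_ne_empty]
    intro h0
    rw [h0, Finset.sum_empty] at hsum
    have : (Module.finrank K₀ K : ℤ) ≠ 0 := by exact_mod_cast hpos.ne'
    exact this hsum.symm
  · rw [← hsum, Finset.sum_mul]
    refine Finset.sum_congr rfl fun w hw => ?_
    obtain ⟨e, he0, h8⟩ := spec_ord (i := IsScalarTower.toAlgHom k K₀ K) ((hS w).1 hw)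
    simp only [IsScalarTower.coe_toAlgHom'] at h8
    rw [h8 φ, h8 π, hπ, mul_one]

end equality

end Pool.Agent.LibEnd77
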