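import Pool.Agent.LibEnd77.V3

/-!
Places above a given place in a Galois extension are conjugate.
-/

open scoped Classical Pointwise

namespace Pool.Agent.LibEnd77

open Pool.Agent.LibBH2 Pool.Agent.LibQC8

/-- the pull-back of a place by an automorphism -/
def pull {k K : Type} [Field k] [Field K] [Algebra k K] (u : Place k K) (σ : K ≃ₐ[k] K) :
    Place k K where
  ord f := u.ord (σ f)
  ord_zero := by rw [map_zero, u.ord_zero]
  ord_mul := fun f g hf hg => by
    rw [map_mul, u.ord_mul _ _ ((map_ne_zero σ).2 hf) ((map_ne_zero σ).2 hg)]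
  ord_add := fun f g hf hg hfg => by
    rw [map_add]
    exact u.ord_add _ _ ((map_ne_zero σ).2 hf) ((map_ne_zero σ).2 hg)
      (by rw [← map_add]; exact (map_ne_zero σ).2 hfg)
  ord_const := fun c hc => by rw [AlgEquiv.commutes, u.ord_const c hc]
  exists_uniformizer := by
    obtain ⟨t, ht⟩ := u.exists_uniformizer
    exact ⟨σ.symm t, by rw [AlgEquiv.apply_symm_apply, ht]⟩

section galois

variable {k K₀ K : Type} [Field k] [IsAlgClosed k] [Field K₀] [Field K] [Algebra k K₀]
  [Algebra k K] [Algebra K₀ K] [IsScalarTower k K₀ K]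

theorem val_lt_iff (v : Place k K) {x : K} (hx : x ≠ 0) :
    (vr v).valuation x < 1 ↔ 0 < v.ord x := by
  rw [← (vr v).valuation.map_one, lt_iff_not_ge, val_le_iff v one_ne_zero hx, v.ord_one, not_le]

theorem transitive (hK₀ : IsFunctionField k K₀) (hK : IsFunctionField k K)
    [FiniteDimensional K₀ K] [IsGalois K₀ K] (v : Place k K₀) (u u' : Place k K)
    (hu : ∀ f : K₀, 0 < v.ord f → 0 < u.ord (algebraMap K₀ K f))
    (hu' : ∀ f : K₀, 0 < v.ord f → 0 < u'.ord (algebraMap K₀ K f)) :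
    ∃ σ : K ≃ₐ[K₀] K, ∀ f, u'.ord f = u.ord (σ f) := by
  have h := (above_iff hK₀ hK v u).2 hu
  have h' := (above_iff hK₀ hK v u').2 hu'
  set V := toV hK₀ v
  set B := integralClosure V.O K
  have _ := Algebra.isInvariant_of_isGalois' V.O K₀ K B
  have hfin : Finite (B ≃ₐ[V.O] B) :=
    Finite.of_equiv _ (galRestrict V.O K₀ K B).toEquiv
  have hP := FFBSD.FE_P_liesOver V (toV hK u) h
  have hQ := FFBSD.FE_P_liesOver V (toV hK u') h'
  obtain ⟨g, hg⟩ := Algebra.IsInvariant.exists_smul_of_under_eq V.O B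
    (B ≃ₐ[V.O] B) (FFBSD.FE_P V (toV hK u') h') (FFBSD.FE_P V (toV hK u) h)
    (hQ.over.symm.trans hP.over)
  obtain ⟨σ, rfl⟩ := (galRestrict V.O K₀ K B).surjective g
  refine ⟨σ, ?_⟩
  let u'' : Place k K := pull u (σ.restrictScalars k)
  have hu'' : ∀ f : K₀, 0 < v.ord f → 0 < u''.ord (algebraMap K₀ K f) := by
    intro f hf
    show 0 < u.ord (σ (algebraMap K₀ K f))
    rw [AlgEquiv.commutes]
    exact hu f hf
  have h'' := (above_iff hK₀ hK v u'').2 hu''
  have hmem : ∀ b : B, b ∈ FFBSD.FE_P V (toV hK u') h' ↔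
      galRestrict V.O K₀ K B σ b ∈ FFBSD.FE_P V (toV hK u) h := by
    intro b
    rw [hg]
    constructor
    · intro hb
      exact Ideal.smul_mem_pointwise_smul (galRestrict V.O K₀ K B σ) b _ hb
    · intro hb
      have := (Ideal.mem_pointwise_smul_iff_inv_smul_mem (a := galRestrict V.O K₀ K B σ)).1 hb
      simpa using this
  have hPP : FFBSD.FE_P V (toV hK u'') h'' = FFBSD.FE_P V (toV hK u') h' := by
    ext b
    rw [hmem, FFBSD.FE_mem_P, FFBSD.FE_mem_P]
    have e0 : ((galRestrict V.O K₀ K B σ b : B) : K) = σ (b : K) :=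
      algebraMap_galRestrict_apply V.O σ b
    rw [e0]
    by_cases hb : (b : K) = 0
    · rw [hb, map_zero, map_zero, map_zero]
      exact ⟨fun _ => zero_lt_one, fun _ => zero_lt_one⟩
    · have e1 : (toV hK u'').O.valuation (b : K) < 1 ↔ 0 < u''.ord (b : K) := val_lt_iff u'' hb
      have e2 : (toV hK u).O.valuation (σ (b : K)) < 1 ↔ 0 < u.ord (σ (b : K)) :=
        val_lt_iff u ((map_ne_zero σ).2 hb)
      rw [e1, e2]
      exact Iff.rfl
  have h3 : toV hK u'' = toV hK u' := by
    rw [FFBSD.FE_w_eq V (toV hK u'') h'', FFBSD.FE_w_eq V (toV hK u') h']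
    congr 1
  have h4 : u'' = u' := vr_injective (congrArg FFBSD.Place.O h3)
  intro f
  rw [← h4]
  rfl

end galois

end Pool.Agent.LibEnd77
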