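import Pool.Agent.LibEnd77.V4

/-!
Correspondences: images of points exist and are unique.
-/

open scoped Classical

namespace Pool.Agent.LibEnd77

open Pool.Agent.LibBH2 Pool.Agent.LibQC8

section field

variable {k F' H : Type} [Field k] [Field F'] [Algebra k F'] [Field H] [Algebra k H]

/-- finite extensions of function fields are function fields -/
theorem isFunctionField_of_finite (i : F' →ₐ[k] H) (hi : i.toRingHom.Finite)
    (h : IsFunctionField k F') : IsFunctionField k H := by
  obtain ⟨s, hs, hf⟩ := h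
  refine ⟨i s, ?_, ?_⟩
  · exact fun h0 => hs ((isAlgebraic_algHom_iff i i.toRingHom.injective).1 h0)
  · have hmem : ∀ x ∈ IntermediateField.adjoin k {s}, i x ∈ IntermediateField.adjoin k {i s} := by
      intro x hx
      have h1 : i x ∈ (IntermediateField.adjoin k {s}).map i := ⟨x, hx, rfl⟩
      rw [IntermediateField.adjoin_map, Set.image_singleton] at h1
      exact h1
    let f : IntermediateField.adjoin k {s} →+* IntermediateField.adjoin k {i s} :=
      (i.toRingHom.comp (algebraMap (IntermediateField.adjoin k {s}) F')).codRestrict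
        (IntermediateField.adjoin k {i s}) (fun x => hmem x x.2)
    have h2 : ((algebraMap (IntermediateField.adjoin k {i s}) H).comp f).Finite := by
      have h3 : (algebraMap (IntermediateField.adjoin k {i s}) H).comp f =
          i.toRingHom.comp (algebraMap (IntermediateField.adjoin k {s}) F') := by
        ext x
        rfl
      rw [h3]
      exact hi.comp (RingHom.finite_algebraMap.2 hf)
    exact RingHom.finite_algebraMap.1 h2.of_comp_finite

theorem finite_of_fieldRange (i : F' →ₐ[k] H) (h : FiniteDimensional i.fieldRange H) :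
    i.toRingHom.Finite := by
  have h1 : (algebraMap i.fieldRange H).Finite := RingHom.finite_algebraMap.2 h
  have h2 : i.rangeRestrict.toRingHom.Finite :=
    RingHom.Finite.of_surjective _ i.rangeRestrict_surjective
  exact h1.comp h2

end field

variable {k : Type} [Field k] {A B : Curve k}

theorem Corr.mul_mem (T : Corr A B) {σ τ : T.H ≃ₐ[k] T.H} (hσ : σ ∈ T.G) (hτ : τ ∈ T.G) :
    σ * τ ∈ T.G := by
  rw [T.mem_G] at hσ hτ ⊢
  intro f
  rw [AlgEquiv.mul_apply, hτ, hσ]

theorem Corr.inv_mem (T : Corr A B) {σ : T.H ≃ₐ[k] T.H} (hσ : σ ∈ T.G) : σ⁻¹ ∈ T.G := by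
  rw [T.mem_G] at hσ ⊢
  intro f
  rw [AlgEquiv.aut_inv, AlgEquiv.symm_apply_eq, hσ]

/-- the Galois group -/
def Corr.grp (T : Corr A B) : Subgroup (T.H ≃ₐ[k] T.H) where
  carrier := {σ | σ ∈ T.G}
  mul_mem' := fun hσ hτ => T.mul_mem hσ hτ
  one_mem' := (T.mem_G 1).2 fun _ => rfl
  inv_mem' := fun hσ => T.inv_mem hσ

instance (T : Corr A B) : Finite T.grp :=
  Finite.of_injective (fun σ : T.grp => (⟨σ.1, σ.2⟩ : T.G)) fun σ τ h =>
    Subtype.ext (congrArg Subtype.val h)

/-- the field of `A` and the fixed field -/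
noncomputable def Corr.eqv (T : Corr A B) : A.K ≃+* FixedPoints.subfield T.grp T.H :=
  RingEquiv.ofBijective (T.i.toRingHom.codRestrict (FixedPoints.subfield T.grp T.H)
      (fun f σ => (T.mem_G σ.1).1 σ.2 f))
    ⟨fun f g h => T.i.toRingHom.injective (congrArg Subtype.val h), fun x => by
      obtain ⟨f, hf⟩ := T.galois x.1 fun σ hσ => x.2 ⟨σ, hσ⟩
      exact ⟨f, Subtype.ext hf.symm⟩⟩

theorem Corr.eqv_apply (T : Corr A B) (f : A.K) : ((T.eqv f : FixedPoints.subfield T.grp T.H) :
    T.H) = T.i f := rfl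

theorem Corr.finite (T : Corr A B) : T.i.toRingHom.Finite := by
  have h1 : (algebraMap (FixedPoints.subfield T.grp T.H) T.H).Finite :=
    RingHom.finite_algebraMap.2 inferInstance
  have h2 : (T.eqv : A.K →+* FixedPoints.subfield T.grp T.H).Finite :=
    RingHom.Finite.of_surjective _ T.eqv.surjective
  exact h1.comp h2

noncomputable instance Corr.alg (T : Corr A B) : Algebra A.K T.H := T.i.toRingHom.toAlgebra

theorem Corr.algebraMap_eq (T : Corr A B) (x : A.K) : algebraMap A.K T.H x = T.i x := rfl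

instance Corr.tower (T : Corr A B) : IsScalarTower k A.K T.H :=
  IsScalarTower.of_algebraMap_eq fun x => by rw [T.algebraMap_eq, AlgHom.commutes]

instance Corr.finDim (T : Corr A B) : FiniteDimensional A.K T.H := T.finite

instance Corr.isGalois (T : Corr A B) : IsGalois A.K T.H := by
  have h0 : IsGalois (FixedPoints.subfield T.grp T.H) T.H := IsGalois.of_fixed_field T.H T.grp
  refine IsGalois.of_equiv_equiv (F := FixedPoints.subfield T.grp T.H) (E := T.H)
    (f := T.eqv.symm) (g := RingEquiv.refl T.H) ?_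
  ext x
  show T.i (T.eqv.symm x) = (x : T.H)
  rw [← T.eqv_apply, RingEquiv.apply_symm_apply]

theorem Corr.isFunctionField (T : Corr A B) : IsFunctionField k T.H :=
  isFunctionField_of_finite T.i T.finite A.ff

variable [IsAlgClosed k]

/-- points above -/
theorem Corr.exists_above (T : Corr A B) (a : Place k A.K) :
    ∃ u : Place k T.H, Spec u (.inr T.i) a := by
  obtain ⟨S, ⟨u, hu⟩, hS, -⟩ := sum_formula A.ff T.isFunctionField a
  exact ⟨u, (hS u).1 hu⟩

/-- conjugation -/
theorem Corr.exists_conj (T : Corr A B) (a : Place k A.K)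
    (u u' : Place k T.H) (hu : Spec u (.inr T.i) a) (hu' : Spec u' (.inr T.i) a) :
    ∃ σ ∈ T.G, ∀ f, u'.ord f = u.ord (σ f) := by
  obtain ⟨σ, hσ⟩ := transitive A.ff T.isFunctionField a u u' hu hu'
  exact ⟨σ.restrictScalars k, (T.mem_G _).2 fun f => σ.commutes f, hσ⟩

/-- the image of a point exists -/
theorem Corr.exists_image (T : Corr A B) (a : Place k A.K) : ∃ D, T.Image a D := by
  obtain ⟨u, hu⟩ := T.exists_above a
  have h1 : ∀ σ : T.H ≃ₐ[k] T.H, ∃ b : Place k B.K, T.Value u σ b := fun σ =>
    exists_spec B.ff T.isFunctionField (σ.toAlgHom.comp T.j) u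
  choose b hb using h1
  exact ⟨_, u, b, hu, fun σ _ => hb σ, rfl⟩

/-- the image of a point does not depend on the point above it -/
theorem Corr.image_eq (T : Corr A B) {a : Place k A.K}
    {D : Multiset (Place k B.K)} (hD : T.Image a D) (u : Place k T.H) (hu : Spec u (.inr T.i) a)
    (b : (T.H ≃ₐ[k] T.H) → Place k B.K) (hb : ∀ σ ∈ T.G, T.Value u σ (b σ)) :
    D = T.G.val.map b := by
  obtain ⟨u', b', hu', hb', rfl⟩ := hD
  obtain ⟨τ, hτG, hτ⟩ := T.exists_conj a u u' hu hu'
  have h1 : ∀ σ ∈ T.G, b' σ = b (τ * σ) := by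
    intro σ hσ
    refine spec_unique (u := u) (i := (τ * σ).toAlgHom.comp T.j)
      (fun f hf => ?_) (fun f hf => hb (τ * σ) (T.mul_mem hτG hσ) f hf)
    have := hb' σ hσ f hf
    rw [hτ] at this
    exact this
  have h2 : T.G.map (Equiv.mulLeft τ).toEmbedding = T.G := by
    ext σ
    rw [Finset.mem_map_equiv, Equiv.mulLeft_symm_apply]
    constructor
    · intro h
      have := T.mul_mem hτG h
      rwa [mul_inv_cancel_left] at this
    · intro h
      exact T.mul_mem (T.inv_mem hτG) h
  conv_rhs => rw [← h2]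
  rw [Finset.map_val, Multiset.map_map]
  exact Multiset.map_congr rfl fun σ hσ => h1 σ hσ

end Pool.Agent.LibEnd77
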