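import Pool.Agent.LibEnd77.ValA

open scoped Classical IntermediateField.algebraAdjoinAdjoin
open Pool.Agent.LibBH2 Pool.Agent.LibQC8 IsDedekindDomain Polynomial

namespace Pool.Agent.LibEnd77.Val8

variable {k H : Type} [Field k] [Field H] [Algebra k H]

section one

variable (k) (φ : H)

/-- `φ` as an element of `k[φ]` -/
abbrev gen : Algebra.adjoin k {φ} := ⟨φ, Algebra.self_mem_adjoin_singleton k φ⟩

theorem aeval_surj : Function.Surjective (aeval (R := k) (gen k φ)) := by
  rintro ⟨a, ha⟩
  have h1 := ha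
  rw [Algebra.adjoin_singleton_eq_range_aeval] at h1
  obtain ⟨p, hp⟩ := h1
  refine ⟨p, Subtype.ext ?_⟩
  have h2 : ((aeval (gen k φ) p : Algebra.adjoin k {φ}) : H) = aeval φ p := by
    have := Polynomial.aeval_algHom_apply (Algebra.adjoin k {φ}).val (gen k φ) p
    exact this.symm
  rw [h2]
  exact hp

instance pid : IsPrincipalIdealRing (Algebra.adjoin k {φ}) :=
  IsPrincipalIdealRing.of_surjective (aeval (R := k) (gen k φ)).toRingHom (aeval_surj k φ)

theorem decomp (a : Algebra.adjoin k {φ}) :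
    ∃ (c : k) (b : Algebra.adjoin k {φ}), a = algebraMap k _ c + b * gen k φ := by
  obtain ⟨p, rfl⟩ := aeval_surj k φ a
  refine ⟨p.coeff 0, aeval (gen k φ) p.divX, ?_⟩
  conv_lhs => rw [← Polynomial.divX_mul_X_add p]
  rw [map_add, map_mul, aeval_X, aeval_C, add_comm]

variable {k φ}

theorem gen_not_unit (hφ : Transcendental k φ) : Ideal.span {gen k φ} ≠ ⊤ := by
  rw [Ne, Ideal.span_singleton_eq_top]
  intro h
  obtain ⟨b, hb⟩ := h.exists_left_inv
  obtain ⟨p, rfl⟩ := aeval_surj k φ b
  have h2 : ((aeval (gen k φ) p : Algebra.adjoin k {φ}) : H) = aeval φ p := by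
    have := Polynomial.aeval_algHom_apply (Algebra.adjoin k {φ}).val (gen k φ) p
    exact this.symm
  have h3 : aeval φ (p * X - 1) = 0 := by
    rw [map_sub, map_mul, aeval_X, map_one, ← h2, sub_eq_zero]
    exact congrArg Subtype.val hb
  have h4 : p * X - 1 = 0 := by
    by_contra h
    exact hφ ⟨_, h, h3⟩
  have h5 := congrArg (fun q => Polynomial.coeff q 0) h4
  simp at h5

theorem algebraMap_quot_surj : Function.Surjective
    (algebraMap k (Algebra.adjoin k {φ} ⧸ Ideal.span {gen k φ})) := by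
  intro y
  obtain ⟨a, rfl⟩ := Ideal.Quotient.mk_surjective y
  obtain ⟨c, b, rfl⟩ := decomp k φ a
  refine ⟨c, ?_⟩
  rw [map_add, map_mul, Ideal.Quotient.eq_zero_iff_mem.2 (Ideal.mem_span_singleton_self _),
    mul_zero, add_zero]
  rfl

theorem algebraMap_quot_inj (hφ : Transcendental k φ) : Function.Injective
    (algebraMap k (Algebra.adjoin k {φ} ⧸ Ideal.span {gen k φ})) := by
  haveI : Nontrivial (Algebra.adjoin k {φ} ⧸ Ideal.span {gen k φ}) :=
    Ideal.Quotient.nontrivial_iff.2 (gen_not_unit hφ)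
  exact RingHom.injective _

noncomputable def quotEquiv (hφ : Transcendental k φ) :
    k ≃+* (Algebra.adjoin k {φ} ⧸ Ideal.span {gen k φ}) :=
  RingEquiv.ofBijective (algebraMap k _) ⟨algebraMap_quot_inj hφ, algebraMap_quot_surj⟩

theorem max (hφ : Transcendental k φ) : (Ideal.span {gen k φ}).IsMaximal := by
  apply Ideal.Quotient.maximal_of_isField
  exact MulEquiv.isField (Field.toIsField k) (quotEquiv hφ).symm.toMulEquiv

theorem ne_zero_of_transcendental (hφ : Transcendental k φ) : φ ≠ 0 := by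
  rintro rfl
  exact hφ isAlgebraic_zero

theorem ne_bot (hφ : Transcendental k φ) : Ideal.span {gen k φ} ≠ ⊥ := by
  rw [Ne, Ideal.span_singleton_eq_bot]
  intro h
  exact ne_zero_of_transcendental hφ (congrArg Subtype.val h)

end one

section main

variable (φ : H)

/-- the integral closure of `k[φ]` -/
abbrev IC (k : Type) {H : Type} [Field k] [Field H] [Algebra k H] (φ : H) : Type :=
  integralClosure (Algebra.adjoin k {φ}) H

variable {φ} (hφ : Transcendental k φ)
  [FiniteDimensional (IntermediateField.adjoin k {φ}) H]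
  [Algebra.IsSeparable (IntermediateField.adjoin k {φ}) H]

instance ded : IsDedekindDomain (IC k φ) :=
  integralClosure.isDedekindDomain (Algebra.adjoin k {φ}) (IntermediateField.adjoin k {φ}) H

instance frac : IsFractionRing (IC k φ) H :=
  integralClosure.isFractionRing_of_finite_extension (IntermediateField.adjoin k {φ}) H

instance fin : Module.Finite (Algebra.adjoin k {φ}) (IC k φ) :=
  IsIntegralClosure.finite (Algebra.adjoin k {φ}) (IntermediateField.adjoin k {φ}) H _

instance tow : IsScalarTower k (IC k φ) H := IsScalarTower.of_algebraMap_eq fun _ => rfl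

omit [FiniteDimensional (IntermediateField.adjoin k {φ}) H]
  [Algebra.IsSeparable (IntermediateField.adjoin k {φ}) H] in
theorem reg_adjoin (v : Place k H) (hv : v.Reg φ) (a : Algebra.adjoin k {φ}) :
    v.Reg (algebraMap (Algebra.adjoin k {φ}) H a) := by
  obtain ⟨p, rfl⟩ := aeval_surj k φ a
  have h2 : (algebraMap (Algebra.adjoin k {φ}) H (aeval (gen k φ) p)) = aeval φ p := by
    have := Polynomial.aeval_algHom_apply (Algebra.adjoin k {φ}).val (gen k φ) p
    exact this.symm
  rw [h2]
  induction p using Polynomial.induction_on' with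
  | add p q hp hq =>
    rw [map_add]
    apply Place.Reg.add
    · apply hp
      have := Polynomial.aeval_algHom_apply (Algebra.adjoin k {φ}).val (gen k φ) p
      exact this.symm
    · apply hq
      have := Polynomial.aeval_algHom_apply (Algebra.adjoin k {φ}).val (gen k φ) q
      exact this.symm
  | monomial n a =>
    rw [Polynomial.aeval_monomial]
    exact (v.reg_const a).mul (hv.pow n)

theorem reg_IC (v : Place k H) (hv : v.Reg φ) (r : IC k φ) :
    v.Reg (algebraMap (IC k φ) H r) :=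
  reg_of_integral v (reg_adjoin v hv) r.2

/-- The prime ideal of the functions vanishing at `v`. -/
def primeOf (v : Place k H) (hv : v.Reg φ) : Ideal (IC k φ) where
  carrier := {r | v.Zer (algebraMap (IC k φ) H r)}
  add_mem' := by
    intro a b ha hb
    change v.Zer (algebraMap (IC k φ) H (a + b))
    rw [map_add]
    exact Place.Zer.add ha hb
  zero_mem' := by
    change v.Zer (algebraMap (IC k φ) H 0)
    rw [map_zero]
    exact v.zer_zero
  smul_mem' := by
    intro a b hb
    change v.Zer (algebraMap (IC k φ) H (a * b))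
    rw [map_mul]
    exact Place.Zer.reg_mul (reg_IC v hv a) hb

theorem mem_primeOf (v : Place k H) (hv : v.Reg φ) (r : IC k φ) :
    r ∈ primeOf v hv ↔ v.Zer (algebraMap (IC k φ) H r) := Iff.rfl

theorem primeOf_isPrime (v : Place k H) (hv : v.Reg φ) : (primeOf v hv).IsPrime where
  ne_top' := by
    intro h
    have h1 : (1 : IC k φ) ∈ primeOf v hv := by rw [h]; trivial
    rw [mem_primeOf, map_one] at h1
    rcases h1 with h1 | h1
    · exact one_ne_zero h1
    · rw [v.ord_one] at h1
      exact lt_irrefl _ h1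
  mem_or_mem' := by
    intro a b hab
    rw [mem_primeOf, map_mul] at hab
    rw [mem_primeOf, mem_primeOf]
    by_contra hcon
    push Not at hcon
    obtain ⟨h1, h2⟩ := hcon
    have ha0 : algebraMap (IC k φ) H a ≠ 0 := fun h => h1 (Or.inl h)
    have hb0 : algebraMap (IC k φ) H b ≠ 0 := fun h => h2 (Or.inl h)
    have h3 := hab.resolve_left (mul_ne_zero ha0 hb0)
    rw [v.ord_mul _ _ ha0 hb0, Place.ord_eq_zero_of_reg (reg_IC v hv a) h1,
      Place.ord_eq_zero_of_reg (reg_IC v hv b) h2] at h3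
    exact lt_irrefl _ h3

include hφ in
theorem primeOf_liesOver (v : Place k H) (hv : 0 < v.ord φ) :
    (primeOf (φ := φ) v (Or.inr hv.le)).LiesOver (Ideal.span {gen k φ}) := by
  constructor
  haveI := max hφ
  haveI := primeOf_isPrime (φ := φ) v (Or.inr hv.le)
  apply Ideal.IsMaximal.eq_of_le (max hφ)
  · exact (Ideal.IsPrime.comap _).ne_top
  · rw [Ideal.span_singleton_le_iff_mem]
    change v.Zer _
    exact Or.inr hv

/-- The height one prime. -/
def hos (P : Ideal (IC k φ)) (hP : P.IsPrime) (h : P ≠ ⊥) : HeightOneSpectrum (IC k φ) := ⟨P, hP, h⟩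

include hφ in
theorem ord_gen [Module.IsTorsionFree (Algebra.adjoin k {φ}) (IC k φ)] (P : Ideal (IC k φ)) (hP : P.IsPrime) (h : P ≠ ⊥)
    (hl : P.LiesOver (Ideal.span {gen k φ})) :
    (ofHOS (k := k) (H := H) (hos P hP h)).ord φ =
      (Ideal.ramificationIdx' (Ideal.span {gen k φ}) P : ℤ) := by
  let v : HeightOneSpectrum (Algebra.adjoin k {φ}) :=
    ⟨Ideal.span {gen k φ}, (max hφ).isPrime, ne_bot hφ⟩
  haveI : (hos P hP h).asIdeal.LiesOver v.asIdeal := hl
  have h1 := HeightOneSpectrum.valuation_liesOver (K := IntermediateField.adjoin k {φ}) H v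
    (hos P hP h) (algebraMap (Algebra.adjoin k {φ}) _ (gen k φ))
  rw [HeightOneSpectrum.valuation_of_algebraMap, HeightOneSpectrum.intValuation_singleton v
    (by
      intro h
      exact ne_zero_of_transcendental hφ (congrArg Subtype.val h)) rfl,
    ← IsScalarTower.algebraMap_apply] at h1
  change _ = (hos P hP h).valuation H φ at h1
  rw [ofHOS_ord (k := k) (hos P hP h) (ne_zero_of_transcendental hφ), ← WithZero.exp_nsmul,
    WithZero.exp_inj] at h1
  change (Ideal.ramificationIdx' (Ideal.span {gen k φ}) P) • (-1 : ℤ) = _ at h1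
  simp at h1
  exact h1.symm

include hφ in
theorem inertia_one [IsAlgClosed k] (P : Ideal (IC k φ)) (hP : P.IsPrime)
    (hl : P.LiesOver (Ideal.span {gen k φ})) :
    Ideal.inertiaDeg' (Ideal.span {gen k φ}) P = 1 := by
  haveI := max hφ
  rw [Ideal.inertiaDeg'_algebraMap]
  letI : Field (Algebra.adjoin k {φ} ⧸ Ideal.span {gen k φ}) := Ideal.Quotient.field _
  haveI : IsAlgClosed (Algebra.adjoin k {φ} ⧸ Ideal.span {gen k φ}) :=
    IsAlgClosed.of_ringEquiv k _ (quotEquiv hφ)
  haveI : IsDomain (IC k φ ⧸ P) := inferInstance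
  have h1 : Module.Finite (Algebra.adjoin k {φ} ⧸ Ideal.span {gen k φ}) (IC k φ ⧸ P) :=
    inferInstance
  have h2 : Algebra.IsIntegral (Algebra.adjoin k {φ} ⧸ Ideal.span {gen k φ}) (IC k φ ⧸ P) :=
    Algebra.IsIntegral.of_finite _ _
  have h3 := IsAlgClosed.algebraMap_bijective_of_isIntegral
    (k := Algebra.adjoin k {φ} ⧸ Ideal.span {gen k φ}) (K := IC k φ ⧸ P)
  have h4 := (LinearEquiv.ofBijective (Algebra.linearMap
    (Algebra.adjoin k {φ} ⧸ Ideal.span {gen k φ}) (IC k φ ⧸ P)) h3).finrank_eq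
  rw [← h4]
  exact Module.finrank_self _

include hφ in
/-- The number of zeros. -/
theorem sum_zeros [IsAlgClosed k] : ∃ S : Finset (Place k H), (∀ v, v ∈ S ↔ 0 < v.ord φ) ∧
    ∑ v ∈ S, v.ord φ = Module.finrank (IntermediateField.adjoin k {φ}) H := by
  haveI hmax := max hφ
  have hp0 := ne_bot hφ
  let S₀ := IsDedekindDomain.primesOverFinset (Ideal.span {gen k φ}) (IC k φ)
  have hS : ∀ P, P ∈ S₀ ↔ P.IsPrime ∧ P.LiesOver (Ideal.span {gen k φ}) := fun P =>
    IsDedekindDomain.mem_primesOverFinset_iff hp0 _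
  have hb : ∀ P ∈ S₀, P ≠ ⊥ := by
    intro P hP
    haveI := ((hS P).1 hP).2
    exact Ideal.ne_bot_of_liesOver_of_ne_bot hp0 P
  let f : S₀ → Place k H := fun P => ofHOS (hos P.1 ((hS P.1).1 P.2).1 (hb P.1 P.2))
  have hinj : Function.Injective f := by
    intro P Q h
    apply Subtype.ext
    ext r
    have h1 := ofHOS_zer (k := k) (H := H) (hos P.1 ((hS P.1).1 P.2).1 (hb P.1 P.2)) r
    have h2 := ofHOS_zer (k := k) (H := H) (hos Q.1 ((hS Q.1).1 Q.2).1 (hb Q.1 Q.2)) r
    change (f P).Zer _ ↔ r ∈ P.1 at h1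
    change (f Q).Zer _ ↔ r ∈ Q.1 at h2
    rw [← h1, ← h2, h]
  refine ⟨S₀.attach.image f, ?_, ?_⟩
  · intro v
    constructor
    · intro hv
      obtain ⟨P, -, rfl⟩ := Finset.mem_image.1 hv
      have h1 := ((hS P.1).1 P.2)
      haveI := h1.1
      haveI := h1.2
      change 0 < (ofHOS (k := k) (H := H) (hos P.1 h1.1 (hb P.1 P.2))).ord φ
      rw [ord_gen hφ P.1 h1.1 (hb P.1 P.2) h1.2]
      have h2 := Ideal.IsDedekindDomain.ramificationIdx'_ne_zero_of_liesOver
        (p := Ideal.span {gen k φ}) P.1 hp0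
      omega
    · intro hv
      have hl := primeOf_liesOver hφ v hv
      have hpr := primeOf_isPrime (φ := φ) v (Or.inr hv.le)
      have hm : primeOf (φ := φ) v (Or.inr hv.le) ∈ S₀ := (hS _).2 ⟨hpr, hl⟩
      refine Finset.mem_image.2 ⟨⟨_, hm⟩, Finset.mem_attach _ _, ?_⟩
      symm
      apply eq_ofHOS v (reg_IC v (Or.inr hv.le))
      intro r
      exact mem_primeOf v (Or.inr hv.le) r
  · rw [Finset.sum_image fun P _ Q _ h => hinj h]
    have h1 : ∀ P ∈ S₀.attach, (f P).ord φ =
        (fun Q : Ideal (IC k φ) => ((Ideal.ramificationIdx' (Ideal.span {gen k φ}) Q *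
          Ideal.inertiaDeg' (Ideal.span {gen k φ}) Q : ℕ) : ℤ)) P.1 := by
      intro P _
      have h1 := ((hS P.1).1 P.2)
      change (ofHOS (k := k) (H := H) (hos P.1 h1.1 (hb P.1 P.2))).ord φ =
        ((Ideal.ramificationIdx' (Ideal.span {gen k φ}) P.1 *
          Ideal.inertiaDeg' (Ideal.span {gen k φ}) P.1 : ℕ) : ℤ)
      rw [ord_gen hφ P.1 h1.1 (hb P.1 P.2) h1.2, inertia_one hφ P.1 h1.1 h1.2, mul_one]
    rw [Finset.sum_congr rfl h1, Finset.sum_attach S₀ (fun Q : Ideal (IC k φ) =>
      ((Ideal.ramificationIdx' (Ideal.span {gen k φ}) Q *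
          Ideal.inertiaDeg' (Ideal.span {gen k φ}) Q : ℕ) : ℤ)), ← Nat.cast_sum,
      Ideal.sum_ramification_inertia (IC k φ) (IntermediateField.adjoin k {φ}) H hp0]

end main

end Pool.Agent.LibEnd77.Val8
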